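import Mathlib

set_option autoImplicit false

namespace Pool.Agent.Helper495.E97

/-- A length function on a group coming from an action on a tree without inversions. -/
structure TreeLength (H : Type*) [Group H] where
  L : H → ℕ
  c : H → H → ℕ
  L_one : L 1 = 0
  hc : ∀ g h, 2 * c g h + L (g * h⁻¹) = L g + L h
  ultra : ∀ g h k, min (c g h) (c h k) ≤ c g k
  split : ∀ g, 0 < L g → ∃ u s, g = u * s ∧ L s = 1 ∧ L u + 1 = L g
  noinv : ∀ g, L g = 1 → L (g * g) = 2

namespace TreeLength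

variable {H : Type*} [Group H] (T : TreeLength H)

include T

theorem L_inv (g : H) : T.L g⁻¹ = T.L g := by
  have h1 := T.hc 1 g
  have h2 := T.hc 1 g⁻¹
  have h0 := T.L_one
  simp only [one_mul, inv_inv] at h1 h2
  omega

theorem c_comm (g h : H) : T.c g h = T.c h g := by
  have h1 := T.hc g h
  have h2 := T.hc h g
  have h3 := T.L_inv (g * h⁻¹)
  simp only [mul_inv_rev, inv_inv] at h3
  omega

theorem L_mul_le (g h : H) : T.L (g * h) ≤ T.L g + T.L h := by
  have h1 := T.hc g h⁻¹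
  have h2 := T.L_inv h
  simp only [inv_inv] at h1
  omega

theorem c_le_left (g h : H) : T.c g h ≤ T.L g := by
  have h1 := T.hc g h
  have h2 := T.L_mul_le (h * g⁻¹) g
  have h3 := T.L_inv (g * h⁻¹)
  simp only [mul_inv_rev, inv_inv, inv_mul_cancel_right] at h2 h3
  omega

theorem c_le_right (g h : H) : T.c g h ≤ T.L h := by
  rw [T.c_comm]; exact T.c_le_left h g

/-- cyclically reduced elements -/
def CR (x : H) : Prop := 0 < T.L x ∧ T.L (x * x) = 2 * T.L x

theorem CR.pow {x : H} (hx : T.CR x) (k : ℕ) : T.L (x ^ k) = k * T.L x := by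
  obtain ⟨h0, h2⟩ := hx
  have key : ∀ k : ℕ, T.L (x ^ k) = k * T.L x ∧ T.L (x ^ (k + 1)) = (k + 1) * T.L x := by
    intro k
    induction k with
    | zero => simp [T.L_one]
    | succ k ih =>
      obtain ⟨ih1, ih2⟩ := ih
      refine ⟨ih2, ?_⟩
      have hxx : T.c x x⁻¹ = 0 := by
        have := T.hc x x⁻¹
        rw [inv_inv, T.L_inv] at this
        omega
      have e1 : 2 * T.c (x ^ (k + 1)) x + T.L (x ^ k) = T.L (x ^ (k + 1)) + T.L x := by
        have := T.hc (x ^ (k + 1)) x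
        rwa [pow_succ, mul_inv_cancel_right, ← pow_succ] at this
      have hpos : 0 < T.c (x ^ (k + 1)) x := by
        have : 2 * T.c (x ^ (k + 1)) x = 2 * T.L x := by
          rw [ih1, ih2] at e1
          have : (k + 1) * T.L x = k * T.L x + T.L x := by ring
          omega
        omega
      have hz : T.c (x ^ (k + 1)) x⁻¹ = 0 := by
        have := T.ultra x (x ^ (k + 1)) x⁻¹
        rw [T.c_comm x (x ^ (k + 1)), hxx] at this
        rcases min_choice (T.c (x ^ (k + 1)) x) (T.c (x ^ (k + 1)) x⁻¹) with h | h <;> omega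
      have := T.hc (x ^ (k + 1)) x⁻¹
      rw [inv_inv, T.L_inv, hz, ← pow_succ, ih2] at this
      rw [show (k + 1 + 1) * T.L x = (k + 1) * T.L x + T.L x by ring]
      omega
  exact (key k).1

theorem CR.zpow {x : H} (hx : T.CR x) (k : ℤ) : T.L (x ^ k) = k.natAbs * T.L x := by
  obtain ⟨n, rfl | rfl⟩ := k.eq_nat_or_neg
  · rw [zpow_natCast, Int.natAbs_natCast]; exact hx.pow T n
  · rw [zpow_neg, T.L_inv, zpow_natCast, Int.natAbs_neg, Int.natAbs_natCast]; exact hx.pow T n

theorem CR.c_pow {x : H} (hx : T.CR x) (k : ℕ) : T.c (x ^ k) (x ^ k)⁻¹ = 0 := by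
  have h1 := T.hc (x ^ k) (x ^ k)⁻¹
  have h2 := hx.pow T k
  have h3 := hx.pow T (k + k)
  rw [inv_inv, T.L_inv, ← pow_add, h2, h3] at h1
  have : (k + k) * T.L x = k * T.L x + k * T.L x := by ring
  omega

/-- the direction dichotomy for elements commuting with a cyclically reduced element -/
theorem CR.comm_aux {x y : H} (hx : T.CR x) (hy : y * x = x * y) {k : ℕ}
    (hk : T.L y < k * T.L x) :
    T.c y (x ^ k) + T.c y (x ^ k)⁻¹ = T.L y ∧
      (T.c y (x ^ k) = 0 ∨ T.c y (x ^ k)⁻¹ = 0) := by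
  have hyk : y * x ^ k = x ^ k * y := ((show Commute y x from hy).pow_right k).eq
  have hyki : y * (x ^ k)⁻¹ = (x ^ k)⁻¹ * y :=
    ((show Commute y x from hy).pow_right k).inv_right.eq
  set X := x ^ k with hX
  have hLX : T.L X = k * T.L x := hx.pow T k
  have hLXX : T.L (X * X) = 2 * (k * T.L x) := by
    rw [hX, ← pow_add, hx.pow T]; ring
  have hcX : T.c X X⁻¹ = 0 := hx.c_pow T k
  have a1 := T.hc y X
  have a2 := T.hc y X⁻¹
  rw [inv_inv, T.L_inv] at a2
  -- the product yX, yX⁻¹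
  have a3 := T.hc (y * X) (y * X⁻¹)
  have e3 : y * X * (y * X⁻¹)⁻¹ = y * (X * X) * y⁻¹ := by group
  have e3' : y * (X * X) * y⁻¹ = X * X := by
    rw [← mul_assoc, hyk, mul_assoc X y X, hyk]; group
  rw [e3, e3', hLXX] at a3
  have a4 := T.hc (y * X) X
  rw [mul_inv_cancel_right] at a4
  have a5 := T.hc (y * X⁻¹) X⁻¹
  rw [mul_inv_cancel_right, T.L_inv X] at a5
  have b1 := T.c_le_left y X
  have b2 := T.c_le_left y X⁻¹
  have u1 := T.ultra X (y * X) (y * X⁻¹)
  have u2 := T.ultra X (y * X⁻¹) X⁻¹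
  have u3 := T.ultra X y X⁻¹
  rw [T.c_comm X (y * X)] at u1
  rw [T.c_comm X y] at u3
  rw [hcX] at u2 u3
  simp only [min_def] at u1 u2 u3
  refine ⟨?_, ?_⟩
  · split_ifs at u1 u2 u3 <;> omega
  · split_ifs at u3 <;> omega

/-- only the identity fixes the base vertex and commutes with x -/
def Fr (x : H) : Prop := ∀ y : H, y * x = x * y → T.L y = 0 → y = 1

theorem CR.comm_CR {x y : H} (hx : T.CR x) (hy : y * x = x * y)
    (h0 : 0 < T.L y) : T.CR y := by
  refine ⟨h0, ?_⟩
  set k := T.L y + 1 with hk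
  have hlt : T.L y < k * T.L x := by
    have := hx.1
    nlinarith
  have A := hx.comm_aux T hy hlt
  have hy' : y⁻¹ * x = x * y⁻¹ := ((show Commute y x from hy).inv_left).eq
  have hlt' : T.L y⁻¹ < k * T.L x := by rw [T.L_inv]; exact hlt
  have B := hx.comm_aux T hy' hlt'
  rw [T.L_inv] at B
  have hcX := hx.c_pow T k
  set X := x ^ k with hX
  -- relation between c y X and c y⁻¹ X⁻¹
  have c1 : T.c y X = T.c y⁻¹ X⁻¹ := by
    have e1 := T.hc y X
    have e2 := T.hc y⁻¹ X⁻¹
    rw [inv_inv, T.L_inv, T.L_inv] at e2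
    have e3 : T.L (y * X⁻¹) = T.L (y⁻¹ * X) := by
      rw [← T.L_inv (y * X⁻¹)]
      congr 1
      rw [mul_inv_rev, inv_inv]
      exact (((show Commute y x from hy).inv_left).pow_right k).eq.symm
    omega
  have u1 := T.ultra X y X⁻¹
  have u2 := T.ultra X y y⁻¹
  have u3 := T.ultra X y⁻¹ X⁻¹
  have u4 := T.ultra X⁻¹ y y⁻¹
  have u5 := T.ultra X⁻¹ y⁻¹ X
  rw [T.c_comm X⁻¹ X] at u5
  rw [T.c_comm X⁻¹ y] at u4
  rw [T.c_comm X y] at u1 u2
  have v1 := T.c_comm X y⁻¹
  have v2 := T.c_comm X⁻¹ y⁻¹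
  have e := T.hc y y⁻¹
  rw [inv_inv, T.L_inv] at e
  rw [hcX] at u1 u3 u5
  simp only [min_def] at u1 u2 u3 u4 u5
  split_ifs at u1 u2 u3 u4 u5 <;> omega

theorem CR.sub_aux {x y z : H} {k : ℕ} (hyz : T.L z ≤ T.L y)
    (py : T.c y (x ^ k) = T.L y) (pz : T.c z (x ^ k) = T.L z) :
    T.L (y * z⁻¹) + T.L z = T.L y := by
  have h1 := T.ultra y (x ^ k) z
  rw [T.c_comm (x ^ k) z, py, pz, min_eq_right hyz] at h1
  have h2 := T.c_le_right y z
  have h3 := T.hc y z
  omega

theorem CR.flip_aux {x y : H} (hy : y * x = x * y) (k : ℕ) :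
    T.c y (x ^ k) = T.c y⁻¹ (x ^ k)⁻¹ := by
  have e1 := T.hc y (x ^ k)
  have e2 := T.hc y⁻¹ (x ^ k)⁻¹
  rw [inv_inv, T.L_inv, T.L_inv] at e2
  have e3 : T.L (y * (x ^ k)⁻¹) = T.L (y⁻¹ * x ^ k) := by
    rw [← T.L_inv (y * (x ^ k)⁻¹)]
    congr 1
    rw [mul_inv_rev, inv_inv]
    exact (((show Commute y x from hy).inv_left).pow_right k).eq.symm
  omega

/-- centralizers of hyperbolic elements are infinite cyclic -/
theorem CR.centralizer_cyclic {x : H} (hT : T.Fr x) (hx : T.CR x) :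
    ∃ z, z * x = x * z ∧ T.CR z ∧ ∀ y, y * x = x * y → y ∈ Subgroup.zpowers z := by
  classical
  have hex : ∃ m, 0 < m ∧ ∃ z, z * x = x * z ∧ T.L z = m := ⟨T.L x, hx.1, x, rfl, rfl⟩
  obtain ⟨hm0, z, hz, hzm⟩ := Nat.find_spec hex
  have hmin : ∀ y, y * x = x * y → 0 < T.L y → T.L z ≤ T.L y := by
    intro y hy hy0
    rw [hzm]
    exact Nat.find_min' hex ⟨hy0, y, hy, rfl⟩
  have hz0 : 0 < T.L z := by omega
  have hz1 : z ≠ 1 := by
    rintro rfl
    rw [T.L_one] at hz0
    omega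
  refine ⟨z, hz, hx.comm_CR T hz hz0, ?_⟩
  -- main descent
  have main : ∀ n : ℕ, ∀ y, y * x = x * y → T.L y = n → y ∈ Subgroup.zpowers z := by
    intro n
    induction n using Nat.strong_induction_on with
    | _ n ih =>
      intro y hy hyn
      rcases Nat.eq_zero_or_pos (T.L y) with h0 | h0
      · rw [hT y hy h0]; exact Subgroup.one_mem _
      have hle := hmin y hy h0
      set k := T.L y + 1 with hk
      have hxp := hx.1
      have hyk : T.L y < k * T.L x := by nlinarith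
      have hzk : T.L z < k * T.L x := by nlinarith
      -- choose orientation of z
      have zor : ∃ z', z' * x = x * z' ∧ (z' = z ∨ z' = z⁻¹) ∧ T.L z' = T.L z ∧
          T.c z' (x ^ k) = T.L z' := by
        rcases (hx.comm_aux T hz hzk).2 with h | h
        · have hzi : z⁻¹ * x = x * z⁻¹ := ((show Commute z x from hz).inv_left).eq
          refine ⟨z⁻¹, hzi, Or.inr rfl, T.L_inv z, ?_⟩
          have := (hx.comm_aux T hz hzk).1
          rw [CR.flip_aux T hzi k, inv_inv, T.L_inv]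
          omega
        · refine ⟨z, hz, Or.inl rfl, rfl, ?_⟩
          have := (hx.comm_aux T hz hzk).1
          omega
      obtain ⟨z', hz'x, hz', hLz', pz'⟩ := zor
      have hz'mem : z' ∈ Subgroup.zpowers z := by
        rcases hz' with h | h
        · rw [h]; exact Subgroup.mem_zpowers z
        · rw [h]; exact Subgroup.inv_mem _ (Subgroup.mem_zpowers z)
      have hz'i : z'⁻¹ * x = x * z'⁻¹ := ((show Commute z' x from hz'x).inv_left).eq
      have pos : ∀ w, w * x = x * w → T.L w = T.L y → T.c w (x ^ k) = T.L w →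
          w ∈ Subgroup.zpowers z := by
        intro w hw hLw pw
        have h1 := CR.sub_aux T (x := x) (y := w) (z := z') (by rw [hLz', hLw]; exact hle) pw pz'
        have hcomm : (w * z'⁻¹) * x = x * (w * z'⁻¹) :=
          ((show Commute w x from hw).mul_left hz'i).eq
        have := ih (T.L (w * z'⁻¹)) (by omega) (w * z'⁻¹) hcomm rfl
        have h2 := Subgroup.mul_mem _ this hz'mem
        rwa [inv_mul_cancel_right] at h2
      rcases (hx.comm_aux T hy hyk).2 with h | h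
      · have hyi : y⁻¹ * x = x * y⁻¹ := ((show Commute y x from hy).inv_left).eq
        have : y⁻¹ ∈ Subgroup.zpowers z := by
          apply pos y⁻¹ hyi (T.L_inv y)
          have := (hx.comm_aux T hy hyk).1
          rw [CR.flip_aux T hyi k, inv_inv, T.L_inv]
          omega
        exact (Subgroup.inv_mem_iff _).1 this
      · apply pos y hy rfl
        have := (hx.comm_aux T hy hyk).1
        omega
  intro y hy
  exact main _ y hy rfl

theorem CR.malnormal (htf : ∀ (g : H) (n : ℕ), 0 < n → g ^ n = 1 → g = 1)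
    {x : H} (hT : T.Fr x) (hT2 : ∀ y : H, y * x = x * y → y ≠ 1 → T.Fr y) (hx : T.CR x) {y : H} (hy : y * x = x * y) (hy1 : y ≠ 1) {h : H}
    (hh : (h * y * h⁻¹) * x = x * (h * y * h⁻¹)) : h * x = x * h := by
  obtain ⟨z, hz, hzCR, hgen⟩ := hx.centralizer_cyclic T hT
  obtain ⟨i, hi⟩ := Subgroup.mem_zpowers_iff.1 (hgen y hy)
  obtain ⟨j, hj⟩ := Subgroup.mem_zpowers_iff.1 (hgen _ hh)
  obtain ⟨k, hk⟩ := Subgroup.mem_zpowers_iff.1 (hgen x rfl)
  have hLz := hzCR.1
  have hpw : ∀ n : ℕ, h * z ^ (i * n) * h⁻¹ = z ^ (j * n) := by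
    intro n
    rw [zpow_mul, zpow_mul, hi, hj, zpow_natCast, zpow_natCast, conj_pow]
  have hi0 : i ≠ 0 := by
    rintro rfl
    rw [zpow_zero] at hi
    exact hy1 hi.symm
  have hij : i.natAbs = j.natAbs := by
    have n1 : ∀ n : ℕ, j.natAbs * n * T.L z ≤ 2 * T.L h + i.natAbs * n * T.L z := by
      intro n
      have e1 := T.L_mul_le (h * z ^ (i * n)) h⁻¹
      have e2 := T.L_mul_le h (z ^ (i * n))
      rw [hpw n, T.L_inv, hzCR.zpow T, Int.natAbs_mul, Int.natAbs_natCast] at e1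
      rw [hzCR.zpow T, Int.natAbs_mul, Int.natAbs_natCast] at e2
      omega
    have n2 : ∀ n : ℕ, i.natAbs * n * T.L z ≤ 2 * T.L h + j.natAbs * n * T.L z := by
      intro n
      have e0 : z ^ (i * n) = h⁻¹ * z ^ (j * n) * h := by
        rw [← hpw n]; group
      have e1 := T.L_mul_le (h⁻¹ * z ^ (j * n)) h
      have e2 := T.L_mul_le h⁻¹ (z ^ (j * n))
      rw [← e0, hzCR.zpow T, Int.natAbs_mul, Int.natAbs_natCast] at e1
      rw [T.L_inv, hzCR.zpow T, Int.natAbs_mul, Int.natAbs_natCast] at e2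
      omega
    rcases lt_trichotomy i.natAbs j.natAbs with hlt | heq | hgt
    · exfalso
      have := n1 (2 * T.L h + 1)
      have h3 : (i.natAbs + 1) * (2 * T.L h + 1) * T.L z ≤ j.natAbs * (2 * T.L h + 1) * T.L z := by
        gcongr
        omega
      nlinarith
    · exact heq
    · exfalso
      have := n2 (2 * T.L h + 1)
      have h3 : (j.natAbs + 1) * (2 * T.L h + 1) * T.L z ≤ i.natAbs * (2 * T.L h + 1) * T.L z := by
        gcongr
        omega
      nlinarith
  have hyCR : T.CR (z ^ i) := by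
    rw [hi]
    refine hx.comm_CR T hy ?_
    rcases Nat.eq_zero_or_pos (T.L y) with h | h
    · exact absurd (hT y hy h) hy1
    · exact h
  have hFzi : T.Fr (z ^ i) := by
    rw [hi]; exact hT2 y hy hy1
  have cent : ∀ g : H, g * z ^ i = z ^ i * g → g * x = x * g := by
    intro g hg
    obtain ⟨w, -, -, hw⟩ := hyCR.centralizer_cyclic T hFzi
    obtain ⟨a, ha⟩ := Subgroup.mem_zpowers_iff.1 (hw z (by rw [← zpow_one_add, ← zpow_add_one, add_comm]))
    obtain ⟨b, hb⟩ := Subgroup.mem_zpowers_iff.1 (hw g hg)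
    rw [← hb, ← hk, ← ha, ← zpow_mul, ← zpow_add, ← zpow_add, add_comm]
  rcases Int.natAbs_eq_natAbs_iff.1 hij with e | e
  · apply cent
    rw [← hi, ← e] at hj
    calc h * z ^ i = (h * z ^ i * h⁻¹) * h := by group
      _ = z ^ i * h := by rw [← hj]
  · -- reversing case
    have hj' : h * z ^ i * h⁻¹ = z ^ (-i) := by rw [hi, ← hj, e, neg_neg]
    have hj'' : h * z ^ (-i) * h⁻¹ = z ^ i := by
      rw [zpow_neg, ← conj_inv, hj', zpow_neg, inv_inv]
    have hsq : (h * h) * z ^ i = z ^ i * (h * h) := by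
      have : h * h * z ^ i * (h * h)⁻¹ = z ^ i := by
        calc h * h * z ^ i * (h * h)⁻¹ = h * (h * z ^ i * h⁻¹) * h⁻¹ := by group
          _ = z ^ i := by rw [hj', hj'']
      calc h * h * z ^ i = (h * h * z ^ i * (h * h)⁻¹) * (h * h) := by group
        _ = _ := by rw [this]
    obtain ⟨s, hs⟩ := Subgroup.mem_zpowers_iff.1 (hgen _ (cent _ hsq))
    have hcomm : h * z ^ (i * s) * h⁻¹ = z ^ (i * s) := by
      have : z ^ (i * s) = (h * h) ^ i := by rw [mul_comm, zpow_mul, hs]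
      rw [this]
      have hc : Commute h ((h * h) ^ i) :=
        ((Commute.refl h).mul_right (Commute.refl h)).zpow_right i
      rw [hc.eq, mul_inv_cancel_right]
    have hneg : h * z ^ (i * s) * h⁻¹ = z ^ (-(i * s)) := by
      rw [zpow_mul, ← conj_zpow, hj', ← zpow_mul, neg_mul]
    have h2 : z ^ (2 * (i * s)) = 1 := by
      have : z ^ (i * s) = z ^ (-(i * s)) := hcomm.symm.trans hneg
      rw [two_mul, zpow_add]
      nth_rewrite 2 [this]
      rw [← zpow_add, add_neg_cancel, zpow_zero]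
    have h3 : T.L (z ^ (2 * (i * s))) = 0 := by rw [h2, T.L_one]
    rw [hzCR.zpow T] at h3
    have h4 : (2 * (i * s)).natAbs = 0 := by
      rcases Nat.mul_eq_zero.1 h3 with h | h
      · exact h
      · omega
    have h5 : s = 0 := by
      rw [Int.natAbs_eq_zero] at h4
      rcases mul_eq_zero.1 h4 with h | h
      · omega
      · rcases mul_eq_zero.1 h with h | h
        · exact absurd h hi0
        · exact h
    rw [h5, zpow_zero] at hs
    have : h = 1 := htf h 2 (by norm_num) (by rw [pow_two]; exact hs.symm)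
    rw [this]; group

theorem exists_conj (h : H) : ∃ k : H, T.L (k * h * k⁻¹) = 0 ∨ T.CR (k * h * k⁻¹) := by
  classical
  have hex : ∃ n, ∃ k : H, T.L (k * h * k⁻¹) = n := ⟨_, 1, rfl⟩
  obtain ⟨k, hk⟩ := Nat.find_spec hex
  have hmin : ∀ k' : H, T.L (k * h * k⁻¹) ≤ T.L (k' * h * k'⁻¹) := by
    intro k'
    rw [hk]
    exact Nat.find_min' hex ⟨k', rfl⟩
  refine ⟨k, ?_⟩
  rcases Nat.eq_zero_or_pos (T.L (k * h * k⁻¹)) with h0 | h0
  · exact Or.inl h0
  right
  refine ⟨h0, ?_⟩
  set x := k * h * k⁻¹ with hx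
  obtain ⟨u, s, hus, hs, hu⟩ := T.split x h0
  have hc0 := T.hc x x⁻¹
  rw [inv_inv, T.L_inv] at hc0
  by_contra hne
  have hcpos : 0 < T.c x x⁻¹ := by omega
  have hn2 : 2 ≤ T.L x := by
    by_contra hlt
    have h1 : T.L x = 1 := by omega
    have := T.noinv x h1
    omega
  have c1 := T.hc x s
  have e1 : x * s⁻¹ = u := by rw [hus]; group
  rw [e1] at c1
  have c2 := T.ultra s x x⁻¹
  rw [T.c_comm s x] at c2
  have c3 := T.c_le_left s x⁻¹
  have c4 := T.hc s x⁻¹
  rw [inv_inv, T.L_inv] at c4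
  have c5 := T.hc (s * x) s
  have c6 := T.hc (s * x) x
  rw [mul_inv_cancel_right] at c6
  have c7 := T.ultra (s * x) x s
  have hm := hmin (s * k)
  have e2 : s * k * h * (s * k)⁻¹ = s * x * s⁻¹ := by rw [hx]; group
  rw [e2] at hm
  simp only [min_def] at c2 c7
  split_ifs at c2 c7 <;> omega

theorem fix_aux {q s g : H} (hs : T.L s = 1) (hqs : T.L (q * s) = T.L q + 1) (hg : T.L g = 0)
    (hp : T.L ((q * s) * g * (q * s)⁻¹) = 0) : T.L (s * g * s⁻¹) = 0 := by
  set p := q * s with hpdef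
  have g1 : T.L (p * g) = T.L p := by
    have a1 := T.L_mul_le p g
    have a2 := T.L_mul_le (p * g) g⁻¹
    rw [mul_inv_cancel_right, T.L_inv] at a2
    omega
  have g2 : T.L (s * g) = 1 := by
    have a1 := T.L_mul_le s g
    have a2 := T.L_mul_le (s * g) g⁻¹
    rw [mul_inv_cancel_right, T.L_inv] at a2
    omega
  have c1 := T.hc (p * g) p
  have c2 := T.hc p s
  have e2 : p * s⁻¹ = q := by rw [hpdef]; group
  rw [e2] at c2
  have c3 := T.hc (p * g) (s * g)
  have e3 : p * g * (s * g)⁻¹ = q := by rw [hpdef]; group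
  rw [e3] at c3
  have c4 := T.hc (s * g) s
  have u1 := T.ultra (s * g) (p * g) p
  have u2 := T.ultra (s * g) p s
  rw [T.c_comm (s * g) (p * g)] at u1
  simp only [min_def] at u1 u2
  split_ifs at u1 u2 <;> omega

theorem torsionFree (h0 : ∀ g, T.L g = 0 → ∀ n : ℕ, 0 < n → g ^ n = 1 → g = 1)
    (g : H) (n : ℕ) (hn : 0 < n) (hg : g ^ n = 1) : g = 1 := by
  obtain ⟨k, hk | hk⟩ := T.exists_conj g
  · have := h0 _ hk n hn (by rw [conj_pow, hg]; group)
    have e : g = k⁻¹ * (k * g * k⁻¹) * k := by group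
    rw [e, this]; group
  · exfalso
    have h1 := hk.pow T n
    rw [conj_pow, hg, mul_one, mul_inv_cancel, T.L_one] at h1
    have := hk.1
    have : 0 < n * T.L (k * g * k⁻¹) := Nat.mul_pos hn this
    omega

end TreeLength

end Pool.Agent.Helper495.E97
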