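import Mathlib
import Pool.Agent.Helper495.E97.TreeLen

set_option autoImplicit false

namespace Pool.Agent.Helper495.E97

open HNNExtension HNNExtension.NormalWord

section lcp

open Classical in
/-- length of the longest common initial segment -/
noncomputable def lcp {α : Type*} : List α → List α → ℕ
  | x :: r, y :: r' => if x = y then lcp r r' + 1 else 0
  | _, _ => 0

theorem lcp_ultra {α : Type*} : ∀ a b c : List α, min (lcp a b) (lcp b c) ≤ lcp a c
  | [], b, c => by simp [lcp]
  | a :: as, [], c => by simp [lcp]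
  | a :: as, b :: bs, [] => by simp [lcp]
  | a :: as, b :: bs, c :: cs => by
    have ih := lcp_ultra as bs cs
    by_cases h1 : a = b
    · subst h1
      by_cases h2 : a = c
      · subst h2
        simp only [lcp, if_true]
        omega
      · simp [lcp, h2]
    · simp [lcp, h1]

end lcp

variable {G : Type*} [Group G] {A B : Subgroup G} (φ : A ≃* B)

/-- product of a list of syllables `t^u * g` -/
noncomputable def P (l : List (ℤˣ × G)) : HNNExtension G A B φ :=
  (l.map (fun x => (t ^ (x.1 : ℤ) * of x.2 : HNNExtension G A B φ))).prod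

/-- product of a reversed list of syllables -/
noncomputable def Q (r : List (ℤˣ × G)) : HNNExtension G A B φ := P φ r.reverse

variable (A B) in
def R (a b : ℤˣ × G) : Prop := a.2 ∈ toSubgroup A B a.1 → a.1 = b.1

@[simp] theorem P_nil : P φ [] = 1 := by simp [P]

@[simp] theorem P_cons (x : ℤˣ × G) (l) :
    P φ (x :: l) = t ^ (x.1 : ℤ) * of x.2 * P φ l := by simp [P]

@[simp] theorem P_append (l m) : P φ (l ++ m) = P φ l * P φ m := by simp [P]

@[simp] theorem Q_nil : Q φ [] = 1 := by simp [Q]

@[simp] theorem Q_cons (x : ℤˣ × G) (r) :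
    Q φ (x :: r) = Q φ r * (t ^ (x.1 : ℤ) * of x.2) := by simp [Q]

variable (d : TransversalPair G A B)

noncomputable def len (h : HNNExtension G A B φ) : ℕ := (NormalWord.equiv φ d h).toList.length

noncomputable def rl (h : HNNExtension G A B φ) : List (ℤˣ × G) :=
  (NormalWord.equiv φ d h).toList.reverse

theorem len_eq_rl (h : HNNExtension G A B φ) : len φ d h = (rl φ d h).length := by
  simp [len, rl]

theorem len_of_red (g : G) (l : List (ℤˣ × G)) (hl : l.IsChain (R A B)) :
    len φ d (of g * P φ l) = l.length := by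
  let w : ReducedWord G A B := ⟨g, l, hl⟩
  have h1 : (NormalWord.equiv φ d (of g * P φ l)).toReducedWord.prod φ = w.prod φ := by
    have := (NormalWord.equiv φ d).symm_apply_apply (of g * P φ l)
    exact this
  have h2 := (ReducedWord.map_fst_eq_and_of_prod_eq φ h1).1
  have h3 := congrArg List.length h2
  simpa [len] using h3

/-- the list is the reverse of the list of a normal word -/
def Norm (r : List (ℤˣ × G)) : Prop :=
  r.reverse.IsChain (R A B) ∧ ∀ x ∈ r, x.2 ∈ d.set x.1

theorem rl_norm (h : HNNExtension G A B φ) : Norm d (rl φ d h) := by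
  refine ⟨?_, ?_⟩
  · simp only [rl, List.reverse_reverse]
    exact (NormalWord.equiv φ d h).chain
  · rintro ⟨u, g⟩ hx
    simp only [rl, List.mem_reverse] at hx
    exact (NormalWord.equiv φ d h).mem_set u g hx

theorem exists_eq (h : HNNExtension G A B φ) :
    ∃ g : G, h = of g * Q φ (rl φ d h) := by
  refine ⟨(NormalWord.equiv φ d h).head, ?_⟩
  have := (NormalWord.equiv φ d).symm_apply_apply h
  simp only [Q, rl, List.reverse_reverse]
  exact this.symm

theorem rl_of_norm (g : G) (r : List (ℤˣ × G)) (hr : Norm d r) :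
    rl φ d (of g * Q φ r) = r := by
  let w : NormalWord d :=
    { head := g
      toList := r.reverse
      chain := hr.1
      mem_set := fun u g h => hr.2 (u, g) (List.mem_reverse.1 h) }
  have : (NormalWord.equiv φ d) (of g * Q φ r) = w := by
    apply (NormalWord.equiv φ d).symm.injective
    rw [Equiv.symm_apply_apply]
    rfl
  rw [rl, this]
  simp [w]

/-- the head of the inverse word -/
def hd (e : G) : List (ℤˣ × G) → G
  | [] => e
  | x :: _ => x.2⁻¹

/-- the list of the inverse word -/
def invl (e : G) : List (ℤˣ × G) → List (ℤˣ × G)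
  | [] => []
  | x :: r => (-x.1, hd e r) :: invl e r

theorem invl_length (e : G) (r : List (ℤˣ × G)) : (invl e r).length = r.length := by
  induction r with
  | nil => rfl
  | cons x r ih => simp [invl, ih]

theorem hd_nil (e : G) : hd e [] = e := rfl

theorem hd_cons (e : G) (x : ℤˣ × G) (r) : hd e (x :: r) = x.2⁻¹ := rfl

theorem invl_cons (e : G) (x : ℤˣ × G) (r) : invl e (x :: r) = (-x.1, hd e r) :: invl e r := rfl

theorem invl_val (e : G) (r : List (ℤˣ × G)) :
    of (hd e r) * P φ (invl e r) = (Q φ r)⁻¹ * of e := by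
  induction r with
  | nil => simp [hd, invl]
  | cons x r ih =>
    rw [hd_cons, invl_cons, P_cons, Q_cons]
    simp only [mul_inv_rev, Units.val_neg, zpow_neg]
    rw [mul_assoc (t ^ (x.1 : ℤ))⁻¹, ih, map_inv]
    group

theorem R_symm_aux {x y : ℤˣ × G} (e : G) (h : R A B y x) (he : e ∈ toSubgroup A B (-x.1) → y.2 = e⁻¹ ∨ y.2 = e) : 
    e ∈ toSubgroup A B (-x.1) → -x.1 = -y.1 := by
  intro hm
  by_contra hne
  have h1 : y.1 = - x.1 := by
    rcases Int.units_eq_one_or x.1 with h | h <;> rcases Int.units_eq_one_or y.1 with h' | h' <;>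
      simp_all
  have h2 : y.2 ∈ toSubgroup A B y.1 := by
    rw [h1]
    rcases he hm with h | h
    · rw [h]; exact Subgroup.inv_mem _ hm
    · rw [h]; exact hm
  have := h h2
  exact hne (by rw [this])

theorem invl_chain (e : G) (r : List (ℤˣ × G)) (hr : r.reverse.IsChain (R A B)) :
    (invl e r).IsChain (R A B) := by
  rw [List.isChain_reverse] at hr
  induction r with
  | nil => simp [invl]
  | cons x r ih =>
    have hr' := (List.isChain_cons.1 hr).2
    have ih' := ih hr'
    cases r with
    | nil => simp [invl]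
    | cons y r =>
      simp only [invl] at ih' ⊢
      rw [List.isChain_cons]
      refine ⟨?_, ih'⟩
      intro z hz
      simp only [List.head?_cons, Option.mem_def, Option.some.injEq] at hz
      subst hz
      have h1 : R A B y x := (List.isChain_cons.1 hr).1 y (by simp)
      intro hm
      simp only [hd] at hm
      exact R_symm_aux (y.2⁻¹) h1 (fun _ => Or.inl (by simp)) hm

variable {d} in
theorem Norm.tail {x : ℤˣ × G} {r : List (ℤˣ × G)} (h : Norm d (x :: r)) : Norm d r := by
  obtain ⟨h1, h2⟩ := h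
  refine ⟨?_, fun y hy => h2 y (List.mem_cons_of_mem _ hy)⟩
  rw [List.isChain_reverse] at h1 ⊢
  exact (List.isChain_cons.1 h1).2

theorem junction (a b : G) (u v : ℤˣ) (r r' : List (ℤˣ × G)) (a0 e : G)
    (h1 : ((u, a) :: r).reverse.IsChain (R A B))
    (h2 : ((v, b) :: r').reverse.IsChain (R A B))
    (h3 : a * b⁻¹ ∈ toSubgroup A B u → u = -v) :
    len φ d (of a0 * Q φ ((u, a) :: r) * (of e * Q φ ((v, b) :: r'))⁻¹) =
      (r.length + 1) + (r'.length + 1) := by
  have key : of a0 * Q φ ((u, a) :: r) * (of e * Q φ ((v, b) :: r'))⁻¹ =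
      of a0 * P φ (r.reverse ++ (u, a * b⁻¹) :: invl e⁻¹ ((v, b) :: r')) := by
    have e1 := invl_val φ e⁻¹ ((v, b) :: r')
    rw [hd_cons] at e1
    rw [P_append, P_cons, mul_inv_rev, ← map_inv, mul_assoc (of a0) _ _, ← e1, Q_cons]
    simp only [Q, map_mul, map_inv]
    group
  rw [key, len_of_red]
  · simp [invl_length]
    omega
  · rw [List.isChain_append]
    refine ⟨?_, ?_, ?_⟩
    · rw [List.isChain_reverse] at h1 ⊢
      exact (List.isChain_cons.1 h1).2
    · rw [invl_cons, List.isChain_cons]
      refine ⟨?_, ?_⟩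
      · intro z hz
        simp only [List.head?_cons, Option.mem_def, Option.some.injEq] at hz
        subst hz
        exact h3
      · have := invl_chain e⁻¹ ((v, b) :: r') h2
        rwa [invl_cons] at this
    · intro x hx y hy
      simp only [List.head?_cons, Option.mem_def, Option.some.injEq] at hy
      subst hy
      rw [List.isChain_reverse] at h1
      have h4 := (List.isChain_cons.1 h1).1 x (by simpa using hx)
      exact h4

theorem len_formula : ∀ (r r' : List (ℤˣ × G)) (a0 b0 : G), Norm d r → Norm d r' →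
    2 * lcp r r' + len φ d (of a0 * Q φ r * (of b0 * Q φ r')⁻¹) = r.length + r'.length
  | [], r', a0, b0, _, h2 => by
    have e1 := invl_val φ b0⁻¹ r'
    have : of a0 * Q φ [] * (of b0 * Q φ r')⁻¹ =
        of (a0 * hd b0⁻¹ r') * P φ (invl b0⁻¹ r') := by
      rw [map_mul, mul_assoc (of a0) (of _) _, e1]
      simp
    rw [this, len_of_red _ _ _ _ (invl_chain _ _ h2.1), invl_length]
    simp [lcp]
  | (u, a) :: r, [], a0, b0, h1, _ => by
    have : of a0 * Q φ ((u, a) :: r) * (of b0 * Q φ [])⁻¹ =
        of a0 * P φ (r.reverse ++ [(u, a * b0⁻¹)]) := by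
      rw [P_append, P_cons, Q_cons]
      simp only [Q, map_mul, map_inv, P_nil, List.reverse_nil]
      group
    rw [this, len_of_red]
    · simp [lcp]
    · have h3 := h1.1
      rw [List.reverse_cons, List.isChain_append] at h3
      rw [List.isChain_append]
      refine ⟨h3.1, by simp, ?_⟩
      intro x hx y hy
      simp only [List.head?_cons, Option.mem_def, Option.some.injEq] at hy
      subst hy
      exact h3.2.2 x hx (u, a) (by simp)
  | (u, a) :: r, (v, b) :: r', a0, b0, h1, h2 => by
    by_cases hx : (u, a) = (v, b)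
    · have ih := len_formula r r' a0 b0 h1.tail h2.tail
      have : of a0 * Q φ ((u, a) :: r) * (of b0 * Q φ ((v, b) :: r'))⁻¹ =
          of a0 * Q φ r * (of b0 * Q φ r')⁻¹ := by
        rw [← hx, Q_cons, Q_cons]; group
      rw [this]
      simp only [lcp, hx, if_true, List.length_cons]
      omega
    · rw [junction φ d a b u v r r' a0 b0 h1.1 h2.1]
      · simp [lcp, hx]
      · intro hm
        by_contra hne
        have huv : u = v := by
          rcases Int.units_eq_one_or u with h | h <;> rcases Int.units_eq_one_or v with h' | h' <;>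
            simp_all
        subst huv
        apply hx
        have ha := h1.2 (u, a) (by simp)
        have hb := h2.2 (u, b) (by simp)
        have hU := Subgroup.isComplement_iff_existsUnique_mul_inv_mem.1 (d.compl u) a
        have := hU.unique (y₁ := ⟨a, ha⟩) (y₂ := ⟨b, hb⟩) (by simp) (by simpa using hm)
        have hab : a = b := congrArg Subtype.val this
        rw [hab]

theorem split' (g : HNNExtension G A B φ) (hg : 0 < len φ d g) :
    ∃ (q : HNNExtension G A B φ) (u : ℤˣ) (a : G),
      g = q * (t ^ (u : ℤ) * of a) ∧ len φ d q + 1 = len φ d g := by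
  obtain ⟨a0, ha0⟩ := exists_eq φ d g
  have hn := rl_norm φ d g
  rw [len_eq_rl] at hg ⊢
  cases hr : rl φ d g with
  | nil => simp [hr] at hg
  | cons x r =>
    rw [hr] at hn ha0
    refine ⟨of a0 * Q φ r, x.1, x.2, ?_, ?_⟩
    · rw [ha0, Q_cons, mul_assoc]
    · rw [len_eq_rl, rl_of_norm φ d a0 r hn.tail]
      simp

theorem len_syl (u : ℤˣ) (a : G) : len φ d (t ^ (u : ℤ) * of a) = 1 := by
  have := len_of_red φ d 1 [(u, a)] (by simp)
  simpa using this

theorem len_eq_zero_iff (g : HNNExtension G A B φ) : len φ d g = 0 ↔ ∃ a, g = of a := by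
  constructor
  · intro h
    obtain ⟨a0, ha0⟩ := exists_eq φ d g
    rw [len_eq_rl, List.length_eq_zero_iff] at h
    rw [h] at ha0
    exact ⟨a0, by simpa using ha0⟩
  · rintro ⟨a, rfl⟩
    have := len_of_red φ d a [] (by simp)
    simpa using this

theorem pinch (u : ℤˣ) (a g : G)
    (h : len φ d (t ^ (u : ℤ) * of a * of g * (t ^ (u : ℤ) * of a)⁻¹) = 0) :
    a * g * a⁻¹ ∈ toSubgroup A B u := by
  by_contra hne
  have h2 := len_of_red φ d 1 [(u, a * g * a⁻¹), (-u, 1)] (by simp [R, hne])
  have e : (of 1 * P φ [(u, a * g * a⁻¹), (-u, 1)] : HNNExtension G A B φ) =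
      t ^ (u : ℤ) * of a * of g * (t ^ (u : ℤ) * of a)⁻¹ := by
    simp only [P_cons, P_nil, map_mul, map_inv, map_one, Units.val_neg, zpow_neg]
    group
  rw [e, h] at h2
  simp at h2

theorem pinch_eq (u : ℤˣ) (g : G) (h : g ∈ toSubgroup A B u) :
    (t ^ (u : ℤ) * of g * (t ^ (u : ℤ))⁻¹ : HNNExtension G A B φ) =
      of (toSubgroupEquiv φ u ⟨g, h⟩ : G) := by
  rcases Int.units_eq_one_or u with rfl | rfl
  · have h' : g ∈ A := h
    have := equiv_eq_conj (φ := φ) ⟨g, h'⟩
    simp only [Units.val_one, zpow_one]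
    rw [← this]
    rfl
  · have h' : g ∈ B := h
    have := equiv_symm_eq_conj (φ := φ) ⟨g, h'⟩
    simp only [Units.val_neg, Units.val_one, zpow_neg, zpow_one, inv_inv]
    rw [← this]
    rfl

theorem red_two (u₁ u₂ : ℤˣ) (a₁ a₂ : G)
    (h : len φ d (t ^ (u₂ : ℤ) * of a₂ * (t ^ (u₁ : ℤ) * of a₁)) = 2)
    (ha : a₂ ∈ toSubgroup A B u₂) : u₂ = u₁ := by
  by_contra hne
  have hu : u₁ = -u₂ := by
    rcases Int.units_eq_one_or u₁ with h | h <;> rcases Int.units_eq_one_or u₂ with h' | h' <;>
      simp_all
  have h0 : len φ d (t ^ (u₂ : ℤ) * of a₂ * (t ^ (u₁ : ℤ) * of a₁)) = 0 := by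
    rw [len_eq_zero_iff]
    refine ⟨(toSubgroupEquiv φ u₂ ⟨a₂, ha⟩ : G) * a₁, ?_⟩
    rw [map_mul, ← pinch_eq φ u₂ a₂ ha, hu]
    simp only [Units.val_neg, zpow_neg]
    group
  rw [h] at h0
  simp at h0

/-- the tree length function of an HNN extension -/
noncomputable def hnnTree : TreeLength (HNNExtension G A B φ) where
  L := len φ d
  c g h := lcp (rl φ d g) (rl φ d h)
  L_one := by
    rw [len_eq_zero_iff]
    exact ⟨1, by simp⟩
  hc g h := by
    obtain ⟨a0, ha0⟩ := exists_eq φ d g
    obtain ⟨b0, hb0⟩ := exists_eq φ d h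
    have := len_formula φ d (rl φ d g) (rl φ d h) a0 b0 (rl_norm φ d g) (rl_norm φ d h)
    rw [← ha0, ← hb0] at this
    rw [this, len_eq_rl, len_eq_rl]
  ultra g h k := lcp_ultra _ _ _
  split g hg := by
    obtain ⟨q, u, a, h1, h2⟩ := split' φ d g hg
    exact ⟨q, _, h1, len_syl φ d u a, h2⟩
  noinv g hg := by
    obtain ⟨q, u, a, h1, h2⟩ := split' φ d g (by omega)
    have : len φ d q = 0 := by omega
    obtain ⟨a0, rfl⟩ := (len_eq_zero_iff φ d q).1 this
    have h3 := len_of_red φ d a0 [(u, a * a0), (u, a)] (by simp [R])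
    have e : (of a0 * P φ [(u, a * a0), (u, a)] : HNNExtension G A B φ) = g * g := by
      rw [h1]
      simp only [P_cons, P_nil, map_mul]
      group
    rw [e] at h3
    simpa using h3

@[simp] theorem hnnTree_L (g : HNNExtension G A B φ) : (hnnTree φ d).L g = len φ d g := rfl

end Pool.Agent.Helper495.E97
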