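import Mathlib
import Pool.Agent.Helper495.E97.HNNLen

set_option autoImplicit false

namespace Pool.Agent.Helper495.E97

namespace TreeLength

variable {H : Type*} [Group H] (T : TreeLength H)

include T

theorem L_mul_left0 {v : H} (hv : T.L v = 0) (g : H) : T.L (v * g) = T.L g := by
  have h1 := T.L_mul_le v g
  have h2 := T.L_mul_le v⁻¹ (v * g)
  rw [inv_mul_cancel_left, T.L_inv] at h2
  omega

theorem L_mul_right0 {v : H} (hv : T.L v = 0) (g : H) : T.L (g * v) = T.L g := by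
  have h1 := T.L_mul_le g v
  have h2 := T.L_mul_le (g * v) v⁻¹
  rw [mul_inv_cancel_right, T.L_inv] at h2
  omega

theorem c_mul_left0 {v : H} (hv : T.L v = 0) (g h : H) : T.c (v * g) h = T.c g h := by
  have h1 := T.hc (v * g) h
  have h2 := T.hc g h
  rw [T.L_mul_left0 hv, mul_assoc, T.L_mul_left0 hv] at h1
  omega

theorem c_mul_left0' {v : H} (hv : T.L v = 0) (g h : H) : T.c g (v * h) = T.c g h := by
  rw [T.c_comm, T.c_mul_left0 hv, T.c_comm]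

theorem c_mul_right0 {v : H} (hv : T.L v = 0) (g h : H) : T.c (g * v) (h * v) = T.c g h := by
  have h1 := T.hc (g * v) (h * v)
  have h2 := T.hc g h
  rw [T.L_mul_right0 hv, T.L_mul_right0 hv] at h1
  have e : g * v * (h * v)⁻¹ = g * h⁻¹ := by group
  rw [e] at h1
  omega

theorem c_self (g : H) : T.c g g = T.L g := by
  have := T.hc g g
  rw [mul_inv_cancel, T.L_one] at this
  omega

/-- no cancellation -/
theorem add_iff (x y : H) : T.L (x * y) = T.L x + T.L y ↔ T.c x y⁻¹ = 0 := by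
  have := T.hc x y⁻¹
  rw [inv_inv, T.L_inv] at this
  omega

theorem c_mul_self {x y : H} (h : T.c x y⁻¹ = 0) : T.c (x * y) y = T.L y := by
  have h1 := (T.add_iff x y).2 h
  have h2 := T.hc (x * y) y
  rw [mul_inv_cancel_right] at h2
  omega

theorem zero_trans {x y z : H} (h : 0 < T.c x y) (h2 : T.c y z = 0) : T.c x z = 0 := by
  have := T.ultra y x z
  rw [T.c_comm y x, h2] at this
  rcases min_choice (T.c x y) (T.c x z) with h | h <;> omega

theorem pos_trans {x y z : H} (h : 0 < T.c x y) (h2 : 0 < T.c y z) : 0 < T.c x z := by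
  have := T.ultra x y z
  rcases min_choice (T.c x y) (T.c y z) with h | h <;> omega

theorem add_step {x y z : H} (hy : 0 < T.L y) (h : T.c x y⁻¹ = 0) (h2 : T.c y z⁻¹ = 0) :
    T.c (x * y) z⁻¹ = 0 := by
  apply T.zero_trans (y := y) _ h2
  rw [T.c_mul_self h]; exact hy

/-- elements with one-step first edge -/
theorem c_one_iff {x y : H} (hx : T.L x = 1) (hy : T.L y = 1) (h : 0 < T.c x y) :
    T.L (x * y⁻¹) = 0 := by
  have := T.hc x y
  omega

theorem CR.pow_CR {x : H} (hx : T.CR x) {k : ℕ} (hk : 0 < k) : T.CR (x ^ k) := by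
  have h1 := hx.pow T k
  have h2 := hx.pow T (k + k)
  have := hx.1
  refine ⟨?_, ?_⟩
  · rw [h1]; positivity
  · rw [← pow_add, h2, h1]; ring

theorem CR.inv_CR {x : H} (hx : T.CR x) : T.CR x⁻¹ := by
  obtain ⟨h1, h2⟩ := hx
  refine ⟨by rwa [T.L_inv], ?_⟩
  rw [← mul_inv_rev, T.L_inv, T.L_inv, h2]

theorem CR.conj0 {x y : H} (hx : T.CR x) (hy : T.L y = 0) : T.CR (y * x * y⁻¹) := by
  obtain ⟨h1, h2⟩ := hx
  have hy' : T.L y⁻¹ = 0 := by rw [T.L_inv]; exact hy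
  have e1 : T.L (y * x * y⁻¹) = T.L x := by
    rw [T.L_mul_right0 hy', T.L_mul_left0 hy]
  refine ⟨by rwa [e1], ?_⟩
  have e : y * x * y⁻¹ * (y * x * y⁻¹) = y * (x * x) * y⁻¹ := by group
  rw [e, T.L_mul_right0 hy', T.L_mul_left0 hy, e1, h2]

/-- conjugate elements which are cyclically reduced have the same length -/
theorem CR.length_eq {x α β : H} (hα : T.CR α) (hβ : T.CR β) (h : x * α = β * x) :
    T.L α = T.L β := by
  have hpow : ∀ k : ℕ, x * α ^ k * x⁻¹ = β ^ k := by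
    intro k
    have : x * α * x⁻¹ = β := by rw [h]; group
    rw [← this, conj_pow]
  have hpow' : ∀ k : ℕ, x⁻¹ * β ^ k * x = α ^ k := by
    intro k
    rw [← hpow k]; group
  have n1 : ∀ k : ℕ, k * T.L β ≤ 2 * T.L x + k * T.L α := by
    intro k
    have e1 := T.L_mul_le (x * α ^ k) x⁻¹
    have e2 := T.L_mul_le x (α ^ k)
    rw [hpow k, T.L_inv, hβ.pow T] at e1
    rw [hα.pow T] at e2
    omega
  have n2 : ∀ k : ℕ, k * T.L α ≤ 2 * T.L x + k * T.L β := by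
    intro k
    have e1 := T.L_mul_le (x⁻¹ * β ^ k) x
    have e2 := T.L_mul_le x⁻¹ (β ^ k)
    rw [hpow' k, hα.pow T] at e1
    rw [T.L_inv, hβ.pow T] at e2
    omega
  have h1 := n1 (2 * T.L x + 1)
  have h2 := n2 (2 * T.L x + 1)
  rcases lt_trichotomy (T.L α) (T.L β) with hlt | heq | hgt
  · exfalso; nlinarith
  · exact heq
  · exfalso; nlinarith

theorem axis_aux {x X Y : H} (hX : T.CR X) (h : x * X = Y * x) (hY : T.CR Y)
    (hlong : T.L x < T.L X) (h0 : T.c x X⁻¹ = 0) : T.c x X = T.L x := by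
  have hl := hX.length_eq T hY h
  have hXX : T.L (X * X) = 2 * T.L X := hX.2
  have hYY : T.L (Y * Y) = 2 * T.L Y := hY.2
  have hcX : T.c X X⁻¹ = 0 := by
    have := T.hc X X⁻¹
    rw [inv_inv, T.L_inv] at this
    omega
  have e0 : x * X * (x * X⁻¹)⁻¹ = Y * Y := by
    have : x * X * (x * X⁻¹)⁻¹ = (x * X) * X * x⁻¹ := by group
    rw [this, h, mul_assoc Y x X, h]; group
  have a0 := T.hc (x * X) (x * X⁻¹)
  rw [e0, hYY] at a0
  have a1 := T.hc x X⁻¹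
  rw [inv_inv, T.L_inv] at a1
  have a2 := T.hc x X
  have a3 := T.hc (x * X) X
  rw [mul_inv_cancel_right] at a3
  have a4 := T.hc (x * X⁻¹) X⁻¹
  rw [mul_inv_cancel_right, T.L_inv] at a4
  have a5 := T.c_le_left x X
  have u1 := T.ultra X (x * X) X⁻¹
  have u2 := T.ultra (x * X) (x * X⁻¹) X⁻¹
  rw [T.c_comm X (x * X)] at u1
  rw [hcX] at u1
  simp only [min_def] at u1 u2
  split_ifs at u1 u2 <;> omega

/-- conjugators between cyclically reduced elements put the base vertex on the axis -/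
theorem axis {x α β : H} (hα : T.CR α) (hβ : T.CR β) (h : x * α = β * x) :
    ∃ X ∈ Subgroup.zpowers α, T.c x X = T.L x := by
  set N := T.L x + 1 with hN
  have hpow : x * α ^ N = β ^ N * x := by
    have : x * α * x⁻¹ = β := by rw [h]; group
    have h2 : x * α ^ N * x⁻¹ = β ^ N := by rw [← this, conj_pow]
    rw [← h2]; group
  have hαN := hα.pow_CR T (k := N) (by omega)
  have hβN := hβ.pow_CR T (k := N) (by omega)
  have hlen := hα.pow T N
  have hα1 := hα.1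
  have hlong : T.L x < T.L (α ^ N) := by
    rw [hlen]; nlinarith
  have hcX : T.c (α ^ N) (α ^ N)⁻¹ = 0 := hα.c_pow T N
  have u := T.ultra (α ^ N) x (α ^ N)⁻¹
  rw [hcX] at u
  rcases Nat.eq_zero_or_pos (T.c x (α ^ N)⁻¹) with h0 | h0
  · exact ⟨α ^ N, Subgroup.npow_mem_zpowers α N, T.axis_aux hαN hpow hβN hlong h0⟩
  · refine ⟨(α ^ N)⁻¹, Subgroup.inv_mem _ (Subgroup.npow_mem_zpowers α N), ?_⟩
    have h1 : T.c x (α ^ N) = 0 := by
      rw [T.c_comm x (α ^ N)]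
      rcases min_choice (T.c (α ^ N) x) (T.c x (α ^ N)⁻¹) with h | h <;> omega
    apply T.axis_aux (Y := (β ^ N)⁻¹) (hαN.inv_CR T) _ (hβN.inv_CR T)
    · rw [T.L_inv]; exact hlong
    · rw [inv_inv]; exact h1
    · have : (β ^ N)⁻¹ * (β ^ N * x) * (α ^ N)⁻¹ = x * (α ^ N)⁻¹ := by group
      rw [← this, ← hpow]; group

/-- convexity data for a subgroup of a group acting on a tree -/
structure Conv (V X : Subgroup H) (S : Set H) : Prop where
  V0 : ∀ v ∈ V, T.L v = 0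
  VX : V ≤ X
  SX : ∀ s ∈ S, s ∈ X
  S1 : ∀ s ∈ S, T.L s = 1
  ell : ∀ α ∈ X, T.L α = 0 → α ∈ V
  last : ∀ α ∈ X, 0 < T.L α → ∃ s ∈ S, 0 < T.c α s

theorem Conv.drop {V X : Subgroup H} {S : Set H} (hX : T.Conv V X S) {α : H} (hα : α ∈ X)
    (h0 : 0 < T.L α) : ∃ s ∈ S, 0 < T.c α s ∧ α * s⁻¹ ∈ X ∧ T.L (α * s⁻¹) + 1 = T.L α := by
  obtain ⟨s, hs, hc⟩ := hX.last α hα h0
  refine ⟨s, hs, hc, X.mul_mem hα (X.inv_mem (hX.SX s hs)), ?_⟩
  have h1 := hX.S1 s hs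
  have h2 := T.hc α s
  have h3 := T.c_le_right α s
  omega

/-- points on the segment from the base vertex to a point of the orbit of X lie in the orbit -/
theorem Conv.between {V X : Subgroup H} {S : Set H} (hX : T.Conv V X S) {α : H} (hα : α ∈ X)
    (j : ℕ) (hj : j ≤ T.L α) : ∃ σ ∈ X, T.L σ = j ∧ T.L (α * σ⁻¹) + j = T.L α := by
  induction j generalizing α with
  | zero => exact ⟨1, X.one_mem, T.L_one, by simp⟩
  | succ j ih =>
    obtain ⟨s, hs, hc, hm, hl⟩ := hX.drop T hα (by omega)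
    obtain ⟨σ, hσ, h1, h2⟩ := ih hm (by omega)
    refine ⟨σ * s, X.mul_mem hσ (hX.SX s hs), ?_, ?_⟩
    · have e1 := T.L_mul_le σ s
      have e2 := T.L_mul_le (α * s⁻¹ * σ⁻¹) (σ * s)
      have e3 : α * s⁻¹ * σ⁻¹ * (σ * s) = α := by group
      rw [e3] at e2
      have := hX.S1 s hs
      omega
    · have e3 : α * (σ * s)⁻¹ = α * s⁻¹ * σ⁻¹ := by group
      rw [e3]; omega

theorem Conv.exists_conj {V X : Subgroup H} {S : Set H} (hX : T.Conv V X S) {h : H} (hh : h ∈ X) :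
    ∃ k ∈ X, T.L (k * h * k⁻¹) = 0 ∨ T.CR (k * h * k⁻¹) := by
  classical
  have hex : ∃ n, ∃ k ∈ X, T.L (k * h * k⁻¹) = n := ⟨_, 1, X.one_mem, rfl⟩
  obtain ⟨k, hkX, hk⟩ := Nat.find_spec hex
  have hmin : ∀ k' ∈ X, T.L (k * h * k⁻¹) ≤ T.L (k' * h * k'⁻¹) := by
    intro k' hk'
    rw [hk]
    exact Nat.find_min' hex ⟨k', hk', rfl⟩
  refine ⟨k, hkX, ?_⟩
  rcases Nat.eq_zero_or_pos (T.L (k * h * k⁻¹)) with h0 | h0
  · exact Or.inl h0
  right
  refine ⟨h0, ?_⟩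
  have hxX : k * h * k⁻¹ ∈ X := X.mul_mem (X.mul_mem hkX hh) (X.inv_mem hkX)
  set x := k * h * k⁻¹ with hx
  obtain ⟨s, hsS, -, huX, hu⟩ := hX.drop T hxX h0
  have hs := hX.S1 s hsS
  have hsX := hX.SX s hsS
  obtain ⟨u, hus⟩ : ∃ u, u = x * s⁻¹ := ⟨_, rfl⟩
  rw [← hus] at hu
  have hus' : x = u * s := by rw [hus]; group
  have hc0 := T.hc x x⁻¹
  rw [inv_inv, T.L_inv] at hc0
  by_contra hne
  have hcpos : 0 < T.c x x⁻¹ := by omega
  have hn2 : 2 ≤ T.L x := by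
    by_contra hlt
    have h1 : T.L x = 1 := by omega
    have := T.noinv x h1
    omega
  have c1 := T.hc x s
  have e1 : x * s⁻¹ = u := by rw [hus]
  rw [e1] at c1
  have c2 := T.ultra s x x⁻¹
  rw [T.c_comm s x] at c2
  have c3 := T.c_le_left s x⁻¹
  have c4 := T.hc s x⁻¹
  rw [inv_inv, T.L_inv] at c4
  have c5 := T.hc (s * x) s
  have c6 := T.hc (s * x) x
  rw [mul_inv_cancel_right] at c6
  have c7 := T.ultra (s * x) x s
  have hm := hmin (s * k) (X.mul_mem hsX hkX)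
  have e2 : s * k * h * (s * k)⁻¹ = s * x * s⁻¹ := by rw [hx]; group
  rw [e2] at hm
  simp only [min_def] at c2 c7
  split_ifs at c2 c7 <;> omega

theorem not_ell_CR {x α β : H} (hα : T.L α = 0) (hβ : T.CR β) (h : x * α = β * x) : False := by
  have h1 : x * α * x⁻¹ = β := by rw [h]; group
  set N := 2 * T.L x + 1 with hN
  have h2 : x * α ^ N * x⁻¹ = β ^ N := by rw [← h1, conj_pow]
  have h3 : ∀ k : ℕ, T.L (α ^ k) = 0 := by
    intro k
    induction k with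
    | zero => rw [pow_zero]; exact T.L_one
    | succ k ih =>
      have := T.L_mul_le (α ^ k) α
      rw [pow_succ]; omega
  have h4 := T.L_mul_le (x * α ^ N) x⁻¹
  have h5 := T.L_mul_le x (α ^ N)
  rw [h2, T.L_inv, hβ.pow T] at h4
  rw [h3] at h5
  have := hβ.1
  have : N ≤ N * T.L β := Nat.le_mul_of_pos_right N this
  omega

/-- the overlap lemma -/
theorem overlap {V K X Y : Subgroup H} {SX SY : Set H} (hX : T.Conv V X SX) (hY : T.Conv V Y SY)
    (hKX : K ≤ X)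
    (hK : ∀ v ∈ V, v ≠ 1 → ∀ g, g * v * g⁻¹ ∈ V → g ∈ K)
    (LL : ∀ y, T.L y = 0 → ∀ s₁ ∈ SX, ∀ s₂ ∈ SX, ∀ s₁' ∈ SY, ∀ s₂' ∈ SY,
      T.L (s₁ * s₂⁻¹) = 2 → T.L (s₁ * y * s₁'⁻¹) = 0 → T.L (s₂ * y * s₂'⁻¹) = 0 → y ∈ V)
    {x α β : H} (hα : α ∈ X) (hβ : β ∈ Y) (hα1 : α ≠ 1) (h : x * α = β * x) :
    ∃ y ∈ Y, ∃ z ∈ X, x = y * z := by
  obtain ⟨k₁, hk₁, ha⟩ := hX.exists_conj T hα
  obtain ⟨k₂, hk₂, hb⟩ := hY.exists_conj T hβ
  have hα'X : k₁ * α * k₁⁻¹ ∈ X := X.mul_mem (X.mul_mem hk₁ hα) (X.inv_mem hk₁)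
  have hβ'Y : k₂ * β * k₂⁻¹ ∈ Y := Y.mul_mem (Y.mul_mem hk₂ hβ) (Y.inv_mem hk₂)
  have hα'1 : k₁ * α * k₁⁻¹ ≠ 1 := by
    intro h
    apply hα1
    calc α = k₁⁻¹ * (k₁ * α * k₁⁻¹) * k₁ := by group
      _ = 1 := by rw [h]; group
  have h' : (k₂ * x * k₁⁻¹) * (k₁ * α * k₁⁻¹) = (k₂ * β * k₂⁻¹) * (k₂ * x * k₁⁻¹) := by
    calc (k₂ * x * k₁⁻¹) * (k₁ * α * k₁⁻¹) = k₂ * (x * α) * k₁⁻¹ := by group
      _ = (k₂ * β * k₂⁻¹) * (k₂ * x * k₁⁻¹) := by rw [h]; group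
  suffices ∃ y ∈ Y, ∃ z ∈ X, k₂ * x * k₁⁻¹ = y * z by
    obtain ⟨y, hy, z, hz, e⟩ := this
    refine ⟨k₂⁻¹ * y, Y.mul_mem (Y.inv_mem hk₂) hy, z * k₁, X.mul_mem hz hk₁, ?_⟩
    calc x = k₂⁻¹ * (k₂ * x * k₁⁻¹) * k₁ := by group
      _ = _ := by rw [e]; group
  generalize k₁ * α * k₁⁻¹ = α' at *
  generalize k₂ * β * k₂⁻¹ = β' at *
  generalize k₂ * x * k₁⁻¹ = x' at *
  rcases ha with ha | ha
  · have hb0 : T.L β' = 0 := by
      rcases hb with hb | hb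
      · exact hb
      · exact (T.not_ell_CR ha hb h').elim
    have hαV := hX.ell α' hα'X ha
    have hβV := hY.ell β' hβ'Y hb0
    have hxK := hK α' hαV hα'1 x' (by
      have : x' * α' * x'⁻¹ = β' := by rw [h']; group
      rw [this]; exact hβV)
    exact ⟨1, Y.one_mem, x', hKX hxK, by simp⟩
  · have hb' : T.CR β' := by
      rcases hb with hb | hb
      · exact (T.not_ell_CR (x := x'⁻¹) hb ha (by
          calc x'⁻¹ * β' = x'⁻¹ * (β' * x') * x'⁻¹ := by group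
            _ = α' * x'⁻¹ := by rw [← h']; group)).elim
      · exact hb
    obtain ⟨Z, hZ, hcZ⟩ := T.axis ha hb' h'
    have hZX : Z ∈ X := (Subgroup.zpowers_le.2 hα'X) hZ
    have hle : T.L x' ≤ T.L Z := by rw [← hcZ]; exact T.c_le_right x' Z
    obtain ⟨σ, hσX, hσ, hσ2⟩ := hX.between T hZX (T.L x') hle
    have hcσ : T.c Z σ = T.L x' := by
      have := T.hc Z σ
      omega
    have hxσ : T.L (x' * σ⁻¹) = 0 := by
      have u := T.ultra x' Z σ
      rw [hcZ, hcσ, min_self] at u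
      have := T.hc x' σ
      omega
    -- reduce to y
    set y := x' * σ⁻¹ with hy
    have hα''X : σ * α' * σ⁻¹ ∈ X := X.mul_mem (X.mul_mem hσX hα'X) (X.inv_mem hσX)
    have h'' : y * (σ * α' * σ⁻¹) * y⁻¹ = β' := by
      calc y * (σ * α' * σ⁻¹) * y⁻¹ = (x' * α') * x'⁻¹ := by rw [hy]; group
        _ = β' := by rw [h']; group
    have hCR : T.CR (σ * α' * σ⁻¹) := by
      have e : σ * α' * σ⁻¹ = y⁻¹ * β' * y⁻¹⁻¹ := by rw [← h'']; group
      rw [e]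
      exact hb'.conj0 T (by rw [T.L_inv]; exact hxσ)
    generalize σ * α' * σ⁻¹ = α'' at *
    have hc0 : T.c α'' α''⁻¹ = 0 := by
      have h1 := hCR.2
      have := T.hc α'' α''⁻¹
      rw [inv_inv, T.L_inv] at this
      omega
    have hyinv : T.L y⁻¹ = 0 := by rw [T.L_inv]; exact hxσ
    obtain ⟨s₁, hs₁, hc₁⟩ := hX.last α'' hα''X hCR.1
    obtain ⟨s₂, hs₂, hc₂⟩ := hX.last α''⁻¹ (X.inv_mem hα''X) (by rw [T.L_inv]; exact hCR.1)
    obtain ⟨s₁', hs₁', hc₁'⟩ := hY.last β' hβ'Y hb'.1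
    obtain ⟨s₂', hs₂', hc₂'⟩ := hY.last β'⁻¹ (Y.inv_mem hβ'Y) (by rw [T.L_inv]; exact hb'.1)
    have hL1 := hX.S1 s₁ hs₁
    have hL2 := hX.S1 s₂ hs₂
    have hs12 : T.L (s₁ * s₂⁻¹) = 2 := by
      have a1 : T.c s₁ α''⁻¹ = 0 := T.zero_trans (y := α'') (by rw [T.c_comm]; exact hc₁) hc0
      have a2 : T.c s₁ s₂ = 0 := by
        rw [T.c_comm]
        apply T.zero_trans (y := α''⁻¹)
        · rw [T.c_comm]; exact hc₂
        · rw [T.c_comm]; exact a1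
      have := T.hc s₁ s₂
      omega
    have key : ∀ (γ δ s s' : H), y * γ * y⁻¹ = δ → T.L s = 1 → T.L s' = 1 → 0 < T.c γ s →
        0 < T.c δ s' → T.L (s * y⁻¹ * s'⁻¹) = 0 := by
      intro γ δ s s' hγδ hs hs' h1 h2
      have b1 : T.c (γ * y⁻¹) (s * y⁻¹) = T.c γ s := T.c_mul_right0 hyinv _ _
      have b2 : T.c δ (s * y⁻¹) = T.c γ s := by
        rw [← hγδ, mul_assoc, T.c_mul_left0 hxσ, b1]
      have b3 : 0 < T.c (s * y⁻¹) s' := by
        apply T.pos_trans (y := δ) _ h2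
        rw [T.c_comm, b2]; exact h1
      apply T.c_one_iff _ hs' b3
      rw [T.L_mul_right0 hyinv, hs]
    have k1 := key α'' β' s₁ s₁' h'' hL1 (hY.S1 s₁' hs₁') hc₁ hc₁'
    have k2 := key α''⁻¹ β'⁻¹ s₂ s₂' (by rw [← h'']; group) hL2 (hY.S1 s₂' hs₂') hc₂ hc₂'
    have hyV := LL y⁻¹ hyinv s₁ hs₁ s₂ hs₂ s₁' hs₁' s₂' hs₂' hs12 k1 k2
    refine ⟨1, Y.one_mem, y * σ, X.mul_mem (hX.VX ?_) hσX, ?_⟩
    · exact (Subgroup.inv_mem_iff _).1 hyV
    · rw [hy]; group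

theorem inter {V K X Y : Subgroup H} {SX SY : Set H} (hX : T.Conv V X SX) (hY : T.Conv V Y SY)
    (hVK : V ≤ K) (hKY : K ≤ Y)
    (hS : ∀ s ∈ SX, ∀ s' ∈ SY, T.L (s * s'⁻¹) = 0 → s ∈ K) :
    ∀ α ∈ X, α ∈ Y → α ∈ K := by
  have main : ∀ n : ℕ, ∀ α ∈ X, α ∈ Y → T.L α = n → α ∈ K := by
    intro n
    induction n using Nat.strong_induction_on with
    | _ n ih =>
      intro α hαX hαY hn
      rcases Nat.eq_zero_or_pos (T.L α) with h0 | h0
      · exact hVK (hX.ell α hαX h0)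
      · obtain ⟨s, hs, hc, hm, hl⟩ := hX.drop T hαX h0
        obtain ⟨s', hs', hc'⟩ := hY.last α hαY h0
        have h1 : T.L (s * s'⁻¹) = 0 := by
          apply T.c_one_iff (hX.S1 s hs) (hY.S1 s' hs')
          apply T.pos_trans (y := α) _ hc'
          rw [T.c_comm]; exact hc
        have hsK := hS s hs s' hs' h1
        have := ih (T.L (α * s⁻¹)) (by omega) (α * s⁻¹) hm
          (Y.mul_mem hαY (Y.inv_mem (hKY hsK))) rfl
        have h2 := K.mul_mem this hsK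
        rwa [inv_mul_cancel_right] at h2
  intro α h1 h2
  exact main _ α h1 h2 rfl

end TreeLength

end Pool.Agent.Helper495.E97
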