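import Mathlib
import Pool.Agent.Helper495.E97.Tree2

set_option autoImplicit false

namespace Pool.Agent.Helper495.E97

variable {H : Type*} [Group H]

/-- a system of paired letters -/
structure PSys (T : TreeLength H) (V : Subgroup H) (S : Set (H × H)) : Prop where
  V0 : ∀ v ∈ V, T.L v = 0
  L1 : ∀ s ∈ S, T.L s.1 = 1 ∧ T.L s.2 = 1
  mulV : ∀ s ∈ S, ∀ v ∈ V, (s.1 * v, s.2 * v) ∈ S
  inv : ∀ s ∈ S, (s.1⁻¹, s.2⁻¹) ∈ S
  dich : ∀ s ∈ S, ∀ s' ∈ S, (T.L (s.1 * s'.1) = 2 ∧ T.L (s.2 * s'.2) = 2) ∨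
    ∃ v ∈ V, s.1 * s'.1 = v ∧ s.2 * s'.2 = v

/-- reduced products of paired letters, with the last letter recorded -/
inductive Ch (T : TreeLength H) (V : Subgroup H) (S : Set (H × H)) : H × H → H × H → Prop
  | one (v : H) (hv : v ∈ V) (s : H × H) (hs : s ∈ S) : Ch T V S (v * s.1, v * s.2) s
  | snoc (α s s' : H × H) (h : Ch T V S α s) (hs : s' ∈ S) (h1 : T.L (s.1 * s'.1) = 2)
      (h2 : T.L (s.2 * s'.2) = 2) : Ch T V S (α.1 * s'.1, α.2 * s'.2) s'

variable {T : TreeLength H} {V : Subgroup H} {S : Set (H × H)}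

theorem Ch.mem (hS : PSys T V S) {α s : H × H} (h : Ch T V S α s) : s ∈ S := by
  cases h with
  | one v hv s hs => exact hs
  | snoc α s s' h hs h1 h2 => exact hs

theorem Ch.props (hS : PSys T V S) {α s : H × H} (h : Ch T V S α s) :
    T.L α.1 = T.L α.2 ∧ 0 < T.c α.1 s.1 ∧ 0 < T.c α.2 s.2 := by
  induction h with
  | one v hv s hs =>
    have h0 := hS.V0 v hv
    have h1 := hS.L1 s hs
    refine ⟨?_, ?_, ?_⟩
    · simp only
      rw [T.L_mul_left0 h0, T.L_mul_left0 h0, h1.1, h1.2]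
    · simp only
      rw [T.c_mul_left0 h0, T.c_self, h1.1]; norm_num
    · simp only
      rw [T.c_mul_left0 h0, T.c_self, h1.2]; norm_num
  | snoc α s s' h hs h1 h2 ih =>
    obtain ⟨i1, i2, i3⟩ := ih
    have hs1 := hS.L1 s (h.mem hS)
    have hs2 := hS.L1 s' hs
    have k1 : T.c α.1 s'.1⁻¹ = 0 := by
      apply T.zero_trans i2
      rw [← T.add_iff]; omega
    have k2 : T.c α.2 s'.2⁻¹ = 0 := by
      apply T.zero_trans i3
      rw [← T.add_iff]; omega
    refine ⟨?_, ?_, ?_⟩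
    · simp only
      rw [(T.add_iff _ _).2 k1, (T.add_iff _ _).2 k2, i1, hs2.1, hs2.2]
    · simp only
      rw [T.c_mul_self k1, hs2.1]; norm_num
    · simp only
      rw [T.c_mul_self k2, hs2.2]; norm_num

theorem Ch.mulV (hS : PSys T V S) {α s : H × H} (h : Ch T V S α s) {v : H} (hv : v ∈ V) :
    Ch T V S (α.1 * v, α.2 * v) (s.1 * v, s.2 * v) := by
  cases h with
  | one w hw s hs =>
    have := Ch.one (T := T) w hw _ (hS.mulV s hs v hv)
    simpa [mul_assoc] using this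
  | snoc α s₀ _ h hs h1 h2 =>
    have h0 := hS.V0 v hv
    have := Ch.snoc (T := T) (V := V) α s₀ _ h (hS.mulV s hs v hv)
      (by simp only; rw [← mul_assoc, T.L_mul_right0 h0, h1])
      (by simp only; rw [← mul_assoc, T.L_mul_right0 h0, h2])
    simpa [mul_assoc] using this

/-- the group generated by the letters -/
def DD (V : Subgroup H) (S : Set (H × H)) : Subgroup (H × H) :=
  Subgroup.closure ({p | ∃ v ∈ V, p = (v, v)} ∪ S)

theorem mem_DD (hS : PSys T V S) {α : H × H} (h : α ∈ DD V S) :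
    (∃ v ∈ V, α = (v, v)) ∨ ∃ s, Ch T V S α s := by
  have key : ∀ (α s : H × H), ((∃ v ∈ V, α = (v, v)) ∨ ∃ s, Ch T V S α s) → s ∈ S →
      ((∃ v ∈ V, α * s = (v, v)) ∨ ∃ s', Ch T V S (α * s) s') := by
    rintro α s' h hs'
    rcases h with ⟨v, hv, rfl⟩ | ⟨s, h⟩
    · exact Or.inr ⟨s', Ch.one v hv s' hs'⟩
    · rcases hS.dich s (h.mem hS) s' hs' with ⟨h1, h2⟩ | ⟨v, hv, h1, h2⟩
      · exact Or.inr ⟨s', Ch.snoc α s s' h hs' h1 h2⟩
      · cases h with
        | one w hw s hs =>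
          left
          refine ⟨w * v, V.mul_mem hw hv, ?_⟩
          ext
          · simp only [Prod.fst_mul]; rw [mul_assoc, h1]
          · simp only [Prod.snd_mul]; rw [mul_assoc, h2]
        | snoc α s₀ _ h hs k1 k2 =>
          right
          refine ⟨(s₀.1 * v, s₀.2 * v), ?_⟩
          have := h.mulV hS hv
          have e : ((α.1 * s.1, α.2 * s.2) : H × H) * s' = (α.1 * v, α.2 * v) := by
            ext
            · simp only [Prod.fst_mul]; rw [mul_assoc, h1]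
            · simp only [Prod.snd_mul]; rw [mul_assoc, h2]
          rw [e]
          exact this
  have keyV : ∀ (α : H × H) (v : H), ((∃ v ∈ V, α = (v, v)) ∨ ∃ s, Ch T V S α s) → v ∈ V →
      ((∃ w ∈ V, α * (v, v) = (w, w)) ∨ ∃ s', Ch T V S (α * (v, v)) s') := by
    rintro α v h hv
    rcases h with ⟨w, hw, rfl⟩ | ⟨s, h⟩
    · exact Or.inl ⟨w * v, V.mul_mem hw hv, rfl⟩
    · exact Or.inr ⟨_, h.mulV hS hv⟩
  refine Subgroup.closure_induction_right (p := fun α _ => (∃ v ∈ V, α = (v, v)) ∨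
    ∃ s, Ch T V S α s) (Or.inl ⟨1, V.one_mem, rfl⟩) ?_ ?_ h
  · intro α _ s hs hα
    rcases hs with ⟨v, hv, rfl⟩ | hs
    · exact keyV α v hα hv
    · exact key α s hα hs
  · intro α _ s hs hα
    rcases hs with ⟨v, hv, rfl⟩ | hs
    · exact keyV α v⁻¹ hα (V.inv_mem hv)
    · exact key α _ hα (hS.inv s hs)

theorem V_DD {v : H} (hv : v ∈ V) : (v, v) ∈ DD V S :=
  Subgroup.subset_closure (Or.inl ⟨v, hv, rfl⟩)

theorem S_DD {s : H × H} (hs : s ∈ S) : s ∈ DD V S :=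
  Subgroup.subset_closure (Or.inr hs)

theorem Ch.pos (hS : PSys T V S) {α s : H × H} (h : Ch T V S α s) :
    0 < T.L α.1 ∧ 0 < T.L α.2 := by
  obtain ⟨h0, h1, h2⟩ := h.props hS
  have := T.c_le_left α.1 s.1
  omega

/-- first and second coordinates -/
def D1 (V : Subgroup H) (S : Set (H × H)) : DD V S →* H :=
  (MonoidHom.fst H H).comp (DD V S).subtype

def D2 (V : Subgroup H) (S : Set (H × H)) : DD V S →* H :=
  (MonoidHom.snd H H).comp (DD V S).subtype

theorem D1_inj (hS : PSys T V S) : Function.Injective (D1 V S) := by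
  rw [injective_iff_map_eq_one]
  rintro ⟨α, hα⟩ h
  have h' : α.1 = 1 := h
  rcases mem_DD hS hα with ⟨v, hv, rfl⟩ | ⟨s, hs⟩
  · simp only at h'
    subst h'
    rfl
  · have := (hs.pos hS).1
    rw [h', T.L_one] at this
    omega

theorem D2_inj (hS : PSys T V S) : Function.Injective (D2 V S) := by
  rw [injective_iff_map_eq_one]
  rintro ⟨α, hα⟩ h
  have h' : α.2 = 1 := h
  rcases mem_DD hS hα with ⟨v, hv, rfl⟩ | ⟨s, hs⟩
  · simp only at h'
    subst h'
    rfl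
  · have := (hs.pos hS).2
    rw [h', T.L_one] at this
    omega

/-- the isomorphism between the two coordinate groups -/
noncomputable def DDiso (hS : PSys T V S) : (D1 V S).range ≃* (D2 V S).range :=
  (MonoidHom.ofInjective (D1_inj hS)).symm.trans (MonoidHom.ofInjective (D2_inj hS))

theorem mem_D1 {x : H} : x ∈ (D1 V S).range ↔ ∃ y, (x, y) ∈ DD V S := by
  constructor
  · rintro ⟨⟨α, hα⟩, rfl⟩
    exact ⟨α.2, hα⟩
  · rintro ⟨y, hy⟩
    exact ⟨⟨_, hy⟩, rfl⟩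

theorem mem_D2 {x : H} : x ∈ (D2 V S).range ↔ ∃ y, (y, x) ∈ DD V S := by
  constructor
  · rintro ⟨⟨α, hα⟩, rfl⟩
    exact ⟨α.1, hα⟩
  · rintro ⟨y, hy⟩
    exact ⟨⟨_, hy⟩, rfl⟩

theorem DDiso_apply (hS : PSys T V S) {x y : H} (h : (x, y) ∈ DD V S)
    (hx : x ∈ (D1 V S).range) : (DDiso hS ⟨x, hx⟩ : H) = y := by
  have h1 : MonoidHom.ofInjective (D1_inj hS) ⟨(x, y), h⟩ = ⟨x, hx⟩ := by
    apply Subtype.ext
    exact MonoidHom.ofInjective_apply (D1_inj hS)
  have h2 : DDiso hS ⟨x, hx⟩ = MonoidHom.ofInjective (D2_inj hS) ⟨(x, y), h⟩ := by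
    change (MonoidHom.ofInjective (D2_inj hS)) ((MonoidHom.ofInjective (D1_inj hS)).symm ⟨x, hx⟩) = _
    rw [← h1, MulEquiv.symm_apply_apply]
  rw [h2]
  exact MonoidHom.ofInjective_apply (D2_inj hS)

theorem conv1 (hS : PSys T V S) :
    T.Conv V (D1 V S).range {s | ∃ s', (s, s') ∈ S} where
  V0 := hS.V0
  VX := fun v hv => mem_D1.2 ⟨v, V_DD hv⟩
  SX := fun s ⟨s', hs⟩ => mem_D1.2 ⟨s', S_DD hs⟩
  S1 := fun s ⟨s', hs⟩ => (hS.L1 _ hs).1
  ell := fun α hα h0 => by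
    obtain ⟨β, h⟩ := mem_D1.1 hα
    rcases mem_DD hS h with ⟨v, hv, e⟩ | ⟨s, hs⟩
    · have h1 : α = v := congrArg Prod.fst e
      rw [h1]; exact hv
    · have := (hs.pos hS).1
      simp only at this
      omega
  last := fun α hα h0 => by
    obtain ⟨β, h⟩ := mem_D1.1 hα
    rcases mem_DD hS h with ⟨v, hv, e⟩ | ⟨s, hs⟩
    · have h1 : α = v := congrArg Prod.fst e
      have := hS.V0 v hv
      rw [h1] at h0
      omega
    · exact ⟨s.1, ⟨s.2, hs.mem hS⟩, (hs.props hS).2.1⟩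

theorem conv2 (hS : PSys T V S) :
    T.Conv V (D2 V S).range {s | ∃ s', (s', s) ∈ S} where
  V0 := hS.V0
  VX := fun v hv => mem_D2.2 ⟨v, V_DD hv⟩
  SX := fun s ⟨s', hs⟩ => mem_D2.2 ⟨s', S_DD hs⟩
  S1 := fun s ⟨s', hs⟩ => (hS.L1 _ hs).2
  ell := fun α hα h0 => by
    obtain ⟨β, h⟩ := mem_D2.1 hα
    rcases mem_DD hS h with ⟨v, hv, e⟩ | ⟨s, hs⟩
    · have h1 : α = v := congrArg Prod.snd e
      rw [h1]; exact hv
    · have := (hs.pos hS).2
      simp only at this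
      omega
  last := fun α hα h0 => by
    obtain ⟨β, h⟩ := mem_D2.1 hα
    rcases mem_DD hS h with ⟨v, hv, e⟩ | ⟨s, hs⟩
    · have h1 : α = v := congrArg Prod.snd e
      have := hS.V0 v hv
      rw [h1] at h0
      omega
    · exact ⟨s.2, ⟨s.1, hs.mem hS⟩, (hs.props hS).2.2⟩

end Pool.Agent.Helper495.E97
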