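import Mathlib
import Pool.Agent.Helper495.E97.Tree2

set_option autoImplicit false

namespace Pool.Agent.Helper495.E97

open HNNExtension HNNExtension.NormalWord

section basic

variable {G : Type*} [Group G]

/-- conjugate into V -/
def CV (V : Subgroup G) (x : G) : Prop := ∃ g, g * x * g⁻¹ ∈ V

/-- malnormality -/
def Mal (A : Subgroup G) : Prop := ∀ g ∈ A, g ≠ 1 → ∀ a, a * g * a⁻¹ ∈ A → a ∈ A

def MalP (x : G) : Prop := ∀ y g : G, Commute y x → y ≠ 1 → Commute (g * y * g⁻¹) x → Commute g x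

def CycP (x : G) : Prop := ∃ z, Commute z x ∧ ∀ y, Commute y x → y ∈ Subgroup.zpowers z

/-- the class of pairs (G,V) used in the tower -/
structure Good (V : Subgroup G) : Prop where
  tf : ∀ (g : G) (n : ℕ), 0 < n → g ^ n = 1 → g = 1
  comm : ∀ x ∈ V, ∀ y ∈ V, x * y = y * x
  mal : Mal V
  ne_bot : ∃ v ∈ V, v ≠ 1
  malp : ∀ x, ¬ CV V x → MalP x
  cyc : ∀ x, ¬ CV V x → CycP x

theorem CV.conj {V : Subgroup G} {x : G} (k : G) (h : CV V (k * x * k⁻¹)) : CV V x := by
  obtain ⟨g, hg⟩ := h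
  refine ⟨g * k, ?_⟩
  have e : g * k * x * (g * k)⁻¹ = g * (k * x * k⁻¹) * g⁻¹ := by group
  rwa [e]

theorem CV.conj' {V : Subgroup G} {x : G} (k : G) (h : CV V x) : CV V (k * x * k⁻¹) := by
  apply CV.conj k⁻¹
  have : k⁻¹ * (k * x * k⁻¹) * k⁻¹⁻¹ = x := by group
  rwa [this]

theorem CV_of_mem {V : Subgroup G} {x : G} (h : x ∈ V) : CV V x := ⟨1, by simpa using h⟩

theorem CV_one {V : Subgroup G} : CV V (1 : G) := CV_of_mem V.one_mem

theorem conj_ne_one {x : G} (hx : x ≠ 1) (k : G) : k * x * k⁻¹ ≠ 1 := by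
  intro h
  apply hx
  calc x = k⁻¹ * (k * x * k⁻¹) * k := by group
    _ = 1 := by rw [h]; group

theorem Mal.cent {V : Subgroup G} (hV : Mal V) {v y : G} (hv : v ∈ V) (hv1 : v ≠ 1)
    (h : Commute y v) : y ∈ V := by
  apply hV v hv hv1 y
  rw [h.eq, mul_inv_cancel_right]; exact hv

/-- if a nontrivial element commuting with x is conjugate into V then so is x -/
theorem CV.of_commute {V : Subgroup G} (hV : Mal V) {x y : G} (hy1 : y ≠ 1) (hy : CV V y)
    (h : Commute y x) : CV V x := by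
  obtain ⟨k, hk⟩ := hy
  refine ⟨k, hV.cent hk (conj_ne_one hy1 k) ?_⟩
  exact (Commute.conj_iff k).2 h.symm

theorem MalP.conj {x : G} (k : G) (h : MalP (k * x * k⁻¹)) : MalP x := by
  intro y g hy hy1 hg
  have h1 : Commute (k * y * k⁻¹) (k * x * k⁻¹) := (Commute.conj_iff k).2 hy
  have h2 : k * y * k⁻¹ ≠ 1 := conj_ne_one hy1 k
  have h3 : Commute ((k * g * k⁻¹) * (k * y * k⁻¹) * (k * g * k⁻¹)⁻¹) (k * x * k⁻¹) := by
    have e : (k * g * k⁻¹) * (k * y * k⁻¹) * (k * g * k⁻¹)⁻¹ = k * (g * y * g⁻¹) * k⁻¹ := by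
      group
    rw [e]
    exact (Commute.conj_iff k).2 hg
  exact (Commute.conj_iff k).1 (h _ _ h1 h2 h3)

theorem CycP.conj {x : G} (k : G) (h : CycP (k * x * k⁻¹)) : CycP x := by
  obtain ⟨z, hz, hz2⟩ := h
  refine ⟨k⁻¹ * z * k, ?_, ?_⟩
  · have e : k * (k⁻¹ * z * k) * k⁻¹ = z := by group
    apply (Commute.conj_iff k).1
    rwa [e]
  · intro y hy
    obtain ⟨n, hn⟩ := Subgroup.mem_zpowers_iff.1 (hz2 (k * y * k⁻¹) ((Commute.conj_iff k).2 hy))
    refine Subgroup.mem_zpowers_iff.2 ⟨n, ?_⟩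
    have e : (k⁻¹ * z * k) ^ n = k⁻¹ * z ^ n * k := by
      have := conj_zpow (i := n) (a := k⁻¹) (b := z)
      rwa [inv_inv] at this
    rw [e, hn]; group

end basic

section hnn

variable {G : Type*} [Group G] {A B : Subgroup G} (φ : A ≃* B)

theorem hnn_tf (htf : ∀ (g : G) (n : ℕ), 0 < n → g ^ n = 1 → g = 1)
    (g : HNNExtension G A B φ) (n : ℕ) (hn : 0 < n) (hg : g ^ n = 1) : g = 1 := by
  obtain ⟨d⟩ := TransversalPair.nonempty G A B
  apply (hnnTree φ d).torsionFree _ g n hn hg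
  intro g hg n hn hgn
  obtain ⟨a, rfl⟩ := (len_eq_zero_iff _ _ _).1 hg
  rw [← map_pow] at hgn
  have := of_injective φ (hgn.trans (map_one _).symm)
  rw [htf a n hn this, map_one]

theorem of_ne_one {g : G} (hg : g ≠ 1) : (of g : HNNExtension G A B φ) ≠ 1 := by
  intro h
  exact hg (of_injective φ (h.trans (map_one _).symm))

variable (d : TransversalPair G A B)

/-- an element of the vertex group fixing the endpoint of a nontrivial path -/
theorem peel (p : HNNExtension G A B φ) (g : G) (hp : 0 < len φ d p)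
    (h : len φ d (p * of g * p⁻¹) = 0) :
    ∃ (q : HNNExtension G A B φ) (u : ℤˣ) (a : G) (hm : a * g * a⁻¹ ∈ toSubgroup A B u),
      p = q * (t ^ (u : ℤ) * of a) ∧
      len φ d q + 1 = len φ d p ∧
      p * of g * p⁻¹ =
        q * of (toSubgroupEquiv φ u ⟨a * g * a⁻¹, hm⟩ : G) * q⁻¹ := by
  obtain ⟨q, u, a, h1, h2⟩ := split' φ d p hp
  have h3 := (hnnTree φ d).fix_aux (q := q) (s := t ^ (u : ℤ) * of a) (g := of g)
    (len_syl _ _ _ _) (by rw [← h1]; exact h2.symm) ((len_eq_zero_iff _ _ _).2 ⟨g, rfl⟩)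
    (by rw [← h1]; exact h)
  have h4 := pinch φ d u a g h3
  refine ⟨q, u, a, h4, h1, h2, ?_⟩
  rw [← pinch_eq φ u _ h4, h1]
  simp only [map_mul, map_inv]
  group

theorem toSubgroupEquiv_ne_one {u : ℤˣ} {g : G} (hm : g ∈ toSubgroup A B u) (hg : g ≠ 1) :
    (toSubgroupEquiv φ u ⟨g, hm⟩ : G) ≠ 1 := by
  intro h
  apply hg
  have h1 : toSubgroupEquiv φ u ⟨g, hm⟩ = 1 := Subtype.ext h
  have h2 := (toSubgroupEquiv φ u).injective (h1.trans (map_one _).symm)
  exact congrArg Subtype.val h2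

/-- two steps -/
theorem peel2 (p : HNNExtension G A B φ) (g : G) (hp : 2 ≤ len φ d p) (hg : g ≠ 1)
    (h : len φ d (p * of g * p⁻¹) = 0) :
    ∃ (q : HNNExtension G A B φ) (u₁ u₂ : ℤˣ) (a₁ a₂ g₁ : G)
      (hm : a₁ * g * a₁⁻¹ ∈ toSubgroup A B u₁),
      p = q * (t ^ (u₂ : ℤ) * of a₂) * (t ^ (u₁ : ℤ) * of a₁) ∧ len φ d q + 2 = len φ d p ∧
      g₁ = (toSubgroupEquiv φ u₁ ⟨a₁ * g * a₁⁻¹, hm⟩ : G) ∧ g₁ ≠ 1 ∧
      g₁ ∈ toSubgroup A B (-u₁) ∧ a₂ * g₁ * a₂⁻¹ ∈ toSubgroup A B u₂ ∧
      (a₂ ∈ toSubgroup A B u₂ → u₂ = u₁) ∧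
      ∃ hm₂ : a₂ * g₁ * a₂⁻¹ ∈ toSubgroup A B u₂,
       p * of g * p⁻¹ = q * of (toSubgroupEquiv φ u₂ ⟨a₂ * g₁ * a₂⁻¹, hm₂⟩ : G) * q⁻¹ := by
  obtain ⟨q₁, u₁, a₁, hm, h1, h2, h3⟩ := peel φ d p g (by omega) h
  set g₁ := (toSubgroupEquiv φ u₁ ⟨a₁ * g * a₁⁻¹, hm⟩ : G) with hg₁
  rw [h3] at h
  obtain ⟨q, u₂, a₂, hm₂, h4, h5, h6⟩ := peel φ d q₁ g₁ (by omega) h
  refine ⟨q, u₁, u₂, a₁, a₂, g₁, hm, ?_, by omega, hg₁,
    toSubgroupEquiv_ne_one φ hm (conj_ne_one hg a₁), ?_, hm₂, ?_, hm₂, ?_⟩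
  · rw [h1, h4]
  · exact (toSubgroupEquiv φ u₁ ⟨a₁ * g * a₁⁻¹, hm⟩).2
  · intro ha
    apply red_two φ d u₁ u₂ a₁ a₂ _ ha
    have e1 := (hnnTree φ d).L_mul_le q (t ^ (u₂ : ℤ) * of a₂ * (t ^ (u₁ : ℤ) * of a₁))
    have e2 := (hnnTree φ d).L_mul_le (t ^ (u₂ : ℤ) * of a₂) (t ^ (u₁ : ℤ) * of a₁)
    simp only [hnnTree_L] at e1 e2
    rw [len_syl, len_syl] at e2
    rw [← mul_assoc, ← h4, ← h1] at e1
    omega
  · rw [h3, h6]

theorem hnn_G3 {V : Subgroup G} (hG : Good V) (V' : Subgroup (HNNExtension G A B φ))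
    (hVV : ∀ v ∈ V, of v ∈ V') (hmal : Mal V')
    (H1 : ∀ g : G, g ≠ 1 → ∀ p, 2 ≤ len φ d p → len φ d (p * of g * p⁻¹) = 0 → CV V' (of g))
    (H2 : ∀ u : ℤˣ, Mal (toSubgroup A B u) ∨ (∀ g ∈ toSubgroup A B u, CV V' (of g)))
    (x : HNNExtension G A B φ) (hx : ¬ CV V' x) : MalP x ∧ CycP x := by
  have htf := hnn_tf φ hG.tf
  obtain ⟨k, hk⟩ := (hnnTree φ d).exists_conj x
  suffices MalP (k * x * k⁻¹) ∧ CycP (k * x * k⁻¹) from ⟨this.1.conj k, this.2.conj k⟩
  have hx' : ¬ CV V' (k * x * k⁻¹) := fun h => hx (h.conj k)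
  generalize k * x * k⁻¹ = x₁ at hk hx'
  clear hx
  rcases hk with hk | hk
  · obtain ⟨x₁, rfl⟩ := (len_eq_zero_iff _ _ _).1 hk
    have hx1 : x₁ ≠ 1 := by
      rintro rfl
      apply hx'
      rw [map_one]
      exact CV_one
    have n2 : ¬ CV V x₁ := by
      rintro ⟨g, hg⟩
      apply hx'
      refine ⟨of g, ?_⟩
      rw [← map_inv, ← map_mul, ← map_mul]
      exact hVV _ hg
    -- the centralizer
    have hcent : ∀ y : HNNExtension G A B φ, Commute y (of x₁) →
        ∃ y₁, y = of y₁ ∧ Commute y₁ x₁ := by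
      intro y hy
      have h0 : len φ d y = 0 := by
        rcases Nat.lt_or_ge 1 (len φ d y) with h | h
        · exfalso
          apply hx'
          apply H1 x₁ hx1 y h
          rw [hy.eq, mul_inv_cancel_right]
          exact hk
        · by_contra h0
          have h1 : (hnnTree φ d).L y = 1 := by simp only [hnnTree_L]; omega
          have h2 := (hnnTree φ d).noinv y h1
          simp only [hnnTree_L] at h2
          apply hx'
          apply H1 x₁ hx1 (y * y) (by omega)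
          have : Commute (y * y) (of x₁) := hy.mul_left hy
          rw [this.eq, mul_inv_cancel_right]
          exact hk
      obtain ⟨y₁, rfl⟩ := (len_eq_zero_iff _ _ _).1 h0
      refine ⟨y₁, rfl, ?_⟩
      have := hy.eq
      rw [← map_mul, ← map_mul] at this
      exact of_injective _ this
    obtain ⟨z, hz, hz2⟩ := hG.cyc x₁ n2
    refine ⟨?_, of z, hz.map of, ?_⟩
    · intro y h hy hy1 hh
      obtain ⟨y₁, rfl, hy₁⟩ := hcent y hy
      have hy11 : y₁ ≠ 1 := by
        rintro rfl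
        exact hy1 (map_one _)
      obtain ⟨z₁, hz₁, hz₁'⟩ := hcent _ hh
      have hy₁CV : ¬ CV V' (of y₁) := fun hc =>
        hx' (hc.of_commute hmal (of_ne_one φ hy11) (hy₁.map of))
      have hlen0 : len φ d (h * of y₁ * h⁻¹) = 0 := by
        rw [hz₁, len_eq_zero_iff]; exact ⟨_, rfl⟩
      have h0 : len φ d h = 0 := by
        rcases Nat.lt_or_ge 1 (len φ d h) with hh1 | hh1
        · exact (hy₁CV (H1 y₁ hy11 h hh1 hlen0)).elim
        · by_contra hne
          have hone : len φ d h = 1 := by omega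
          obtain ⟨q, u, a, hm, e1, e2, e3⟩ := peel φ d h y₁ (by omega) hlen0
          have hq : len φ d q = 0 := by omega
          obtain ⟨b, rfl⟩ := (len_eq_zero_iff _ _ _).1 hq
          rcases H2 u with hmalu | hcv
          · -- a z a⁻¹ lies in the edge group
            have hzu : a * z * a⁻¹ ∈ toSubgroup A B u := by
              apply hmalu (a * y₁ * a⁻¹) hm (conj_ne_one hy11 a)
              have hzy : Commute z y₁ := by
                obtain ⟨n, hn⟩ := Subgroup.mem_zpowers_iff.1 (hz2 y₁ hy₁)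
                rw [← hn]
                exact (Commute.refl z).zpow_right n
              have e : a * z * a⁻¹ * (a * y₁ * a⁻¹) * (a * z * a⁻¹)⁻¹ =
                  a * (z * y₁ * z⁻¹) * a⁻¹ := by group
              rw [e, hzy.eq, mul_inv_cancel_right]
              exact hm
            -- h z h⁻¹ is in G
            set w : G := b * (toSubgroupEquiv φ u ⟨a * z * a⁻¹, hzu⟩ : G) * b⁻¹ with hw
            have hzw : h * of z * h⁻¹ = of w := by
              rw [hw, map_mul, map_mul, ← pinch_eq φ u _ hzu, e1]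
              simp only [map_mul, map_inv]
              group
            -- it commutes with y₂ = h y₁ h⁻¹
            have hwz1 : Commute w z₁ := by
              obtain ⟨n, hn⟩ := Subgroup.mem_zpowers_iff.1 (hz2 y₁ hy₁)
              have e : of z₁ = (of (w ^ n) : HNNExtension G A B φ) := by
                rw [← hz₁, map_zpow, ← hzw, conj_zpow, ← hn, map_zpow]
              have := of_injective _ e
              rw [this]
              exact (Commute.refl w).zpow_right n
            have hz11 : z₁ ≠ 1 := by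
              rintro rfl
              rw [map_one] at hz₁
              exact conj_ne_one hy1 h hz₁
            have hwx : Commute w x₁ := by
              apply hG.malp x₁ n2 z₁ w hz₁' hz11
              rw [hwz1.eq, mul_inv_cancel_right]
              exact hz₁'
            obtain ⟨s, hs⟩ := Subgroup.mem_zpowers_iff.1 (hz2 w hwx)
            have hz1 : z ≠ 1 := by
              rintro rfl
              apply hx1
              obtain ⟨m, hm⟩ := Subgroup.mem_zpowers_iff.1 (hz2 x₁ (Commute.refl _))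
              rw [← hm, one_zpow]
            have hsq : (h * h) * of z * (h * h)⁻¹ = of (w ^ s) := by
              have e4 : (h * h) * of z * (h * h)⁻¹ = h * (h * of z * h⁻¹) * h⁻¹ := by group
              have e5 : (of w : HNNExtension G A B φ) = of z ^ s := by rw [← map_zpow, hs]
              rw [e4, hzw, e5, ← conj_zpow, hzw, ← map_zpow]
            have hcvz : CV V' (of z) := by
              apply H1 z hz1 (h * h)
              · have := (hnnTree φ d).noinv h (by simpa using hone)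
                simp only [hnnTree_L] at this
                omega
              · rw [hsq, len_eq_zero_iff]; exact ⟨_, rfl⟩
            exact hx' (hcvz.of_commute hmal (of_ne_one φ hz1) (hz.map of))
          · apply hy₁CV
            have := hcv _ hm
            rw [map_mul, map_mul, map_inv] at this
            exact this.conj _
      obtain ⟨h₁, rfl⟩ := (len_eq_zero_iff _ _ _).1 h0
      rw [← map_inv, ← map_mul, ← map_mul] at hz₁
      have h5 := of_injective _ hz₁
      have := hG.malp x₁ n2 y₁ h₁ hy₁ hy11 (by rw [h5]; exact hz₁')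
      exact this.map of
    · intro y hy
      obtain ⟨y₁, rfl, hy₁⟩ := hcent y hy
      obtain ⟨n, hn⟩ := Subgroup.mem_zpowers_iff.1 (hz2 y₁ hy₁)
      exact Subgroup.mem_zpowers_iff.2 ⟨n, by rw [← hn, map_zpow]⟩
  · -- hyperbolic case
    have hFr : ∀ w : HNNExtension G A B φ, (hnnTree φ d).CR w → ¬ CV V' w →
        (hnnTree φ d).Fr w := by
      intro w hw hwV y hy h0
      by_contra hy1
      simp only [hnnTree_L] at h0
      obtain ⟨y₁, rfl⟩ := (len_eq_zero_iff _ _ _).1 h0
      have hy11 : y₁ ≠ 1 := by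
        rintro rfl
        exact hy1 (map_one _)
      have hpw := hw.pow _ 2
      have hpos := hw.1
      simp only [hnnTree_L] at hpw hpos
      have : CV V' (of y₁) := by
        apply H1 y₁ hy11 (w ^ 2)
        · rw [hpw]; omega
        · have : Commute (w ^ 2) (of y₁) := ((show Commute (of y₁) w from hy).pow_right 2).symm
          rw [this.eq, mul_inv_cancel_right]
          exact h0
      exact hwV (this.of_commute hmal hy1 hy)
    have hF := hFr x₁ hk hx'
    refine ⟨?_, ?_⟩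
    · intro y h hy hy1 hh
      refine hk.malnormal _ htf hF ?_ hy.eq hy1 hh.eq
      intro y hy hy1
      have hyCR : (hnnTree φ d).CR y := by
        refine hk.comm_CR _ hy ?_
        rcases Nat.eq_zero_or_pos ((hnnTree φ d).L y) with h | h
        · exact absurd (hF y hy h) hy1
        · exact h
      exact hFr y hyCR (fun hc => hx' (hc.of_commute hmal hy1 hy))
    · obtain ⟨z, hz, -, hgen⟩ := hk.centralizer_cyclic _ hF
      exact ⟨z, hz, fun y hy => hgen y hy.eq⟩

end hnn

end Pool.Agent.Helper495.E97
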