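import Mathlib
import Pool.Agent.Helper495.E97.Good

set_option autoImplicit false

namespace Pool.Agent.Helper495.E97

open HNNExtension HNNExtension.NormalWord

variable {G : Type*} [Group G] {V A B : Subgroup G}

theorem t_CR (φ : A ≃* B) (d : TransversalPair G A B) : (hnnTree φ d).CR t := by
  have h1 : (hnnTree φ d).L t = 1 := by
    have := len_syl φ d 1 1
    simpa using this
  have h2 := (hnnTree φ d).noinv t h1
  exact ⟨by omega, by omega⟩

theorem len_t (φ : A ≃* B) (d : TransversalPair G A B) : len φ d t = 1 := by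
  have := len_syl φ d 1 1
  simpa using this

theorem len_of (φ : A ≃* B) (d : TransversalPair G A B) (g : G) : len φ d (of g) = 0 :=
  (len_eq_zero_iff _ _ _).2 ⟨g, rfl⟩

theorem len_t_zpow (φ : A ≃* B) (d : TransversalPair G A B) (n : ℤ) :
    len φ d (t ^ n) = n.natAbs := by
  have := (t_CR φ d).zpow _ n
  simp only [hnnTree_L] at this
  rw [this, len_t, mul_one]

theorem len_of_mul (φ : A ≃* B) (d : TransversalPair G A B) (g : G) (x : HNNExtension G A B φ) :
    len φ d (of g * x) = len φ d x :=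
  (hnnTree φ d).L_mul_left0 (v := of g) (len_of φ d g) x

theorem len_mul_of (φ : A ≃* B) (d : TransversalPair G A B) (g : G) (x : HNNExtension G A B φ) :
    len φ d (x * of g) = len φ d x :=
  (hnnTree φ d).L_mul_right0 (v := of g) (len_of φ d g) x

section S1

/-- data for the step adding a stable letter centralising V -/
structure S1Data (V : Subgroup G) (φ : A ≃* B) : Prop where
  VA : V ≤ A
  VB : V ≤ B
  fix : ∀ v (hv : v ∈ V), (φ ⟨v, VA hv⟩ : G) = v
  malA : Mal A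
  malB : Mal B
  inter : ∀ g ∈ A, g ∈ B → g ∈ V
  iv : ∀ x a, a ∈ A → a ≠ 1 → x * a * x⁻¹ ∈ B → ∃ β ∈ B, ∃ α ∈ A, x = β * α

variable {φ : A ≃* B} (hS : S1Data V φ)

include hS

theorem S1Data.Vu (u : ℤˣ) : V ≤ toSubgroup A B u := by
  rcases Int.units_eq_one_or u with rfl | rfl
  · exact hS.VA
  · exact hS.VB

theorem S1Data.fixu (u : ℤˣ) (v : G) (hv : v ∈ V) :
    (toSubgroupEquiv φ u ⟨v, hS.Vu u hv⟩ : G) = v := by
  rcases Int.units_eq_one_or u with rfl | rfl
  · exact hS.fix v hv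
  · have h : φ.symm ⟨v, hS.VB hv⟩ = ⟨v, hS.VA hv⟩ := by
      rw [MulEquiv.symm_apply_eq]
      exact Subtype.ext (hS.fix v hv).symm
    exact congrArg Subtype.val h

theorem S1Data.malu (u : ℤˣ) : Mal (toSubgroup A B u) := by
  rcases Int.units_eq_one_or u with rfl | rfl
  · exact hS.malA
  · exact hS.malB

theorem S1Data.tcomm : ∀ v ∈ V, (t * of v : HNNExtension G A B φ) = of v * t := by
  intro v hv
  have := t_mul_of (φ := φ) ⟨v, hS.VA hv⟩
  rwa [hS.fix v hv] at this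

/-- V extended by the stable letter -/
def Vt : Subgroup (HNNExtension G A B φ) where
  carrier := {x | ∃ v ∈ V, ∃ n : ℤ, x = of v * t ^ n}
  one_mem' := ⟨1, V.one_mem, 0, by simp⟩
  mul_mem' := by
    rintro _ _ ⟨v, hv, n, rfl⟩ ⟨w, hw, m, rfl⟩
    refine ⟨v * w, V.mul_mem hv hw, n + m, ?_⟩
    have h : Commute (t ^ n : HNNExtension G A B φ) (of w) :=
      (show Commute t (of w) from hS.tcomm w hw).zpow_left n
    rw [map_mul, zpow_add]
    calc of v * t ^ n * (of w * t ^ m) = of v * (t ^ n * of w) * t ^ m := by group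
      _ = of v * (of w * t ^ n) * t ^ m := by rw [h.eq]
      _ = _ := by group
  inv_mem' := by
    rintro _ ⟨v, hv, n, rfl⟩
    refine ⟨v⁻¹, V.inv_mem hv, -n, ?_⟩
    have h : Commute (t ^ (-n) : HNNExtension G A B φ) (of v⁻¹) :=
      (show Commute t (of v⁻¹) from hS.tcomm _ (V.inv_mem hv)).zpow_left _
    rw [← h.eq, mul_inv_rev, zpow_neg, map_inv]

theorem mem_Vt {x : HNNExtension G A B φ} :
    x ∈ Vt hS ↔ ∃ v ∈ V, ∃ n : ℤ, x = of v * t ^ n := Iff.rfl

theorem of_mem_Vt {v : G} (hv : v ∈ V) : of v ∈ Vt hS := ⟨v, hv, 0, by simp⟩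

theorem t_mem_Vt : t ∈ Vt hS := ⟨1, V.one_mem, 1, by simp⟩

omit hS in
theorem len_Vt (φ : A ≃* B) (d : TransversalPair G A B) (v : G) (n : ℤ) :
    len φ d (of v * t ^ n) = n.natAbs := by
  rw [len_of_mul, len_t_zpow]

theorem of_mem_Vt_iff {v : G} : of v ∈ Vt hS ↔ v ∈ V := by
  refine ⟨?_, of_mem_Vt hS⟩
  rintro ⟨w, hw, n, h⟩
  obtain ⟨d⟩ := TransversalPair.nonempty G A B
  have h1 := len_Vt φ d w n
  rw [← h, len_of] at h1
  have : n = 0 := by omega
  subst this
  rw [zpow_zero, mul_one] at h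
  rw [of_injective _ h]; exact hw

theorem Vt_CR (d : TransversalPair G A B) {v : G} (hv : v ∈ V) {n : ℤ} (hn : n ≠ 0) :
    (hnnTree φ d).CR (of v * t ^ n) := by
  have h : Commute (of v : HNNExtension G A B φ) (t ^ n) :=
    (show Commute (of v) t from (hS.tcomm v hv).symm).zpow_right n
  refine ⟨?_, ?_⟩
  · simp only [hnnTree_L]
    rw [len_Vt]; omega
  · simp only [hnnTree_L]
    have e : of v * t ^ n * (of v * t ^ n) = (of (v * v) * t ^ (n + n) : HNNExtension G A B φ) := by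
      rw [map_mul, zpow_add]
      calc of v * t ^ n * (of v * t ^ n) = of v * (t ^ n * of v) * t ^ n := by group
        _ = of v * (of v * t ^ n) * t ^ n := by rw [h.eq]
        _ = _ := by group
    rw [e, len_Vt, len_Vt]; omega

theorem S1_F1 (d : TransversalPair G A B) (g : G) (hg : g ≠ 1) (p : HNNExtension G A B φ)
    (hp : 2 ≤ len φ d p) (h : len φ d (p * of g * p⁻¹) = 0) : ∃ k, k * g * k⁻¹ ∈ V := by
  obtain ⟨q, u₁, u₂, a₁, a₂, g₁, hm, -, -, hg₁, hg₁1, h1, h2, h3, -⟩ := peel2 φ d p g hp hg h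
  -- it suffices to conjugate g₁ into V inside the edge group
  suffices hs : ∃ κ ∈ toSubgroup A B (-u₁), κ * g₁ * κ⁻¹ ∈ V by
    obtain ⟨κ, hκ, hv⟩ := hs
    set ψ := toSubgroupEquiv φ u₁ with hψ
    set κ' := ψ.symm ⟨κ, hκ⟩ with hκ'
    have e1 : ψ (κ' * ⟨a₁ * g * a₁⁻¹, hm⟩ * κ'⁻¹) = ψ ⟨κ * g₁ * κ⁻¹, hS.Vu u₁ hv⟩ := by
      apply Subtype.ext
      rw [hS.fixu u₁ _ hv, map_mul, map_mul, map_inv, hκ', MulEquiv.apply_symm_apply]
      simp only [Subgroup.coe_mul, Subgroup.coe_inv]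
      rw [hg₁]
    have e2 := congrArg Subtype.val (ψ.injective e1)
    simp only [Subgroup.coe_mul, Subgroup.coe_inv] at e2
    refine ⟨κ' * a₁, ?_⟩
    have e3 : (κ' : G) * a₁ * g * (κ' * a₁)⁻¹ = κ' * (a₁ * g * a₁⁻¹) * (κ' : G)⁻¹ := by group
    rw [e3, e2]; exact hv
  rcases Int.units_eq_one_or u₁ with rfl | rfl <;> rcases Int.units_eq_one_or u₂ with rfl | rfl
  · -- 1, 1
    have hB : g₁ ∈ B := h1
    have hA : a₂ * g₁ * a₂⁻¹ ∈ A := h2
    obtain ⟨β, hβ, α, hα, hx⟩ := hS.iv a₂⁻¹ (a₂ * g₁ * a₂⁻¹) hA (conj_ne_one hg₁1 a₂) (by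
      have : a₂⁻¹ * (a₂ * g₁ * a₂⁻¹) * a₂⁻¹⁻¹ = g₁ := by group
      rwa [this])
    refine ⟨β⁻¹, B.inv_mem hβ, ?_⟩
    apply hS.inter
    · have e : β⁻¹ * g₁ * β⁻¹⁻¹ = α * (a₂ * g₁ * a₂⁻¹) * α⁻¹ := by
        have : a₂ = α⁻¹ * β⁻¹ := by rw [← mul_inv_rev, ← hx, inv_inv]
        rw [this]; group
      rw [e]
      exact A.mul_mem (A.mul_mem hα hA) (A.inv_mem hα)
    · exact B.mul_mem (B.mul_mem (B.inv_mem hβ) hB) (B.inv_mem (B.inv_mem hβ))
  · -- 1, -1
    exfalso
    have : a₂ ∈ B := hS.malB g₁ h1 hg₁1 a₂ h2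
    exact absurd (h3 this) (by decide)
  · exfalso
    have : a₂ ∈ A := hS.malA g₁ h1 hg₁1 a₂ h2
    exact absurd (h3 this) (by decide)
  · have hA : g₁ ∈ A := h1
    have hB : a₂ * g₁ * a₂⁻¹ ∈ B := h2
    obtain ⟨β, hβ, α, hα, hx⟩ := hS.iv a₂ g₁ hA hg₁1 hB
    refine ⟨α, hα, ?_⟩
    have hA' : α * g₁ * α⁻¹ ∈ A := A.mul_mem (A.mul_mem hα hA) (A.inv_mem hα)
    apply hS.inter _ hA'
    have e : α * g₁ * α⁻¹ = β⁻¹ * (a₂ * g₁ * a₂⁻¹) * β := by rw [hx]; group
    rw [e]
    exact B.mul_mem (B.mul_mem (B.inv_mem hβ) hB) hβ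

theorem S1_F2 (d : TransversalPair G A B) (hV : Mal V) (v : G) (hv : v ∈ V) (hv1 : v ≠ 1)
    (w : G) (hw : w ∈ V) : ∀ (n : ℕ) (h : HNNExtension G A B φ), len φ d h = n →
    h * of v * h⁻¹ = of w → h ∈ Vt hS := by
  intro n
  induction n with
  | zero =>
    intro h hn hh
    obtain ⟨a, rfl⟩ := (len_eq_zero_iff _ _ _).1 hn
    rw [← map_inv, ← map_mul, ← map_mul] at hh
    apply of_mem_Vt
    apply hV v hv hv1
    rw [of_injective _ hh]; exact hw
  | succ n ih =>
    intro h hn hh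
    obtain ⟨q, u, a, hm, h1, h2, h3⟩ := peel φ d h v (by omega) (by rw [hh]; exact len_of _ _ _)
    have ha : a ∈ toSubgroup A B u := hS.malu u v (hS.Vu u hv) hv1 a hm
    have e1 := pinch_eq φ u a ha
    have e2 : h = q * of (toSubgroupEquiv φ u ⟨a, ha⟩ : G) * t ^ (u : ℤ) := by
      rw [h1, ← e1]; group
    have htv : Commute (t ^ (u : ℤ) : HNNExtension G A B φ) (of v) :=
      (show Commute t (of v) from hS.tcomm v hv).zpow_left _
    have hq : q * of (toSubgroupEquiv φ u ⟨a, ha⟩ : G) ∈ Vt hS := by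
      apply ih
      · rw [len_mul_of]; omega
      · rw [← hh, e2]
        generalize q * of (toSubgroupEquiv φ u ⟨a, ha⟩ : G) = q'
        calc q' * of v * q'⁻¹ = q' * ((t ^ (u : ℤ) * of v) * (t ^ (u : ℤ))⁻¹) * q'⁻¹ := by
              rw [htv.eq, mul_inv_cancel_right]
          _ = _ := by group
    rw [e2]
    exact (Vt hS).mul_mem hq ((Vt hS).zpow_mem (t_mem_Vt hS) _)

theorem S1_fixline (d : TransversalPair G A B) (u : ℤˣ) (w y : G) (n : ℕ)
    (h : Commute (of w * t ^ ((u : ℤ) * (n + 1 : ℕ)) : HNNExtension G A B φ) (of y)) :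
    y ∈ toSubgroup A B u := by
  have e1 : (of w * t ^ ((u : ℤ) * (n + 1 : ℕ)) : HNNExtension G A B φ) =
      (of w * t ^ ((u : ℤ) * n)) * t ^ (u : ℤ) := by
    rw [mul_assoc, ← zpow_add]
    congr 2
    push_cast; ring
  have hu : (u : ℤ).natAbs = 1 := by
    rcases Int.units_eq_one_or u with rfl | rfl <;> rfl
  have h1 := (hnnTree φ d).fix_aux (q := of w * t ^ ((u : ℤ) * n)) (s := t ^ (u : ℤ)) (g := of y)
    (by simp only [hnnTree_L]; rw [len_t_zpow, hu])
    (by
      rw [← e1]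
      simp only [hnnTree_L]
      rw [len_Vt, len_Vt, Int.natAbs_mul, Int.natAbs_mul, hu]
      omega)
    (len_of φ d y)
    (by rw [← e1, h.eq, mul_inv_cancel_right]; exact len_of φ d y)
  have h2 := pinch φ d u 1 y (by
    simp only [hnnTree_L] at h1
    simpa using h1)
  simpa using h2

theorem S1_mal (hG : Good V) : Mal (Vt hS) := by
  obtain ⟨d⟩ := TransversalPair.nonempty G A B
  rintro x ⟨v, hv, n, rfl⟩ hx1 h ⟨w, hw, m, hhx⟩
  by_cases hn : n = 0
  · subst hn
    rw [zpow_zero, mul_one] at hhx hx1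
    have hm : m = 0 := by
      by_contra hm
      apply (hnnTree φ d).not_ell_CR (x := h) (α := of v) (len_of φ d v) (Vt_CR hS d hw hm)
      rw [← hhx]; group
    subst hm
    rw [zpow_zero, mul_one] at hhx
    exact S1_F2 hS d hG.mal v hv (fun h => hx1 (by rw [h, map_one])) w hw _ h rfl hhx
  · have hCR := Vt_CR hS d hv hn
    have hm : m ≠ 0 := by
      rintro rfl
      rw [zpow_zero, mul_one] at hhx
      apply (hnnTree φ d).not_ell_CR (x := h⁻¹) (α := of w) (len_of φ d w) hCR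
      rw [← hhx]; group
    have hCR' := Vt_CR hS d hw hm
    obtain ⟨v₀, hv₀, hv₀1⟩ := hG.ne_bot
    have hc0 : Commute (of v₀) (of v * t ^ n : HNNExtension G A B φ) := by
      refine Commute.mul_right ?_ ?_
      · have : Commute v₀ v := hG.comm v₀ hv₀ v hv
        exact this.map of
      · exact (show Commute (of v₀) t from (hS.tcomm v₀ hv₀).symm).zpow_right n
    have hc1 : Commute (h * of v₀ * h⁻¹) (of w * t ^ m) := by
      rw [← hhx]
      exact (Commute.conj_iff h).2 hc0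
    have hy0 : len φ d (h * of v₀ * h⁻¹) = 0 := by
      rcases Nat.eq_zero_or_pos (len φ d (h * of v₀ * h⁻¹)) with h0 | h0
      · exact h0
      · exfalso
        have := hCR'.comm_CR _ hc1.eq h0
        exact (hnnTree φ d).not_ell_CR (x := h) (α := of v₀) (len_of φ d v₀) this (by group)
    obtain ⟨y, hy⟩ := (len_eq_zero_iff _ _ _).1 hy0
    rw [hy] at hc1
    have hu : ∀ u : ℤˣ, y ∈ toSubgroup A B u := by
      intro u
      have key : ∀ (w : G) (m : ℤ), m ≠ 0 → 0 ≤ (u : ℤ) * m →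
          Commute (of y) (of w * t ^ m : HNNExtension G A B φ) → y ∈ toSubgroup A B u := by
        intro w m hm hum hc
        obtain ⟨k, hk⟩ := Int.eq_ofNat_of_zero_le hum
        have hk1 : m = (u : ℤ) * k := by
          rcases Int.units_eq_one_or u with rfl | rfl
          · simpa using hk
          · simp only [Units.val_neg, Units.val_one] at hk ⊢
            omega
        cases k with
        | zero => simp at hk1; exact absurd hk1 hm
        | succ k =>
          rw [hk1] at hc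
          exact S1_fixline hS d u w y k hc.symm
      rcases le_total 0 ((u : ℤ) * m) with h0 | h0
      · exact key w m hm h0 hc1
      · have hin : (of w * t ^ m : HNNExtension G A B φ)⁻¹ = of w⁻¹ * t ^ (-m) := by
          have h : Commute (t ^ (-m) : HNNExtension G A B φ) (of w⁻¹) :=
            (show Commute t (of w⁻¹) from hS.tcomm _ (V.inv_mem hw)).zpow_left _
          rw [← h.eq, mul_inv_rev, zpow_neg, map_inv]
        apply key w⁻¹ (-m) (by omega)
        · rw [mul_neg]; omega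
        · rw [← hin]; exact hc1.inv_right
    have hyA : y ∈ A := hu 1
    have hyB : y ∈ B := by simpa using hu (-1)
    have hyV : y ∈ V := hS.inter y hyA hyB
    exact S1_F2 hS d hG.mal v₀ hv₀ hv₀1 y hyV _ h rfl hy

theorem S1_good (hG : Good V) : Good (Vt hS) where
  tf := hnn_tf φ hG.tf
  comm := by
    rintro _ ⟨v, hv, n, rfl⟩ _ ⟨w, hw, m, rfl⟩
    have h1 : Commute (of v : HNNExtension G A B φ) (of w) :=
      (show Commute v w from hG.comm v hv w hw).map of
    have h2 : Commute (of v : HNNExtension G A B φ) (t ^ m) :=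
      (show Commute (of v) t from (hS.tcomm v hv).symm).zpow_right _
    have h3 : Commute (t ^ n : HNNExtension G A B φ) (of w) :=
      (show Commute t (of w) from hS.tcomm w hw).zpow_left _
    have h4 : Commute (t ^ n : HNNExtension G A B φ) (t ^ m) :=
      (Commute.refl t).zpow_zpow n m
    exact ((h1.mul_right h2).mul_left (h3.mul_right h4)).eq
  mal := S1_mal hS hG
  ne_bot := by
    obtain ⟨v, hv, hv1⟩ := hG.ne_bot
    exact ⟨of v, of_mem_Vt hS hv, of_ne_one φ hv1⟩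
  malp := fun x hx => by
    obtain ⟨d⟩ := TransversalPair.nonempty G A B
    refine (hnn_G3 φ d hG (Vt hS) (fun v hv => of_mem_Vt hS hv) (S1_mal hS hG) ?_
      (fun u => Or.inl (hS.malu u)) x hx).1
    intro g hg p hp h
    obtain ⟨k, hk⟩ := S1_F1 hS d g hg p hp h
    refine ⟨of k, ?_⟩
    rw [← map_inv, ← map_mul, ← map_mul]
    exact of_mem_Vt hS hk
  cyc := fun x hx => by
    obtain ⟨d⟩ := TransversalPair.nonempty G A B
    refine (hnn_G3 φ d hG (Vt hS) (fun v hv => of_mem_Vt hS hv) (S1_mal hS hG) ?_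
      (fun u => Or.inl (hS.malu u)) x hx).2
    intro g hg p hp h
    obtain ⟨k, hk⟩ := S1_F1 hS d g hg p hp h
    refine ⟨of k, ?_⟩
    rw [← map_inv, ← map_mul, ← map_mul]
    exact of_mem_Vt hS hk

end S1

section S2

/-- data for the step conjugating a malnormal subgroup into V -/
structure S2Data (V : Subgroup G) (φ : A ≃* B) : Prop where
  BV : B ≤ V
  malA : Mal A
  nV : ∀ g ∈ A, g ≠ 1 → ¬ CV V g

variable {φ : A ≃* B} (hS : S2Data V φ)

include hS

theorem S2_edge (u : ℤˣ) (g : G) (hg : g ∈ toSubgroup A B u) :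
    CV (V.map (of : G →* HNNExtension G A B φ)) (of g) := by
  rcases Int.units_eq_one_or u with rfl | rfl
  · have hgA : g ∈ A := hg
    refine ⟨t, ?_⟩
    have := equiv_eq_conj (φ := φ) ⟨g, hgA⟩
    rw [← this]
    exact ⟨_, hS.BV (φ ⟨g, hgA⟩).2, rfl⟩
  · have hgB : g ∈ B := hg
    exact CV_of_mem ⟨g, hS.BV hgB, rfl⟩

theorem S2_mal (hG : Good V) : Mal (V.map (of : G →* HNNExtension G A B φ)) := by
  obtain ⟨d⟩ := TransversalPair.nonempty G A B
  rintro _ ⟨v, hv, rfl⟩ hv1 h ⟨w, hw, hh⟩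
  have hv1' : v ≠ 1 := by
    rintro rfl
    exact hv1 (map_one _)
  have hVCV : CV V v := CV_of_mem hv
  have hl0 : len φ d (h * of v * h⁻¹) = 0 := by rw [← hh]; exact len_of _ _ _
  rcases Nat.lt_or_ge 1 (len φ d h) with h2 | h2
  · exfalso
    obtain ⟨q, u₁, u₂, a₁, a₂, g₁, hm, -, -, hg₁, hg₁1, k1, k2, k3, -⟩ :=
      peel2 φ d h v h2 hv1' hl0
    rcases Int.units_eq_one_or u₁ with rfl | rfl
    · exact hS.nV _ hm (conj_ne_one hv1' a₁) (hVCV.conj' a₁)
    · have hg₁A : g₁ ∈ A := k1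
      rcases Int.units_eq_one_or u₂ with rfl | rfl
      · have : a₂ ∈ A := hS.malA g₁ hg₁A hg₁1 a₂ k2
        exact absurd (k3 this) (by decide)
      · exact hS.nV g₁ hg₁A hg₁1 ⟨a₂, hS.BV k2⟩
  · rcases Nat.eq_zero_or_pos (len φ d h) with h0 | h0
    · obtain ⟨a, rfl⟩ := (len_eq_zero_iff _ _ _).1 h0
      rw [← map_inv, ← map_mul, ← map_mul] at hh
      have := of_injective _ hh
      refine ⟨a, hG.mal v hv hv1' a ?_, rfl⟩
      rw [← this]; exact hw
    · exfalso
      obtain ⟨q, u, a, hm, e1, e2, e3⟩ := peel φ d h v h0 hl0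
      have hq : len φ d q = 0 := by omega
      obtain ⟨b, rfl⟩ := (len_eq_zero_iff _ _ _).1 hq
      rcases Int.units_eq_one_or u with rfl | rfl
      · exact hS.nV _ hm (conj_ne_one hv1' a) (hVCV.conj' a)
      · have hg₁A : (toSubgroupEquiv φ (-1) ⟨a * v * a⁻¹, hm⟩ : G) ∈ A :=
          (toSubgroupEquiv φ (-1) ⟨a * v * a⁻¹, hm⟩).2
        rw [← hh, ← map_inv, ← map_mul, ← map_mul] at e3
        have e4 := of_injective _ e3
        refine hS.nV _ hg₁A (toSubgroupEquiv_ne_one φ hm (conj_ne_one hv1' a)) ⟨b, ?_⟩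
        rw [← e4]; exact hw

theorem S2_good (hG : Good V) : Good (V.map (of : G →* HNNExtension G A B φ)) := by
  obtain ⟨d⟩ := TransversalPair.nonempty G A B
  have h3 := hnn_G3 φ d hG (V.map (of : G →* HNNExtension G A B φ))
    (fun v hv => ⟨v, hv, rfl⟩) (S2_mal hS hG) (by
      intro g hg p hp h
      obtain ⟨q, u, a, hm, -⟩ := peel φ d p g (by omega) h
      apply CV.conj (of a)
      rw [← map_inv, ← map_mul, ← map_mul]
      exact S2_edge hS u _ hm)
    (fun u => Or.inr (fun g hg => S2_edge hS u g hg))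
  exact
  { tf := hnn_tf φ hG.tf
    comm := by
      rintro _ ⟨v, hv, rfl⟩ _ ⟨w, hw, rfl⟩
      rw [← map_mul, hG.comm v hv w hw, map_mul]
    mal := S2_mal hS hG
    ne_bot := by
      obtain ⟨v, hv, hv1⟩ := hG.ne_bot
      exact ⟨of v, ⟨v, hv, rfl⟩, of_ne_one φ hv1⟩
    malp := fun x hx => (h3 x hx).1
    cyc := fun x hx => (h3 x hx).2 }

omit hS in
theorem S2_of_mem_iff {v : G} : (of v : HNNExtension G A B φ) ∈ V.map of ↔ v ∈ V := by
  constructor
  · rintro ⟨w, hw, h⟩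
    rw [← of_injective _ h]; exact hw
  · intro h
    exact ⟨v, h, rfl⟩

end S2

end Pool.Agent.Helper495.E97
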