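import Mathlib
import Pool.Agent.Helper495.E97.Steps

set_option autoImplicit false

namespace Pool.Agent.Helper495.E97

open HNNExtension HNNExtension.NormalWord

instance {G : Type} [Group G] [Countable G] (A B : Subgroup G) (φ : A ≃* B) :
    Countable (HNNExtension G A B φ) := by
  obtain ⟨d⟩ := TransversalPair.nonempty G A B
  let f : HNNExtension G A B φ → G × List (ℤˣ × G) := fun h =>
    ((NormalWord.equiv φ d h).head, (NormalWord.equiv φ d h).toList)
  apply Function.Injective.countable (f := f)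
  intro a b hab
  apply (NormalWord.equiv φ d).injective
  simp only [f, Prod.mk.injEq] at hab
  exact NormalWord.ext hab.1 hab.2

/-- countable good pairs -/
structure GP where
  G : Type
  [grp : Group G]
  [cnt : Countable G]
  V : Subgroup G
  good : Good V
  prop : ∃ a, a ∉ V

attribute [instance] GP.grp GP.cnt

/-- extensions of pairs -/
structure Ext (S S' : GP) (j : S.G →* S'.G) : Prop where
  inj : Function.Injective j
  mem : ∀ g, j g ∈ S'.V ↔ g ∈ S.V

theorem Ext.refl (S : GP) : Ext S S (MonoidHom.id _) := ⟨fun _ _ h => h, fun _ => Iff.rfl⟩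

theorem Ext.comp {S S' S'' : GP} {j : S.G →* S'.G} {j' : S'.G →* S''.G} (h' : Ext S' S'' j')
    (h : Ext S S' j) : Ext S S'' (j'.comp j) :=
  ⟨h'.inj.comp h.inj, fun g => (h'.mem _).trans (h.mem g)⟩

/-- the pair obtained by the first kind of step -/
def GP.s1 (S : GP) {A B : Subgroup S.G} (φ : A ≃* B) (hS : S1Data S.V φ) : GP where
  G := HNNExtension S.G A B φ
  V := Vt hS
  good := S1_good hS S.good
  prop := by
    obtain ⟨a, ha⟩ := S.prop
    exact ⟨of a, fun h => ha ((of_mem_Vt_iff hS).1 h)⟩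

theorem GP.s1_ext (S : GP) {A B : Subgroup S.G} (φ : A ≃* B) (hS : S1Data S.V φ) :
    Ext S (S.s1 φ hS) (of : S.G →* HNNExtension S.G A B φ) :=
  ⟨of_injective _, fun _ => of_mem_Vt_iff hS⟩

/-- the pair obtained by the second kind of step -/
def GP.s2 (S : GP) {A B : Subgroup S.G} (φ : A ≃* B) (hS : S2Data S.V φ) : GP where
  G := HNNExtension S.G A B φ
  V := S.V.map of
  good := S2_good hS S.good
  prop := by
    obtain ⟨a, ha⟩ := S.prop
    exact ⟨of a, fun h => ha (S2_of_mem_iff.1 h)⟩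

theorem GP.s2_ext (S : GP) {A B : Subgroup S.G} (φ : A ≃* B) (hS : S2Data S.V φ) :
    Ext S (S.s2 φ hS) (of : S.G →* HNNExtension S.G A B φ) :=
  ⟨of_injective _, fun _ => S2_of_mem_iff⟩

theorem zpowersHom_inj {G : Type*} [Group G] (htf : ∀ (g : G) (n : ℕ), 0 < n → g ^ n = 1 → g = 1)
    {z : G} (hz : z ≠ 1) : Function.Injective (zpowersHom G z) := by
  rw [injective_iff_map_eq_one]
  intro a ha
  rw [zpowersHom_apply] at ha
  by_contra hne
  have h0 : Multiplicative.toAdd a ≠ 0 := fun h => hne (by simpa using h)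
  apply hz
  apply htf z (Multiplicative.toAdd a).natAbs (by omega)
  rcases Int.natAbs_eq (Multiplicative.toAdd a) with h | h
  · rw [h, zpow_natCast] at ha; exact ha
  · rw [h, zpow_neg, zpow_natCast, inv_eq_one] at ha; exact ha

/-- make z conjugate to v₀ -/
theorem conj_step (S : GP) (z : S.G) (hz : ¬ CV S.V z)
    (hc : ∀ y, Commute y z → y ∈ Subgroup.zpowers z) (v₀ : S.G) (hv₀ : v₀ ∈ S.V) (hv₀1 : v₀ ≠ 1) :
    ∃ (S' : GP) (j : S.G →* S'.G), Ext S S' j ∧ ∃ k, k * j z * k⁻¹ = j v₀ := by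
  have hz1 : z ≠ 1 := by
    rintro rfl
    exact hz CV_one
  have h1 := zpowersHom_inj S.good.tf hz1
  have h2 := zpowersHom_inj S.good.tf hv₀1
  let e₁ := MonoidHom.ofInjective h1
  let e₂ := MonoidHom.ofInjective h2
  let φ : (zpowersHom S.G z).range ≃* (zpowersHom S.G v₀).range := e₁.symm.trans e₂
  have hmem : ∀ y, y ∈ (zpowersHom S.G z).range ↔ Commute y z := by
    intro y
    constructor
    · rintro ⟨i, rfl⟩
      rw [zpowersHom_apply]
      exact (Commute.refl z).zpow_left _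
    · intro h
      obtain ⟨i, hi⟩ := Subgroup.mem_zpowers_iff.1 (hc y h)
      exact ⟨Multiplicative.ofAdd i, by simp [zpowersHom_apply, hi]⟩
  have hS : S2Data S.V φ := by
    refine ⟨?_, ?_, ?_⟩
    · rintro _ ⟨i, rfl⟩
      rw [zpowersHom_apply]
      exact S.V.zpow_mem hv₀ _
    · intro g hg hg1 a ha
      rw [hmem] at hg ha ⊢
      exact S.good.malp z hz g a hg hg1 ha
    · intro g hg hg1 hcv
      rw [hmem] at hg
      exact hz (hcv.of_commute S.good.mal hg1 hg)
  refine ⟨S.s2 φ hS, _, S.s2_ext φ hS, t, ?_⟩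
  have hzm : z ∈ (zpowersHom S.G z).range := ⟨Multiplicative.ofAdd 1, by simp [zpowersHom_apply]⟩
  have h3 := equiv_eq_conj (φ := φ) ⟨z, hzm⟩
  have h4 : (φ ⟨z, hzm⟩ : S.G) = v₀ := by
    have h5 : e₁ (Multiplicative.ofAdd 1) = ⟨z, hzm⟩ := by
      apply Subtype.ext
      exact (MonoidHom.ofInjective_apply h1).trans (by simp [zpowersHom_apply])
    have h6 : φ ⟨z, hzm⟩ = e₂ (Multiplicative.ofAdd 1) := by
      change e₂ (e₁.symm ⟨z, hzm⟩) = _
      rw [← h5, MulEquiv.symm_apply_apply]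
    rw [h6]
    exact (MonoidHom.ofInjective_apply h2).trans (by simp [zpowersHom_apply])
  rw [h4] at h3
  exact h3.symm

theorem T1 (S : GP) (x : S.G) :
    ∃ (S' : GP) (j : S.G →* S'.G), Ext S S' j ∧ CV S'.V (j x) := by
  by_cases hx : CV S.V x
  · exact ⟨S, MonoidHom.id _, Ext.refl S, hx⟩
  obtain ⟨z, hz, hz2⟩ := S.good.cyc x hx
  obtain ⟨n, hn⟩ := Subgroup.mem_zpowers_iff.1 (hz2 x (Commute.refl x))
  have hz1 : z ≠ 1 := by
    rintro rfl
    rw [one_zpow] at hn
    rw [← hn] at hx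
    exact hx CV_one
  obtain ⟨v₀, hv₀, hv₀1⟩ := S.good.ne_bot
  obtain ⟨S', j, hj, k, hk⟩ := conj_step S z (fun h => hx (h.of_commute S.good.mal hz1 hz))
    (fun y hy => hz2 y (by rw [← hn]; exact hy.zpow_right n)) v₀ hv₀ hv₀1
  refine ⟨S', j, hj, k, ?_⟩
  rw [← hn, map_zpow, ← conj_zpow, hk]
  exact S'.V.zpow_mem ((hj.mem v₀).2 hv₀) n

/-- the centraliser extension -/
theorem s1_data_self {G : Type*} [Group G] {V : Subgroup G} (hG : Good V) :
    S1Data V (MulEquiv.refl V) where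
  VA := le_rfl
  VB := le_rfl
  fix := fun _ _ => rfl
  malA := hG.mal
  malB := hG.mal
  inter := fun _ h _ => h
  iv := fun x a ha ha1 hx => ⟨x, hG.mal a ha ha1 x hx, 1, V.one_mem, by simp⟩

/-- exponent sum -/
noncomputable def expsum {G : Type*} [Group G] {A B : Subgroup G} (φ : A ≃* B) :
    HNNExtension G A B φ →* Multiplicative ℤ :=
  HNNExtension.lift 1 (Multiplicative.ofAdd 1) (by simp)

theorem T2 (S : GP) (g x : S.G) (hg : g ∈ S.V) (hg1 : g ≠ 1) (hx1 : x ≠ 1) :
    ∃ (S' : GP) (j : S.G →* S'.G), Ext S S' j ∧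
      ∃ k₁ k₂, j x = (k₁ * j g * k₁⁻¹) * (k₂ * j g * k₂⁻¹) := by
  obtain ⟨a, ha⟩ := S.prop
  -- reduce to x not in V
  suffices H : ∀ x : S.G, x ∉ S.V → ∃ (S' : GP) (j : S.G →* S'.G), Ext S S' j ∧
      ∃ k₁ k₂, j x = (k₁ * j g * k₁⁻¹) * (k₂ * j g * k₂⁻¹) by
    by_cases hx : x ∈ S.V
    · obtain ⟨S', j, hj, k₁, k₂, e⟩ := H (a * x * a⁻¹) (fun h => ha (S.good.mal x hx hx1 a h))
      refine ⟨S', j, hj, (j a)⁻¹ * k₁, (j a)⁻¹ * k₂, ?_⟩
      rw [map_mul, map_mul, map_inv] at e
      calc j x = (j a)⁻¹ * (j a * j x * (j a)⁻¹) * j a := by group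
        _ = _ := by rw [e]; group
    · exact H x hx
  clear hx1 x
  intro x hx
  have hS := s1_data_self S.good
  obtain ⟨d⟩ := TransversalPair.nonempty S.G S.V S.V
  set φ := MulEquiv.refl S.V with hφ
  set h : S.G := a * g⁻¹ * a⁻¹ with hh
  have hhV : h ∉ S.V := fun h' =>
    ha (S.good.mal g⁻¹ (S.V.inv_mem hg) (inv_ne_one.2 hg1) a h')
  obtain ⟨w, hw⟩ : ∃ w : HNNExtension S.G S.V S.V φ, w = of x * (t * of h * t⁻¹) := ⟨_, rfl⟩
  have hw1 : len φ d w = 2 := by
    have := len_of_red φ d x [(1, h), (-1, 1)] (by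
      simp [R, hhV])
    have e : (of x * P φ [(1, h), (-1, 1)] : HNNExtension S.G S.V S.V φ) = w := by
      simp only [P_cons, P_nil, map_one, Units.val_neg, Units.val_one, zpow_neg, zpow_one, hw]
      group
    rw [e] at this
    simpa using this
  have hw2 : len φ d (w * w) = 4 := by
    have := len_of_red φ d x [(1, h), (-1, x), (1, h), (-1, 1)] (by
      simp [R, hhV, hx])
    have e : (of x * P φ [(1, h), (-1, x), (1, h), (-1, 1)] : HNNExtension S.G S.V S.V φ) =
        w * w := by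
      simp only [P_cons, P_nil, map_one, Units.val_neg, Units.val_one, zpow_neg, zpow_one, hw]
      group
    rw [e] at this
    simpa using this
  have hCR : (hnnTree φ d).CR w := by
    refine ⟨?_, ?_⟩
    · simp only [hnnTree_L]; omega
    · simp only [hnnTree_L]; omega
  have hσw : expsum φ w = 1 := by
    simp [hw, expsum]
  have hσt : ∀ n : ℤ, expsum φ (t ^ n) = Multiplicative.ofAdd n := by
    intro n
    rw [map_zpow]
    simp only [expsum, lift_t]
    rw [← ofAdd_zsmul]; simp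
  have hσof : ∀ b : S.G, expsum φ (of b) = 1 := by
    intro b
    simp [expsum]
  have hnCV : ¬ CV (Vt hS) w := by
    rintro ⟨k, v, hv, n, hk⟩
    have h1 := congrArg (expsum φ) hk
    rw [map_mul, map_mul, map_mul, hσw, hσof, hσt, map_inv] at h1
    have hn : n = 0 := by
      have h2 : Multiplicative.ofAdd n = 1 := by
        rw [mul_one, mul_inv_cancel, one_mul] at h1
        exact h1.symm
      simpa using h2
    subst hn
    rw [zpow_zero, mul_one] at hk
    apply (hnnTree φ d).not_ell_CR (x := k⁻¹) (α := of v) (len_of φ d v) hCR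
    rw [← hk]; group
  obtain ⟨z, hz, hz2⟩ := (S1_good hS S.good).cyc w hnCV
  obtain ⟨n, hn⟩ := Subgroup.mem_zpowers_iff.1 (hz2 w (Commute.refl w))
  have hz0 : 0 < len φ d z := by
    rcases Nat.eq_zero_or_pos (len φ d z) with h0 | h0
    · exfalso
      obtain ⟨b, rfl⟩ := (len_eq_zero_iff _ _ _).1 h0
      rw [← map_zpow] at hn
      rw [← hn, len_of] at hw1
      omega
    · exact h0
  have hzCR := hCR.comm_CR _ hz.eq hz0
  have hzn := hzCR.zpow _ n
  simp only [hnnTree_L] at hzn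
  rw [hn, hw1] at hzn
  have hn1 : n.natAbs = 1 := by
    have hdvd : n.natAbs ∣ 2 := ⟨_, hzn⟩
    have hle := Nat.le_of_dvd (by norm_num) hdvd
    have hne : n.natAbs ≠ 2 := by
      intro h2
      rw [h2] at hzn
      have hlz : len φ d z = 1 := by omega
      obtain ⟨q, u, b, e1, e2⟩ := split' φ d z hz0
      have hq : len φ d q = 0 := by omega
      obtain ⟨c, rfl⟩ := (len_eq_zero_iff _ _ _).1 hq
      have h3 := congrArg (expsum φ) hn
      rw [map_zpow, e1, map_mul, map_mul, hσof, hσof, hσt, hσw, one_mul, mul_one,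
        ← ofAdd_zsmul] at h3
      have h4 : n • (u : ℤ) = 0 := by simpa using h3
      rw [smul_eq_mul] at h4
      rcases mul_eq_zero.1 h4 with h | h
      · omega
      · rcases Int.units_eq_one_or u with rfl | rfl <;> simp at h
    interval_cases hna : n.natAbs
    · omega
    · rfl
    · exact absurd rfl hne
  have hzw : z ∈ Subgroup.zpowers w := by
    rcases Int.natAbs_eq n with h | h
    · rw [hn1] at h
      rw [h] at hn
      simp only [Nat.cast_one, zpow_one] at hn
      rw [hn]; exact Subgroup.mem_zpowers w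
    · rw [hn1] at h
      rw [h] at hn
      simp only [Nat.cast_one, zpow_neg, zpow_one] at hn
      rw [← hn]
      exact (Subgroup.inv_mem_iff _).1 (Subgroup.mem_zpowers _)
  obtain ⟨S', j, hj, k, hk⟩ := conj_step (S.s1 φ hS) w hnCV
    (fun y hy => (Subgroup.zpowers_le.2 hzw) (hz2 y hy)) (of g) (of_mem_Vt hS hg)
    (of_ne_one φ hg1)
  refine ⟨S', j.comp of, hj.comp (S.s1_ext φ hS), k⁻¹, j (t * of a), ?_⟩
  have e1 : j w = k⁻¹ * j (of g) * k⁻¹⁻¹ := by rw [← hk]; group
  have e2 : (of x : HNNExtension S.G S.V S.V φ) = w * ((t * of a) * of g * (t * of a)⁻¹) := by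
    simp only [hw, hh, map_mul, map_inv]
    group
  change j (of x) = k⁻¹ * j (of g) * k⁻¹⁻¹ * (j (t * of a) * j (of g) * (j (t * of a))⁻¹)
  rw [← e1, ← map_inv, ← map_mul, ← map_mul, ← map_mul]
  exact congrArg j e2

end Pool.Agent.Helper495.E97
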