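import Mathlib
import Pool.Agent.Helper495.E97.T12
import Pool.Agent.Helper495.E97.Pairs

set_option autoImplicit false

namespace Pool.Agent.Helper495.E97

open HNNExtension HNNExtension.NormalWord

variable {G : Type*} [Group G] {V : Subgroup G}

/-- the centraliser extension -/
abbrev CX (V : Subgroup G) : Type _ := HNNExtension G V V (MulEquiv.refl V)

theorem two_syl (d : TransversalPair G V V) (l m r : G) (ε ε' : ℤˣ) (h : m ∈ V → ε = ε') :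
    len (MulEquiv.refl V) d (of l * t ^ (ε : ℤ) * of m * t ^ (ε' : ℤ) * of r : CX V) = 2 := by
  have h1 := len_of_red (MulEquiv.refl V) d l [(ε, m), (ε', r)] (by
    have : R V V (ε, m) (ε', r) := by
      intro hm
      apply h
      rcases Int.units_eq_one_or ε with rfl | rfl
      · exact hm
      · exact hm
    simp [this])
  have e : (of l * P (MulEquiv.refl V) [(ε, m), (ε', r)] : CX V) =
      of l * t ^ (ε : ℤ) * of m * t ^ (ε' : ℤ) * of r := by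
    simp only [P_cons, P_nil]
    group
  rw [e] at h1
  simpa using h1

theorem tz_comm (hG : Good V) (v : G) (hv : v ∈ V) (n : ℤ) :
    Commute (t ^ n : CX V) (of v) :=
  (show Commute t (of v) from (s1_data_self hG).tcomm v hv).zpow_left n

theorem zero_syl (hG : Good V) (l m r : G) (ε : ℤˣ) (h : m ∈ V) :
    (of l * t ^ (ε : ℤ) * of m * t ^ ((-ε : ℤˣ) : ℤ) * of r : CX V) = of (l * m * r) := by
  have h1 := tz_comm hG m h ε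
  have e : (t ^ ((-ε : ℤˣ) : ℤ) : CX V) = (t ^ (ε : ℤ))⁻¹ := by
    rw [Units.val_neg, zpow_neg]
  rw [mul_assoc (of l), h1.eq, e, map_mul, map_mul]
  group

/-- with and without the special elements -/
def XX (X : ℤˣ → G) : Bool → ℤˣ → G
  | false, _ => 1
  | true, σ => X σ

/-- letters -/
noncomputable def lt (V : Subgroup G) (X : ℤˣ → G) (β : Bool) (ε : ℤˣ) (w v : G) : CX V :=
  of (w * (XX X β (-ε))⁻¹) * t ^ (ε : ℤ) * of (XX X β ε * v)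

/-- pairs of letters -/
def SS (V : Subgroup G) (X Y : ℤˣ → G) : Set (CX V × CX V) :=
  {p | ∃ β ε, ∃ w ∈ V, ∃ v ∈ V, p = (lt V X β ε w v, lt V Y β ε w v)}

/-- classes of elements giving the edges -/
def ES (V : Subgroup G) (X : ℤˣ → G) (σ : ℤˣ) : Set G :=
  {g | g ∈ V ∨ ∃ w ∈ V, ∃ v ∈ V, g = w * X σ * v}

/-- the local condition -/
def LLc (V : Subgroup G) (X Y : ℤˣ → G) : Prop :=
  ∀ (σ₁ σ₂ : ℤˣ) (y g₁ g₂ g₁' g₂' : G), g₁ ∈ ES V X σ₁ → g₂ ∈ ES V X σ₂ → g₁' ∈ ES V Y σ₁ →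
    g₂' ∈ ES V Y σ₂ → (σ₁ = σ₂ → g₁ * g₂⁻¹ ∉ V) → g₁ * y * g₁'⁻¹ ∈ V → g₂ * y * g₂'⁻¹ ∈ V →
    y ∈ V

theorem XX_ES (X : ℤˣ → G) (β : Bool) (ε : ℤˣ) {v : G} (hv : v ∈ V) :
    XX X β ε * v ∈ ES V X ε := by
  cases β with
  | false => left; simpa [XX] using hv
  | true => exact Or.inr ⟨1, V.one_mem, v, hv, by simp [XX]⟩

theorem len_lt (d : TransversalPair G V V) (X : ℤˣ → G) (β : Bool) (ε : ℤˣ) (w v : G) :
    len (MulEquiv.refl V) d (lt V X β ε w v) = 1 := by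
  rw [lt, mul_assoc, len_of_mul, len_syl]

theorem lt_inv (X : ℤˣ → G) (β : Bool) (ε : ℤˣ) (w v : G) :
    (lt V X β ε w v)⁻¹ = lt V X β (-ε) v⁻¹ w⁻¹ := by
  simp only [lt, mul_inv_rev, neg_neg, Units.val_neg, zpow_neg, map_mul, map_inv, inv_inv]
  group

theorem lt_mul (X : ℤˣ → G) (β : Bool) (ε : ℤˣ) (w v u : G) :
    lt V X β ε w v * of u = lt V X β ε w (v * u) := by
  simp only [lt, map_mul]
  group

theorem lt_dich (hG : Good V) (d : TransversalPair G V V) (X : ℤˣ → G) (nX : ∀ σ, X σ ∉ V)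
    (β β' : Bool) (ε ε' : ℤˣ) (w v w' v' : G) (hv : v ∈ V) (hw' : w' ∈ V) :
    (len (MulEquiv.refl V) d (lt V X β ε w v * lt V X β' ε' w' v') = 2 ∧
      ¬ (ε' = -ε ∧ β = β' ∧ (β = true → v * w' = 1))) ∨
    ((ε' = -ε ∧ β = β' ∧ (β = true → v * w' = 1)) ∧
      lt V X β ε w v * lt V X β' ε' w' v' = of (w * (v * w') * v')) := by
  have e : lt V X β ε w v * lt V X β' ε' w' v' =
      of (w * (XX X β (-ε))⁻¹) * t ^ (ε : ℤ) * of (XX X β ε * (v * w') * (XX X β' (-ε'))⁻¹) *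
        t ^ (ε' : ℤ) * of (XX X β' ε' * v') := by
    simp only [lt, map_mul]
    group
  by_cases hc : ε' = -ε ∧ β = β' ∧ (β = true → v * w' = 1)
  · right
    refine ⟨hc, ?_⟩
    obtain ⟨h1, h2, h3⟩ := hc
    subst h1 h2
    rw [e, zero_syl hG]
    · congr 1
      cases β with
      | false => simp only [XX]; group
      | true =>
        rw [h3 rfl]
        simp only [neg_neg]
        group
    · cases β with
      | false =>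
        simp only [XX]
        have := V.mul_mem hv hw'
        simpa using this
      | true =>
        rw [h3 rfl]
        simp [V.one_mem]
  · left
    refine ⟨?_, hc⟩
    rw [e]
    apply two_syl
    intro hm
    by_contra hne
    have hε : ε' = -ε := by
      rcases Int.units_eq_one_or ε with rfl | rfl <;>
        rcases Int.units_eq_one_or ε' with rfl | rfl <;> simp_all
    apply hc
    rw [hε, neg_neg] at hm
    have hvw := V.mul_mem hv hw'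
    refine ⟨hε, ?_⟩
    cases β with
    | false =>
      cases β' with
      | false => exact ⟨rfl, fun h => by simp at h⟩
      | true =>
        exfalso
        simp only [XX, one_mul] at hm
        apply nX ε
        have h1 := V.mul_mem (V.inv_mem hvw) hm
        rw [inv_mul_cancel_left] at h1
        exact (Subgroup.inv_mem_iff _).1 h1
    | true =>
      cases β' with
      | false =>
        exfalso
        simp only [XX, inv_one, mul_one] at hm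
        apply nX ε
        have h1 := V.mul_mem hm (V.inv_mem hvw)
        rwa [mul_inv_cancel_right] at h1
      | true =>
        refine ⟨rfl, fun _ => ?_⟩
        by_contra h1
        exact nX ε (hG.mal _ hvw h1 _ hm)

theorem SS_PSys (hG : Good V) (d : TransversalPair G V V) (X Y : ℤˣ → G) (nX : ∀ σ, X σ ∉ V)
    (nY : ∀ σ, Y σ ∉ V) :
    PSys (hnnTree (MulEquiv.refl V) d) (V.map (of : G →* CX V)) (SS V X Y) where
  V0 := by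
    rintro _ ⟨v, hv, rfl⟩
    exact len_of (MulEquiv.refl V) d v
  L1 := by
    rintro _ ⟨β, ε, w, hw, v, hv, rfl⟩
    exact ⟨len_lt d X β ε w v, len_lt d Y β ε w v⟩
  mulV := by
    rintro _ ⟨β, ε, w, hw, v, hv, rfl⟩ _ ⟨u, hu, rfl⟩
    exact ⟨β, ε, w, hw, v * u, V.mul_mem hv hu, by simp only [lt_mul]⟩
  inv := by
    rintro _ ⟨β, ε, w, hw, v, hv, rfl⟩
    exact ⟨β, -ε, v⁻¹, V.inv_mem hv, w⁻¹, V.inv_mem hw, by simp only [lt_inv]⟩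
  dich := by
    rintro _ ⟨β, ε, w, hw, v, hv, rfl⟩ _ ⟨β', ε', w', hw', v', hv', rfl⟩
    rcases lt_dich hG d X nX β β' ε ε' w v w' v' hv hw' with ⟨h1, h2⟩ | ⟨h1, h2⟩
    · rcases lt_dich hG d Y nY β β' ε ε' w v w' v' hv hw' with ⟨k1, k2⟩ | ⟨k1, k2⟩
      · exact Or.inl ⟨h1, k1⟩
      · exact absurd k1 h2
    · rcases lt_dich hG d Y nY β β' ε ε' w v w' v' hv hw' with ⟨k1, k2⟩ | ⟨k1, k2⟩
      · exact absurd h1 k2
      · right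
        exact ⟨_, ⟨_, V.mul_mem (V.mul_mem hw (V.mul_mem hv hw')) hv', rfl⟩, h2, k2⟩

/-- same edge -/
theorem edge_eq (hG : Good V) (d : TransversalPair G V V) (l r l' r' y : G) (ε ε' : ℤˣ)
    (h : len (MulEquiv.refl V) d (of l * t ^ (ε : ℤ) * of r * of y *
      (of l' * t ^ (ε' : ℤ) * of r')⁻¹ : CX V) = 0) : ε = ε' ∧ r * y * r'⁻¹ ∈ V := by
  by_contra hne
  have h1 := two_syl d l (r * y * r'⁻¹) l'⁻¹ ε (-ε') (by
    intro hm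
    by_contra h1
    apply hne
    refine ⟨?_, hm⟩
    rcases Int.units_eq_one_or ε with rfl | rfl <;>
        rcases Int.units_eq_one_or ε' with rfl | rfl <;> simp_all)
  have e : (of l * t ^ (ε : ℤ) * of (r * y * r'⁻¹) * t ^ ((-ε' : ℤˣ) : ℤ) * of l'⁻¹ : CX V) =
      of l * t ^ (ε : ℤ) * of r * of y * (of l' * t ^ (ε' : ℤ) * of r')⁻¹ := by
    simp only [mul_inv_rev, Units.val_neg, zpow_neg, map_mul, map_inv]
    group
  rw [e, h] at h1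
  simp at h1

theorem edge_two (hG : Good V) (d : TransversalPair G V V) (l r l' r' : G) (ε ε' : ℤˣ)
    (h : len (MulEquiv.refl V) d (of l * t ^ (ε : ℤ) * of r *
      (of l' * t ^ (ε' : ℤ) * of r')⁻¹ : CX V) = 2) : ε = ε' → r * r'⁻¹ ∉ V := by
  rintro rfl hm
  have e : (of l * t ^ (ε : ℤ) * of (r * r'⁻¹) * t ^ ((-ε : ℤˣ) : ℤ) * of l'⁻¹ : CX V) =
      of l * t ^ (ε : ℤ) * of r * (of l' * t ^ (ε : ℤ) * of r')⁻¹ := by
    simp only [mul_inv_rev, Units.val_neg, zpow_neg, map_mul, map_inv]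
    group
  rw [← e, zero_syl hG _ _ _ _ hm, len_of] at h
  simp at h

theorem LLH (hG : Good V) (d : TransversalPair G V V) (X Y : ℤˣ → G) (hXY : LLc V X Y)
    (y : CX V) (hy : (hnnTree (MulEquiv.refl V) d).L y = 0)
    (β₁ β₂ β₁' β₂' : Bool) (ε₁ ε₂ ε₁' ε₂' : ℤˣ) (w₁ w₂ w₁' w₂' v₁ v₂ v₁' v₂' : G)
    (hv₁ : v₁ ∈ V) (hv₂ : v₂ ∈ V) (hv₁' : v₁' ∈ V) (hv₂' : v₂' ∈ V)
    (h0 : (hnnTree (MulEquiv.refl V) d).L (lt V X β₁ ε₁ w₁ v₁ * (lt V X β₂ ε₂ w₂ v₂)⁻¹) = 2)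
    (h1 : (hnnTree (MulEquiv.refl V) d).L (lt V X β₁ ε₁ w₁ v₁ * y * (lt V Y β₁' ε₁' w₁' v₁')⁻¹) = 0)
    (h2 : (hnnTree (MulEquiv.refl V) d).L
      (lt V X β₂ ε₂ w₂ v₂ * y * (lt V Y β₂' ε₂' w₂' v₂')⁻¹) = 0) :
    y ∈ V.map (of : G →* CX V) := by
  obtain ⟨y, rfl⟩ := (len_eq_zero_iff (MulEquiv.refl V) d y).1 hy
  simp only [hnnTree_L, lt] at h0 h1 h2
  have k0 := edge_two hG d _ _ _ _ _ _ h0
  obtain ⟨rfl, k1⟩ := edge_eq hG d _ _ _ _ _ _ _ h1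
  obtain ⟨rfl, k2⟩ := edge_eq hG d _ _ _ _ _ _ _ h2
  exact ⟨y, hXY ε₁ ε₂ y _ _ _ _ (XX_ES X β₁ ε₁ hv₁) (XX_ES X β₂ ε₂ hv₂) (XX_ES Y β₁' ε₁ hv₁')
    (XX_ES Y β₂' ε₂ hv₂') k0 k1 k2, rfl⟩

theorem T3b (hG : Good V) (X Y : ℤˣ → G) (nX : ∀ σ, X σ ∉ V) (nY : ∀ σ, Y σ ∉ V)
    (hXX : LLc V X X) (hYY : LLc V Y Y) (hXY : LLc V X Y)
    (hdis : ∀ σ, ∀ w ∈ V, ∀ v ∈ V, X σ ≠ w * Y σ * v) :
    ∃ (A B : Subgroup (CX V)) (ψ : A ≃* B), S1Data (Vt (s1_data_self hG)) ψ ∧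
      ∃ hb : (of (X (-1)))⁻¹ * t * of (X 1) ∈ A,
        (ψ ⟨_, hb⟩ : CX V) = (of (Y (-1)))⁻¹ * t * of (Y 1) := by
  obtain ⟨d⟩ := TransversalPair.nonempty G V V
  have hS := SS_PSys hG d X Y nX nY
  have hmal := S1_mal (s1_data_self hG) hG
  have hKD : ∀ k ∈ Vt (s1_data_self hG), (k, k) ∈ DD (V.map (of : G →* CX V)) (SS V X Y) := by
    rintro _ ⟨v, hv, n, rfl⟩
    have h1 : ((of v, of v) : CX V × CX V) ∈ DD (V.map (of : G →* CX V)) (SS V X Y) :=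
      V_DD ⟨v, hv, rfl⟩
    have h2 : ((t, t) : CX V × CX V) ∈ DD (V.map (of : G →* CX V)) (SS V X Y) := by
      apply S_DD
      refine ⟨false, 1, 1, V.one_mem, 1, V.one_mem, ?_⟩
      simp [lt, XX]
    have h3 := Subgroup.mul_mem _ h1 (Subgroup.zpow_mem _ h2 n)
    exact h3
  have hbD : ((of (X (-1)))⁻¹ * t * of (X 1), (of (Y (-1)))⁻¹ * t * of (Y 1)) ∈
      DD (V.map (of : G →* CX V)) (SS V X Y) := by
    apply S_DD
    refine ⟨true, 1, 1, V.one_mem, 1, V.one_mem, ?_⟩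
    simp [lt, XX]
  have hK1 : Vt (s1_data_self hG) ≤ (D1 (V.map (of : G →* CX V)) (SS V X Y)).range :=
    fun k hk => mem_D1.2 ⟨k, hKD k hk⟩
  have hK2 : Vt (s1_data_self hG) ≤ (D2 (V.map (of : G →* CX V)) (SS V X Y)).range :=
    fun k hk => mem_D2.2 ⟨k, hKD k hk⟩
  have hVK : V.map (of : G →* CX V) ≤ Vt (s1_data_self hG) := by
    rintro _ ⟨v, hv, rfl⟩
    exact of_mem_Vt _ hv
  have hK : ∀ v ∈ V.map (of : G →* CX V), v ≠ 1 → ∀ g, g * v * g⁻¹ ∈ V.map (of : G →* CX V) →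
      g ∈ Vt (s1_data_self hG) := fun v hv hv1 g hg => hmal v (hVK hv) hv1 g (hVK hg)
  have c1 := conv1 hS
  have c2 := conv2 hS
  have LAA : ∀ y, (hnnTree (MulEquiv.refl V) d).L y = 0 →
      ∀ s₁ ∈ {s | ∃ s', (s, s') ∈ SS V X Y}, ∀ s₂ ∈ {s | ∃ s', (s, s') ∈ SS V X Y},
      ∀ s₁' ∈ {s | ∃ s', (s, s') ∈ SS V X Y}, ∀ s₂' ∈ {s | ∃ s', (s, s') ∈ SS V X Y},
      (hnnTree (MulEquiv.refl V) d).L (s₁ * s₂⁻¹) = 2 →
      (hnnTree (MulEquiv.refl V) d).L (s₁ * y * s₁'⁻¹) = 0 →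
      (hnnTree (MulEquiv.refl V) d).L (s₂ * y * s₂'⁻¹) = 0 → y ∈ V.map (of : G →* CX V) := by
    rintro y hy s₁ ⟨s₁₀, β₁, ε₁, w₁, hw₁, v₁, hv₁, e₁⟩ s₂ ⟨s₂₀, β₂, ε₂, w₂, hw₂, v₂, hv₂, e₂⟩
      s₁' ⟨s₁₀', β₁', ε₁', w₁', hw₁', v₁', hv₁', e₁'⟩
      s₂' ⟨s₂₀', β₂', ε₂', w₂', hw₂', v₂', hv₂', e₂'⟩ h0 h1 h2
    rw [Prod.mk.injEq] at e₁ e₂ e₁' e₂'
    rw [e₁.1, e₂.1] at h0
    rw [e₁.1, e₁'.1] at h1
    rw [e₂.1, e₂'.1] at h2
    exact LLH hG d X X hXX y hy _ _ _ _ _ _ _ _ _ _ _ _ _ _ _ _ hv₁ hv₂ hv₁' hv₂' h0 h1 h2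
  have LBB : ∀ y, (hnnTree (MulEquiv.refl V) d).L y = 0 →
      ∀ s₁ ∈ {s | ∃ s', (s', s) ∈ SS V X Y}, ∀ s₂ ∈ {s | ∃ s', (s', s) ∈ SS V X Y},
      ∀ s₁' ∈ {s | ∃ s', (s', s) ∈ SS V X Y}, ∀ s₂' ∈ {s | ∃ s', (s', s) ∈ SS V X Y},
      (hnnTree (MulEquiv.refl V) d).L (s₁ * s₂⁻¹) = 2 →
      (hnnTree (MulEquiv.refl V) d).L (s₁ * y * s₁'⁻¹) = 0 →
      (hnnTree (MulEquiv.refl V) d).L (s₂ * y * s₂'⁻¹) = 0 → y ∈ V.map (of : G →* CX V) := by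
    rintro y hy s₁ ⟨s₁₀, β₁, ε₁, w₁, hw₁, v₁, hv₁, e₁⟩ s₂ ⟨s₂₀, β₂, ε₂, w₂, hw₂, v₂, hv₂, e₂⟩
      s₁' ⟨s₁₀', β₁', ε₁', w₁', hw₁', v₁', hv₁', e₁'⟩
      s₂' ⟨s₂₀', β₂', ε₂', w₂', hw₂', v₂', hv₂', e₂'⟩ h0 h1 h2
    rw [Prod.mk.injEq] at e₁ e₂ e₁' e₂'
    rw [e₁.2, e₂.2] at h0
    rw [e₁.2, e₁'.2] at h1
    rw [e₂.2, e₂'.2] at h2
    exact LLH hG d Y Y hYY y hy _ _ _ _ _ _ _ _ _ _ _ _ _ _ _ _ hv₁ hv₂ hv₁' hv₂' h0 h1 h2
  have LAB : ∀ y, (hnnTree (MulEquiv.refl V) d).L y = 0 →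
      ∀ s₁ ∈ {s | ∃ s', (s, s') ∈ SS V X Y}, ∀ s₂ ∈ {s | ∃ s', (s, s') ∈ SS V X Y},
      ∀ s₁' ∈ {s | ∃ s', (s', s) ∈ SS V X Y}, ∀ s₂' ∈ {s | ∃ s', (s', s) ∈ SS V X Y},
      (hnnTree (MulEquiv.refl V) d).L (s₁ * s₂⁻¹) = 2 →
      (hnnTree (MulEquiv.refl V) d).L (s₁ * y * s₁'⁻¹) = 0 →
      (hnnTree (MulEquiv.refl V) d).L (s₂ * y * s₂'⁻¹) = 0 → y ∈ V.map (of : G →* CX V) := by
    rintro y hy s₁ ⟨s₁₀, β₁, ε₁, w₁, hw₁, v₁, hv₁, e₁⟩ s₂ ⟨s₂₀, β₂, ε₂, w₂, hw₂, v₂, hv₂, e₂⟩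
      s₁' ⟨s₁₀', β₁', ε₁', w₁', hw₁', v₁', hv₁', e₁'⟩
      s₂' ⟨s₂₀', β₂', ε₂', w₂', hw₂', v₂', hv₂', e₂'⟩ h0 h1 h2
    rw [Prod.mk.injEq] at e₁ e₂ e₁' e₂'
    rw [e₁.1, e₂.1] at h0
    rw [e₁.1, e₁'.2] at h1
    rw [e₂.1, e₂'.2] at h2
    exact LLH hG d X Y hXY y hy _ _ _ _ _ _ _ _ _ _ _ _ _ _ _ _ hv₁ hv₂ hv₁' hv₂' h0 h1 h2
  refine ⟨_, _, DDiso hS, ?_, mem_D1.2 ⟨_, hbD⟩, DDiso_apply hS hbD _⟩
  refine ⟨hK1, hK2, ?_, ?_, ?_, ?_, ?_⟩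
  · intro v hv
    exact DDiso_apply hS (hKD v hv) _
  · intro g hg hg1 a ha
    obtain ⟨y, hy, z, hz, e⟩ := (hnnTree (MulEquiv.refl V) d).overlap c1 c1 hK1 hK LAA hg ha hg1
      (x := a) (by group)
    rw [e]; exact Subgroup.mul_mem _ hy hz
  · intro g hg hg1 a ha
    obtain ⟨y, hy, z, hz, e⟩ := (hnnTree (MulEquiv.refl V) d).overlap c2 c2 hK2 hK LBB hg ha hg1
      (x := a) (by group)
    rw [e]; exact Subgroup.mul_mem _ hy hz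
  · refine (hnnTree (MulEquiv.refl V) d).inter c1 c2 hVK hK2 ?_
    rintro s ⟨s₀, β, ε, w, hw, v, hv, e⟩ s' ⟨s₀', β', ε', w', hw', v', hv', e'⟩ h
    rw [Prod.mk.injEq] at e e'
    rw [e.1, e'.2] at h
    rw [e.1]
    have h' : len (MulEquiv.refl V) d (of (w * (XX X β (-ε))⁻¹) * t ^ (ε : ℤ) *
        of (XX X β ε * v) * of 1 *
        (of (w' * (XX Y β' (-ε'))⁻¹) * t ^ (ε' : ℤ) * of (XX Y β' ε' * v'))⁻¹ : CX V) = 0 := by
      rw [map_one, mul_one]; exact h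
    obtain ⟨rfl, k⟩ := edge_eq hG d _ _ _ _ _ _ _ h'
    cases β with
    | false =>
      refine ⟨w * v, V.mul_mem hw hv, ε, ?_⟩
      have := tz_comm hG v hv ε
      simp only [lt, XX, inv_one, mul_one, one_mul]
      rw [mul_assoc, this.eq, ← mul_assoc, ← map_mul]
    | true =>
      exfalso
      cases β' with
      | false =>
        simp only [XX, one_mul, mul_one] at k
        apply nX ε
        have k1 := V.mul_mem (V.mul_mem k hv') (V.inv_mem hv)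
        have e3 : X ε * v * v'⁻¹ * v' * v⁻¹ = X ε := by group
        rwa [e3] at k1
      | true =>
        simp only [XX, mul_one] at k
        apply hdis ε _ k (v' * v⁻¹) (V.mul_mem hv' (V.inv_mem hv))
        group
  · intro x a ha ha1 hx
    obtain ⟨y, hy, z, hz, e⟩ := (hnnTree (MulEquiv.refl V) d).overlap c1 c2 hK1 hK LAB ha hx ha1
      (x := x) (by group)
    exact ⟨y, hy, z, hz, e⟩

end Pool.Agent.Helper495.E97
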