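import Mathlib
import Pool.Agent.Helper495.E97.T3b

set_option autoImplicit false

namespace Pool.Agent.Helper495.E97

open HNNExtension HNNExtension.NormalWord

variable {G : Type*} [Group G] {V : Subgroup G}

/-- the enlarged abelian subgroup -/
abbrev VV (hG : Good V) : Subgroup (CX V) := Vt (s1_data_self hG)

/-- the tree of the centraliser extension -/
noncomputable abbrev TT (d : TransversalPair G V V) : TreeLength (CX V) :=
  hnnTree (MulEquiv.refl V) d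

theorem TL_of (d : TransversalPair G V V) (g : G) : (TT d).L (of g) = 0 :=
  len_of (MulEquiv.refl V) d g

theorem TL_t (d : TransversalPair G V V) (i : ℤ) : (TT d).L (t ^ i) = i.natAbs :=
  len_t_zpow (MulEquiv.refl V) d i

theorem c_tt (d : TransversalPair G V V) (i j : ℤ) :
    2 * (TT d).c (t ^ i) (t ^ j) + (i - j).natAbs = i.natAbs + j.natAbs := by
  have := (TT d).hc (t ^ i) (t ^ j)
  rw [← zpow_neg, ← zpow_add, TL_t, TL_t, TL_t] at this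
  rw [← this]; congr 1

theorem exists_sign {i : ℤ} (hi : i ≠ 0) : ∃ ε : ℤˣ, (i - ε).natAbs + 1 = i.natAbs := by
  rcases lt_or_gt_of_ne hi with h | h
  · refine ⟨-1, ?_⟩
    simp only [Units.val_neg, Units.val_one]
    omega
  · refine ⟨1, ?_⟩
    simp only [Units.val_one]
    omega

theorem natAbs_unit (ε : ℤˣ) : (ε : ℤ).natAbs = 1 := by
  rcases Int.units_eq_one_or ε with rfl | rfl <;> rfl

theorem K1 (hG : Good V) (d : TransversalPair G V V) {h : G} (hh : h ∉ V) (i j : ℤ) :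
    (TT d).c (t ^ i * of h) (t ^ j) = 0 := by
  by_contra hne
  have hpos : 0 < (TT d).c (t ^ i * of h) (t ^ j) := by omega
  have h1 := (TT d).c_le_left (t ^ i * of h) (t ^ j)
  have h2 := (TT d).c_le_right (t ^ i * of h) (t ^ j)
  rw [(TT d).L_mul_right0 (TL_of d h), TL_t] at h1
  rw [TL_t] at h2
  obtain ⟨ε, hε⟩ := exists_sign (i := i) (by omega)
  obtain ⟨δ, hδ⟩ := exists_sign (i := j) (by omega)
  have hε1 := natAbs_unit ε
  have hδ1 := natAbs_unit δ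
  have a1 : 0 < (TT d).c (t ^ (ε : ℤ) * of h) (t ^ i * of h) := by
    rw [(TT d).c_mul_right0 (TL_of d h), (TT d).c_comm]
    have := c_tt d i ε
    omega
  have a2 : 0 < (TT d).c (t ^ j) (t ^ (δ : ℤ)) := by
    have := c_tt d j δ
    omega
  have a3 := (TT d).pos_trans a1 ((TT d).pos_trans hpos a2)
  have a4 := (TT d).c_one_iff (by rw [(TT d).L_mul_right0 (TL_of d h), TL_t, hε1])
    (by rw [TL_t, hδ1]) a3
  have a5 := two_syl d 1 h 1 ε (-δ) (fun hm => absurd hm hh)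
  have e : (of 1 * t ^ (ε : ℤ) * of h * t ^ ((-δ : ℤˣ) : ℤ) * of 1 : CX V) =
      t ^ (ε : ℤ) * of h * (t ^ (δ : ℤ))⁻¹ := by
    simp only [map_one, Units.val_neg, zpow_neg]
    group
  rw [e] at a5
  simp only [hnnTree_L] at a4
  rw [a4] at a5
  simp at a5

/-- words ending in a syllable outside V -/
def RW (hG : Good V) (d : TransversalPair G V V) (z : CX V) : Prop :=
  z ∉ VV hG ∧ ∀ w ∈ VV hG, ∀ j : ℤ, (TT d).c (w * z) (t ^ j) = 0

variable {hG : Good V} {d : TransversalPair G V V}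

theorem RW.of {h : G} (hh : h ∉ V) : RW hG d (HNNExtension.of h) := by
  refine ⟨fun h' => hh ((of_mem_Vt_iff _).1 h'), ?_⟩
  rintro w ⟨v, hv, i, rfl⟩ j
  rw [mul_assoc, (TT d).c_mul_left0 (TL_of d v)]
  exact K1 hG d hh i j

theorem RW.left {z w : CX V} (hz : RW hG d z) (hw : w ∈ VV hG) : RW hG d (w * z) := by
  refine ⟨fun h => hz.1 (by
    have := Subgroup.mul_mem _ (Subgroup.inv_mem _ hw) h
    rwa [inv_mul_cancel_left] at this), ?_⟩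
  intro w' hw' j
  rw [← mul_assoc]
  exact hz.2 _ (Subgroup.mul_mem _ hw' hw) j

theorem RW.c_inv {z w : CX V} (hz : RW hG d z) (hw : w ∈ VV hG) (m : ℤ) (h : G) :
    (TT d).c (w * z) (t ^ m * HNNExtension.of h)⁻¹ = 0 := by
  rw [mul_inv_rev, ← map_inv, (TT d).c_mul_left0' (TL_of d _), ← zpow_neg]
  exact hz.2 w hw (-m)

theorem RW.snoc {z : CX V} (hz : RW hG d z) {m : ℤ} (hm : m ≠ 0) {h : G} (hh : h ∉ V) :
    RW hG d (z * t ^ m * HNNExtension.of h) := by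
  have hL : (TT d).L (t ^ m * HNNExtension.of h) = m.natAbs := by
    rw [(TT d).L_mul_right0 (TL_of d h), TL_t]
  refine ⟨?_, ?_⟩
  · intro hmem
    have h1 := hz.c_inv (Subgroup.inv_mem _ hmem) m h
    rw [← (TT d).add_iff, hL] at h1
    have e : (z * t ^ m * HNNExtension.of h)⁻¹ * z * (t ^ m * HNNExtension.of h) = 1 := by group
    rw [e, (TT d).L_one] at h1
    omega
  · intro w hw j
    have h1 := hz.c_inv hw m h
    have e : w * (z * t ^ m * HNNExtension.of h) = w * z * (t ^ m * HNNExtension.of h) := by group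
    rw [e]
    apply (TT d).zero_trans (y := t ^ m * HNNExtension.of h) _ (K1 hG d hh m j)
    rw [(TT d).c_mul_self h1, hL]; omega

theorem RW.glue {z : CX V} (hz : RW hG d z) {m : ℤ} (hm : m ≠ 0) {h₂ h : G} (hh₂ : h₂ ∉ V)
    (hh : h ∉ V) {v : CX V} (hv : v ∈ VV hG)
    (hj : ∀ v₀ ∈ V, v = HNNExtension.of v₀ → h₂ * v₀ * h ∉ V) :
    RW hG d (z * t ^ m * HNNExtension.of h₂ * v * HNNExtension.of h) := by
  obtain ⟨v₀, hv₀, i, rfl⟩ := hv
  by_cases hi : i = 0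
  · subst hi
    have h1 := hj v₀ hv₀ (by simp)
    have h2 := hz.snoc hm h1
    have e : z * t ^ m * HNNExtension.of h₂ * (HNNExtension.of v₀ * t ^ (0 : ℤ)) *
        HNNExtension.of h = z * t ^ m * HNNExtension.of (h₂ * v₀ * h) := by
      simp only [map_mul, zpow_zero]; group
    rwa [e]
  · have h1 : h₂ * v₀ ∉ V := fun h' => hh₂ (by
      have := V.mul_mem h' (V.inv_mem hv₀)
      rwa [mul_inv_cancel_right] at this)
    have h2 := (hz.snoc hm h1).snoc hi hh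
    have e : z * t ^ m * HNNExtension.of h₂ * (HNNExtension.of v₀ * t ^ i) *
        HNNExtension.of h = z * t ^ m * HNNExtension.of (h₂ * v₀) * t ^ i *
        HNNExtension.of h := by
      simp only [map_mul]; group
    rwa [e]

theorem tv_comm (hG : Good V) (v : G) (hv : v ∈ V) (n : ℤ) :
    (t ^ n * of v : CX V) = of v * t ^ n := (tz_comm hG v hv n).eq

/-- uniqueness of the last block -/
theorem uniq {z₁ z₂ w τ : CX V} (h1 : RW hG d z₁) (h2 : RW hG d z₂) {m m' : ℤ} (hm : m ≠ 0)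
    (hm' : m' ≠ 0) {h h' : G} (hh : h ∉ V) (hh' : h' ∉ V) (hw : w ∈ VV hG) (hτ : τ ∈ VV hG)
    (e : z₁ * t ^ m * of h = w * z₂ * t ^ m' * of h' * τ) :
    m = m' ∧ ∃ τ₀ ∈ V, τ = of τ₀ ∧ h * τ₀⁻¹ * h'⁻¹ ∈ V := by
  obtain ⟨τ₀, hτ₀, i, rfl⟩ := hτ
  have hE := (h2.snoc hm' hh').left hw
  have hi : i = 0 := by
    by_contra hi
    have a1 := (h1.snoc hm hh).2 1 (Subgroup.one_mem _) i
    rw [one_mul] at a1
    have a2 : (TT d).c (w * (z₂ * t ^ m' * of h')) (of τ₀ * t ^ i)⁻¹ = 0 := by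
      have := hE.2 1 (Subgroup.one_mem _) (-i)
      rw [one_mul] at this
      rw [mul_inv_rev, ← zpow_neg, ← map_inv, tv_comm hG _ (V.inv_mem hτ₀),
        (TT d).c_mul_left0' (TL_of d _)]
      exact this
    have a3 := (TT d).c_mul_self a2
    have hL : (TT d).L (of τ₀ * t ^ i) = i.natAbs := by
      rw [(TT d).L_mul_left0 (TL_of d _), TL_t]
    rw [hL] at a3
    have a4 : 0 < (TT d).c (of τ₀ * t ^ i) (t ^ i) := by
      rw [(TT d).c_mul_left0 (TL_of d _), (TT d).c_self, TL_t]; omega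
    have a5 := (TT d).pos_trans (by rw [a3]; omega) a4
    have e' : w * (z₂ * t ^ m' * of h') * (of τ₀ * t ^ i) = z₁ * t ^ m * of h := by
      rw [e]; group
    rw [e', a1] at a5
    exact absurd a5 (lt_irrefl _)
  subst hi
  rw [zpow_zero, mul_one] at e ⊢
  -- the element
  have e1 : z₁ * (t ^ m * of (h * τ₀⁻¹)) = w * z₂ * (t ^ m' * of h') := by
    have : z₁ * (t ^ m * of (h * τ₀⁻¹)) = z₁ * t ^ m * of h * (of τ₀)⁻¹ := by
      rw [map_mul, map_inv]; group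
    rw [this, e]; group
  have b1 : 0 < (TT d).c (t ^ m * of (h * τ₀⁻¹)) (z₁ * (t ^ m * of (h * τ₀⁻¹))) := by
    have := h1.c_inv (Subgroup.one_mem _) m (h * τ₀⁻¹)
    rw [one_mul] at this
    rw [(TT d).c_comm, (TT d).c_mul_self this, (TT d).L_mul_right0 (TL_of d _), TL_t]
    omega
  have b2 : 0 < (TT d).c (w * z₂ * (t ^ m' * of h')) (t ^ m' * of h') := by
    have := h2.c_inv hw m' h'
    rw [(TT d).c_mul_self this, (TT d).L_mul_right0 (TL_of d _), TL_t]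
    omega
  rw [e1] at b1
  have b3 := (TT d).pos_trans b1 b2
  have b4 : 0 < (TT d).c (t ^ m * of (h * τ₀⁻¹ * h'⁻¹)) (t ^ m') := by
    have e2 : (t ^ m * of (h * τ₀⁻¹) : CX V) = t ^ m * of (h * τ₀⁻¹ * h'⁻¹) * of h' := by
      rw [mul_assoc, ← map_mul, inv_mul_cancel_right]
    rw [e2, (TT d).c_mul_right0 (TL_of d _)] at b3
    exact b3
  have b5 : h * τ₀⁻¹ * h'⁻¹ ∈ V := by
    by_contra hne
    have := K1 hG d hne m m'
    omega
  refine ⟨?_, τ₀, hτ₀, rfl, b5⟩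
  by_contra hne
  set v := h * τ₀⁻¹ * h'⁻¹ with hv
  have e3 : z₁ * of v * t ^ (m - m') = w * z₂ := by
    have e4 : z₁ * (t ^ m * of (h * τ₀⁻¹)) = z₁ * (t ^ m * of v) * of h' := by
      rw [hv, mul_assoc z₁, mul_assoc (t ^ m), ← map_mul, inv_mul_cancel_right]
    rw [e4, tv_comm hG v b5] at e1
    have e5 : z₁ * of v * t ^ (m - m') = z₁ * (of v * t ^ m) * of h' * (of h')⁻¹ * t ^ (-m') := by
      rw [sub_eq_add_neg, zpow_add]; group
    rw [e5, e1]; group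
  have c1 : (TT d).c (z₁ * of v) (t ^ (m - m'))⁻¹ = 0 := by
    have h3 : (t ^ (m - m') : CX V)⁻¹ = t ^ (-(m - m')) * of v⁻¹ * of v := by
      rw [mul_assoc, ← map_mul, inv_mul_cancel, map_one, mul_one, zpow_neg]
    rw [h3, (TT d).c_mul_right0 (TL_of d _), tv_comm hG _ (V.inv_mem b5),
      (TT d).c_mul_left0' (TL_of d _)]
    have := h1.2 1 (Subgroup.one_mem _) (-(m - m'))
    rwa [one_mul] at this
  have c2 := (TT d).c_mul_self c1
  rw [e3, h2.2 w hw, TL_t] at c2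
  omega

/-- block data of a word -/
structure Wd (hG : Good V) (d : TransversalPair G V V) (Z : CX V) (k : ℤ) (α : G) : Prop where
  hk : k ≠ 0
  hα : α ∉ V
  fwd : ∃ z, RW hG d z ∧ Z = z * t ^ k * of α
  bwd : ∃ s, RW hG d s ∧ Z⁻¹ = s * t ^ (-k) * of α⁻¹ ∧
    ∀ (z : CX V) (m : ℤ) (h₂ : G) (v : CX V), RW hG d z → m ≠ 0 → h₂ ∉ V → v ∈ VV hG →
      (∀ v₀ ∈ V, v = of v₀ → h₂ * v₀ * α⁻¹ ∉ V) → RW hG d (z * t ^ m * of h₂ * v * s)

/-- a system of two words -/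
structure WSys (hG : Good V) (d : TransversalPair G V V) (X : ℤˣ → CX V) (k : ℤˣ → ℤ)
    (α : ℤˣ → G) : Prop where
  wd : ∀ σ, Wd hG d (X σ) (k σ) (α σ)
  jn : ∀ σ₁ σ₂, ∀ v₀ ∈ V, α σ₂ * v₀ * (α σ₁)⁻¹ ∈ V → σ₁ = σ₂ ∧ v₀ = 1
  val : ∀ σ, k σ = 2 ∨ k σ = -1

/-- block predicate -/
def FB (hG : Good V) (d : TransversalPair G V V) (z τ : CX V) (m : ℤ) (h : G) : Prop :=
  τ ∈ VV hG ∧ m ≠ 0 ∧ h ∉ V ∧ ∃ z₁, RW hG d z₁ ∧ z * τ = z₁ * t ^ m * of h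

theorem FB.not_mem {z τ : CX V} {m : ℤ} {h : G} (H : FB hG d z τ m h) : z ∉ VV hG := by
  obtain ⟨hτ, hm, hh, z₁, hz₁, e⟩ := H
  intro hz
  apply (hz₁.snoc hm hh).1
  rw [← e]
  exact Subgroup.mul_mem _ hz hτ

theorem FB.uniq {z z' w w' τ τ' : CX V} {m m' : ℤ} {h h' : G} (H : FB hG d z τ m h)
    (H' : FB hG d z' τ' m' h') (hw : w ∈ VV hG) (hw' : w' ∈ VV hG) (e : z = w * z' * w') :
    m = m' ∧ ∃ τ₀ ∈ V, τ'⁻¹ * w' * τ = of τ₀ ∧ h * τ₀⁻¹ * h'⁻¹ ∈ V := by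
  obtain ⟨hτ, hm, hh, z₁, hz₁, e1⟩ := H
  obtain ⟨hτ', hm', hh', z₂, hz₂, e2⟩ := H'
  have e3 : z₁ * t ^ m * of h = w * z₂ * t ^ m' * of h' * (τ'⁻¹ * w' * τ) := by
    rw [← e1, e]
    have : w * z₂ * t ^ m' * of h' = w * (z₂ * t ^ m' * of h') := by group
    rw [this, ← e2]; group
  obtain ⟨h1, τ₀, h2, h3, h4⟩ := Pool.Agent.Helper495.E97.uniq hz₁ hz₂ hm hm' hh hh' hw
    (Subgroup.mul_mem _ (Subgroup.mul_mem _ (Subgroup.inv_mem _ hτ') hw') hτ) e3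
  exact ⟨h1, τ₀, h2, h3, h4⟩

theorem inv_not_mem {α : G} (h : α ∉ V) : α⁻¹ ∉ V := fun h' => h ((Subgroup.inv_mem_iff _).1 h')

variable {X Y : ℤˣ → CX V} {kX kY : ℤˣ → ℤ} {αX αY : ℤˣ → G}

/-- first element in V -/
theorem WSys.FB1 (hX : WSys hG d X kX αX) {σ : ℤˣ} {g w v : CX V} (hg : g ∈ VV hG)
    (hw : w ∈ VV hG) (hv : v ∈ VV hG) :
    FB hG d (w * X σ * v * g⁻¹) (g * v⁻¹) (kX σ) (αX σ) := by
  obtain ⟨hk, hα, ⟨z, hz, e⟩, -⟩ := hX.wd σ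
  refine ⟨Subgroup.mul_mem _ hg (Subgroup.inv_mem _ hv), hk, hα, w * z, hz.left hw, ?_⟩
  rw [e]; group

theorem WSys.FB2 (hX : WSys hG d X kX αX) {σ₁ σ₂ : ℤˣ} {g₂ w v : CX V}
    (hw : w ∈ VV hG) (hv : v ∈ VV hG) (hg₂ : g₂ ∈ ES (VV hG) X σ₂)
    (hne : σ₁ = σ₂ → (w * X σ₁ * v) * g₂⁻¹ ∉ VV hG) :
    FB hG d (g₂ * (w * X σ₁ * v)⁻¹) w (-kX σ₁) (αX σ₁)⁻¹ := by
  obtain ⟨hk, hα, -, ⟨s, hs, e, hglue⟩⟩ := hX.wd σ₁
  refine ⟨hw, neg_ne_zero.2 hk, inv_not_mem hα, ?_⟩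
  rcases hg₂ with hg₂ | ⟨w₂, hw₂, v₂, hv₂, rfl⟩
  · refine ⟨g₂ * v⁻¹ * s, hs.left (Subgroup.mul_mem _ hg₂ (Subgroup.inv_mem _ hv)), ?_⟩
    have e1 : g₂ * (w * X σ₁ * v)⁻¹ * w = g₂ * v⁻¹ * (X σ₁)⁻¹ := by group
    rw [e1, e]; group
  · obtain ⟨hk₂, hα₂, ⟨z₂, hz₂, e₂⟩, -⟩ := hX.wd σ₂
    refine ⟨w₂ * (z₂ * t ^ (kX σ₂) * of (αX σ₂) * (v₂ * v⁻¹) * s), ?_, ?_⟩
    · apply RW.left _ hw₂
      apply hglue z₂ _ _ _ hz₂ hk₂ hα₂ (Subgroup.mul_mem _ hv₂ (Subgroup.inv_mem _ hv))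
      intro v₀ hv₀ hvv hmem
      obtain ⟨rfl, rfl⟩ := hX.jn σ₁ σ₂ v₀ hv₀ hmem
      apply hne rfl
      rw [map_one, mul_inv_eq_one] at hvv
      subst hvv
      have e3 : w * X σ₁ * v₂ * (w₂ * X σ₁ * v₂)⁻¹ = w * w₂⁻¹ := by group
      rw [e3]
      exact Subgroup.mul_mem _ hw (Subgroup.inv_mem _ hw₂)
    · have e1 : w₂ * X σ₂ * v₂ * (w * X σ₁ * v)⁻¹ * w = w₂ * X σ₂ * v₂ * v⁻¹ * (X σ₁)⁻¹ := by
        group
      rw [e1, e, e₂]; group

theorem LL_of (hX : WSys hG d X kX αX) (hY : WSys hG d Y kY αY)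
    (hXY : ∀ σ, kX σ = kY σ → X σ = Y σ ∧ αX σ = αY σ) : LLc (VV hG) X Y := by
  intro σ₁ σ₂ y g₁ g₂ g₁' g₂' h1 h2 h1' h2' hne hw₁ hw₂
  set w₁ := g₁ * y * g₁'⁻¹ with hw₁d
  set w₂ := g₂ * y * g₂'⁻¹ with hw₂d
  have e0 : g₂ * g₁⁻¹ = w₂ * (g₂' * g₁'⁻¹) * w₁⁻¹ := by rw [hw₁d, hw₂d]; group
  have e0' : g₂' * g₁'⁻¹ = w₂⁻¹ * (g₂ * g₁⁻¹) * w₁ := by rw [e0]; group
  have hne' : σ₁ = σ₂ → g₁' * g₂'⁻¹ ∉ VV hG := by
    intro hσ hmem
    apply hne hσ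
    have e1 : g₁ * g₂⁻¹ = w₁ * (g₁' * g₂'⁻¹) * w₂⁻¹ := by rw [hw₁d, hw₂d]; group
    rw [e1]
    exact Subgroup.mul_mem _ (Subgroup.mul_mem _ hw₁ hmem) (Subgroup.inv_mem _ hw₂)
  have hw₁i := Subgroup.inv_mem _ hw₁
  have hw₂i := Subgroup.inv_mem _ hw₂
  have vX := hX.val
  have vY := hY.val
  rcases h1 with h1 | ⟨w, hw, v, hv, rfl⟩
  · rcases h1' with h1' | ⟨w', hw', v', hv', rfl⟩
    · have e1 : y = g₁⁻¹ * w₁ * g₁' := by rw [hw₁d]; group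
      rw [e1]
      exact Subgroup.mul_mem _ (Subgroup.mul_mem _ (Subgroup.inv_mem _ h1) hw₁) h1'
    · exfalso
      have F' := hY.FB2 hw' hv' h2' hne'
      rcases h2 with h2 | ⟨w'', hw'', v'', hv'', rfl⟩
      · apply F'.not_mem
        rw [e0']
        exact Subgroup.mul_mem _ (Subgroup.mul_mem _ hw₂i
          (Subgroup.mul_mem _ h2 (Subgroup.inv_mem _ h1))) hw₁
      · have F := hX.FB1 (σ := σ₂) h1 hw'' hv''
        have := (F.uniq F' hw₂ hw₁i e0).1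
        have a := vX σ₂
        have b := vY σ₁
        omega
  · have F := hX.FB2 hw hv h2 hne
    rcases h1' with h1' | ⟨w', hw', v', hv', rfl⟩
    · exfalso
      rcases h2' with h2' | ⟨w'', hw'', v'', hv'', rfl⟩
      · apply F.not_mem
        rw [e0]
        exact Subgroup.mul_mem _ (Subgroup.mul_mem _ hw₂
          (Subgroup.mul_mem _ h2' (Subgroup.inv_mem _ h1'))) hw₁i
      · have F' := hY.FB1 (σ := σ₂) h1' hw'' hv''
        have := (F.uniq F' hw₂ hw₁i e0).1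
        have a := vX σ₁
        have b := vY σ₂
        omega
    · have F' := hY.FB2 hw' hv' h2' hne'
      obtain ⟨k1, τ₀, hτ₀, k2, k3⟩ := F.uniq F' hw₂ hw₁i e0
      obtain ⟨q1, q2⟩ := hXY σ₁ (by omega)
      rw [← q2, inv_inv] at k3
      have hτ1 : τ₀ = 1 := by
        by_contra hτ1
        apply inv_not_mem (hX.wd σ₁).hα
        apply hG.mal τ₀⁻¹ (V.inv_mem hτ₀) (inv_ne_one.2 hτ1)
        rw [inv_inv]; exact k3
      rw [hτ1, map_one] at k2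
      have e2 : w = w₁ * w' := by
        have : w = w₁ * w' * (w'⁻¹ * w₁⁻¹ * w) := by group
        rw [k2, mul_one] at this
        exact this
      have e3 : y = v⁻¹ * v' := by
        have e4 : y = (w * X σ₁ * v)⁻¹ * w₁ * (w' * Y σ₁ * v') := by rw [hw₁d]; group
        have e5 : (w * X σ₁ * v)⁻¹ * w₁ * (w' * Y σ₁ * v') =
            v⁻¹ * (X σ₁)⁻¹ * (w⁻¹ * (w₁ * w')) * Y σ₁ * v' := by group
        rw [e4, e5, ← e2, ← q1]; group
      rw [e3]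
      exact Subgroup.mul_mem _ (Subgroup.inv_mem _ hv) hv'

theorem dis_of (hX : WSys hG d X kX αX) (hY : WSys hG d Y kY αY)
    (hXY : ∀ σ, kX σ ≠ kY σ) (σ : ℤˣ) : ∀ w ∈ VV hG, ∀ v ∈ VV hG, X σ ≠ w * Y σ * v := by
  intro w hw v hv h
  have F := hX.FB1 (σ := σ) (g := 1) (w := 1) (v := 1) (Subgroup.one_mem _) (Subgroup.one_mem _)
    (Subgroup.one_mem _)
  have F' := hY.FB1 (σ := σ) (g := 1) (w := 1) (v := 1) (Subgroup.one_mem _) (Subgroup.one_mem _)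
    (Subgroup.one_mem _)
  exact hXY σ (F.uniq F' hw hv (by simpa using h)).1

theorem not_mem_of (hX : WSys hG d X kX αX) (σ : ℤˣ) : X σ ∉ VV hG := by
  have F := hX.FB1 (σ := σ) (g := 1) (w := 1) (v := 1) (Subgroup.one_mem _) (Subgroup.one_mem _)
    (Subgroup.one_mem _)
  have := F.not_mem
  simpa using this

end Pool.Agent.Helper495.E97
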