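import Mathlib
import Pool.Agent.Helper495.E97.T3a

set_option autoImplicit false

namespace Pool.Agent.Helper495.E97

open HNNExtension HNNExtension.NormalWord

section words

variable {G : Type*} [Group G] {V : Subgroup G} {hG : Good V} {d : TransversalPair G V V}

theorem sq_not_mem (hG : Good V) {a v : G} (ha : a ∉ V) (hv : v ∈ V) : a * v * a ∉ V := by
  intro h
  have h1 : a * v ∉ V := fun h' => ha (by
    have := V.mul_mem h' (V.inv_mem hv)
    rwa [mul_inv_cancel_right] at this)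
  have h2 : (a * v) * (a * v) ∈ V := by
    have := V.mul_mem h hv
    rwa [mul_assoc (a * v)] at this
  apply h1
  by_cases h3 : (a * v) * (a * v) = 1
  · rw [hG.tf (a * v) 2 (by norm_num) (by rw [pow_two]; exact h3)]
    exact V.one_mem
  · exact hG.mal.cent h2 h3 ((Commute.refl _).mul_right (Commute.refl _))

theorem Wd_simple {β : G} (hβ : β ∉ V) {k : ℤ} (hk : k ≠ 0) :
    Wd hG d (of β * t ^ k * of β) k β where
  hk := hk
  hα := hβ
  fwd := ⟨of β, RW.of hβ, rfl⟩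
  bwd := ⟨of β⁻¹, RW.of (inv_not_mem hβ), by rw [map_inv]; group,
    fun z m h₂ v hz hm hh₂ hv hj => hz.glue hm hh₂ (inv_not_mem hβ) hv hj⟩

theorem Wd_double {a h : G} (ha : a ∉ V) (hh : h ∉ V) :
    Wd hG d (of a * t ^ (2 : ℤ) * of h * t ^ (2 : ℤ) * of a) 2 a where
  hk := by norm_num
  hα := ha
  fwd := ⟨of a * t ^ (2 : ℤ) * of h, (RW.of ha).snoc (by norm_num) hh, rfl⟩
  bwd := ⟨of a⁻¹ * t ^ (-2 : ℤ) * of h⁻¹,
    (RW.of (inv_not_mem ha)).snoc (by norm_num) (inv_not_mem hh),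
    by simp only [map_inv]; group,
    fun z m h₂ v hz hm hh₂ hv hj => by
      have h1 := (hz.glue hm hh₂ (inv_not_mem ha) hv hj).snoc (m := -2) (by norm_num)
        (inv_not_mem hh)
      have e : z * t ^ m * of h₂ * v * of a⁻¹ * t ^ (-2 : ℤ) * of h⁻¹ =
        z * t ^ m * of h₂ * v * (of a⁻¹ * t ^ (-2 : ℤ) * of h⁻¹) := by group
      rwa [e] at h1⟩

/-- the first system -/
noncomputable def Xw (V : Subgroup G) (a : G) (σ : ℤˣ) : CX V :=
  if σ = 1 then of a * t ^ (2 : ℤ) * of a else of a⁻¹ * t ^ (-1 : ℤ) * of a⁻¹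

/-- the second system -/
noncomputable def Yw (V : Subgroup G) (a h : G) (σ : ℤˣ) : CX V :=
  if σ = 1 then of a⁻¹ * t ^ (-1 : ℤ) * of a⁻¹ else
    of a * t ^ (2 : ℤ) * of h * t ^ (2 : ℤ) * of a

theorem jn_aux (hG : Good V) {a : G} (ha : a ∉ V) (ε : ℤˣ → ℤˣ) (hε : Function.Injective ε)
    (σ₁ σ₂ : ℤˣ) (v₀ : G) (hv₀ : v₀ ∈ V)
    (h : a ^ (ε σ₂ : ℤ) * v₀ * (a ^ (ε σ₁ : ℤ))⁻¹ ∈ V) : σ₁ = σ₂ ∧ v₀ = 1 := by
  have ha' := inv_not_mem ha
  have h1 : ∀ ε : ℤˣ, a ^ (ε : ℤ) ∉ V := by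
    intro ε
    rcases Int.units_eq_one_or ε with rfl | rfl
    · simpa using ha
    · simpa using ha'
  by_cases hσ : σ₁ = σ₂
  · subst hσ
    refine ⟨rfl, ?_⟩
    by_contra hv1
    exact h1 _ (hG.mal v₀ hv₀ hv1 _ h)
  · exfalso
    have h2 : ε σ₁ = -ε σ₂ := by
      have : ε σ₁ ≠ ε σ₂ := fun h => hσ (hε h)
      rcases Int.units_eq_one_or (ε σ₁) with h | h <;>
        rcases Int.units_eq_one_or (ε σ₂) with h' | h' <;> simp_all
    rw [h2] at h
    simp only [Units.val_neg, zpow_neg, inv_inv] at h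
    exact sq_not_mem hG (h1 _) hv₀ h

theorem Xw_sys (hG : Good V) (d : TransversalPair G V V) {a : G} (ha : a ∉ V) :
    WSys hG d (Xw V a) (fun σ => if σ = 1 then 2 else -1) (fun σ => a ^ (σ : ℤ)) where
  wd := by
    intro σ
    rcases Int.units_eq_one_or σ with rfl | rfl
    · simpa [Xw] using Wd_simple (hG := hG) (d := d) ha (k := 2) (by norm_num)
    · simpa [Xw] using Wd_simple (hG := hG) (d := d) (inv_not_mem ha) (k := -1) (by norm_num)
  jn := fun σ₁ σ₂ v₀ hv₀ h => jn_aux hG ha id (fun _ _ h => h) σ₁ σ₂ v₀ hv₀ h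
  val := by
    intro σ
    rcases Int.units_eq_one_or σ with rfl | rfl
    · simp
    · simp

theorem Yw_sys (hG : Good V) (d : TransversalPair G V V) {a h : G} (ha : a ∉ V) (hh : h ∉ V) :
    WSys hG d (Yw V a h) (fun σ => if σ = 1 then -1 else 2) (fun σ => a ^ ((-σ : ℤˣ) : ℤ)) where
  wd := by
    intro σ
    rcases Int.units_eq_one_or σ with rfl | rfl
    · simpa [Yw] using Wd_simple (hG := hG) (d := d) (inv_not_mem ha) (k := -1) (by norm_num)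
    · simpa [Yw] using Wd_double (hG := hG) (d := d) ha hh
  jn := fun σ₁ σ₂ v₀ hv₀ h => jn_aux hG ha (fun σ => -σ) (fun _ _ h => neg_injective h)
    σ₁ σ₂ v₀ hv₀ h
  val := by
    intro σ
    rcases Int.units_eq_one_or σ with rfl | rfl
    · simp
    · simp

end words

theorem rel_aux {H : Type*} [Group H] (a g x u v v₁ : H)
    (h : a⁻¹ * ((x ^ (2 : ℤ))⁻¹ * (a⁻¹ * (g * a⁻¹) * ((x ^ (2 : ℤ))⁻¹ * a⁻¹))) * u *
      (a⁻¹ * x ^ (-1 : ℤ) * a⁻¹) =
      v * (a * ((x ^ (-1 : ℤ))⁻¹ * a) * u * (a * x ^ (2 : ℤ) * a)) * v⁻¹) :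
    g * v₁ = a * x ^ 2 * (a * v * (a * x * (a * u * (a * x ^ 2 * (a * v⁻¹ * (a * x *
      (a * u⁻¹ * (a * x ^ 2 * (a * v₁))))))))) := by
  have e : a * x ^ 2 * (a * v * (a * x * (a * u * (a * x ^ 2 * (a * v⁻¹ * (a * x *
      (a * u⁻¹ * (a * x ^ 2 * (a * v₁))))))))) =
      a * x ^ 2 * a * (v * (a * ((x ^ (-1 : ℤ))⁻¹ * a) * u * (a * x ^ (2 : ℤ) * a)) * v⁻¹) *
        a * x * a * u⁻¹ * a * x ^ 2 * a * v₁ := by
    have : (x ^ (2 : ℤ) : H) = x ^ 2 := by norm_cast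
    rw [this, zpow_neg_one, inv_inv]
    simp only [mul_assoc]
  rw [e, ← h]
  group

theorem T3_core (S : GP) (a g v₁ : S.G) (ha : a ∉ S.V) (hh : a * g⁻¹ * a ∉ S.V)
    (hv₁ : v₁ ∈ S.V) :
    ∃ (S' : GP) (j : S.G →* S'.G), Ext S S' j ∧
      ∃ l : List S'.G, l.length = 10 ∧ (∀ y ∈ l, y ∈ S'.V) ∧
        j (g * v₁) = (l.map (fun y => j a * y)).prod := by
  obtain ⟨d⟩ := TransversalPair.nonempty S.G S.V S.V
  have hG := S.good
  have hX := Xw_sys hG d ha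
  have hY := Yw_sys hG d ha hh
  have hne : ∀ σ : ℤˣ, (if σ = 1 then (2 : ℤ) else -1) ≠ (if σ = 1 then (-1 : ℤ) else 2) := by
    intro σ
    split_ifs <;> norm_num
  -- first extension
  let S₁ := S.s1 _ (s1_data_self hG)
  have hG₁ : Good (VV hG) := S₁.good
  obtain ⟨A, B, ψ, hS₃, hb, hψ⟩ := T3b hG₁ (Xw S.V a) (Yw S.V a (a * g⁻¹ * a))
    (not_mem_of hX) (not_mem_of hY) (LL_of hX hX (fun _ _ => ⟨rfl, rfl⟩))
    (LL_of hY hY (fun _ _ => ⟨rfl, rfl⟩)) (LL_of hX hY (fun σ h => absurd h (hne σ)))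
    (dis_of hX hY hne)
  let S₂ : GP := S₁.s1 _ (s1_data_self hG₁)
  let S₃ : GP := S₂.s1 ψ hS₃
  have hE : Ext S S₃ (of.comp (of.comp of)) :=
    (S₂.s1_ext ψ hS₃).comp ((S₁.s1_ext _ (s1_data_self hG₁)).comp (S.s1_ext _ (s1_data_self hG)))
  -- special elements
  let x : HNNExtension (CX (VV hG)) A B ψ := of (of t)
  let u : HNNExtension (CX (VV hG)) A B ψ := of t
  let v : HNNExtension (CX (VV hG)) A B ψ := t
  have hx : x ∈ S₃.V := of_mem_Vt hS₃ (of_mem_Vt (s1_data_self hG₁) (t_mem_Vt (s1_data_self hG)))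
  have hu : u ∈ S₃.V := of_mem_Vt hS₃ (t_mem_Vt (s1_data_self hG₁))
  have hv : v ∈ S₃.V := t_mem_Vt hS₃
  have hv₁' : (of (of (of v₁)) : HNNExtension (CX (VV hG)) A B ψ) ∈ S₃.V :=
    of_mem_Vt hS₃ (of_mem_Vt (s1_data_self hG₁) (of_mem_Vt (s1_data_self hG) hv₁))
  refine ⟨S₃, _, hE, [x ^ 2, v, x, u, x ^ 2, v⁻¹, x, u⁻¹, x ^ 2, of (of (of v₁))], rfl, ?_, ?_⟩
  · intro y hy
    simp only [List.mem_cons, List.not_mem_nil, or_false] at hy
    rcases hy with rfl | rfl | rfl | rfl | rfl | rfl | rfl | rfl | rfl | rfl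
    · exact Subgroup.pow_mem _ hx 2
    · exact hv
    · exact hx
    · exact hu
    · exact Subgroup.pow_mem _ hx 2
    · exact Subgroup.inv_mem _ hv
    · exact hx
    · exact Subgroup.inv_mem _ hu
    · exact Subgroup.pow_mem _ hx 2
    · exact hv₁'
  · -- the relation
    have h1 := equiv_eq_conj (φ := ψ) ⟨_, hb⟩
    rw [hψ] at h1
    simp only [Xw, Yw, if_true, if_neg (show ¬ (-1 : ℤˣ) = 1 by decide), map_mul, map_inv,
      map_zpow, mul_inv_rev, inv_inv] at h1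
    change (of (of (of (g * v₁))) : HNNExtension (CX (VV hG)) A B ψ) =
      ([x ^ 2, v, x, u, x ^ 2, v⁻¹, x, u⁻¹, x ^ 2, of (of (of v₁))].map
        (fun y => of (of (of a)) * y)).prod
    simp only [List.map_cons, List.map_nil, List.prod_cons, List.prod_nil, mul_one, map_mul]
    exact rel_aux _ _ _ _ _ _ h1

/-- third kind of step -/
theorem T3 (S : GP) (a g : S.G) (ha : a ∉ S.V) :
    ∃ (S' : GP) (j : S.G →* S'.G), Ext S S' j ∧
      ∃ l : List S'.G, l.length = 10 ∧ (∀ y ∈ l, y ∈ S'.V) ∧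
        j g = (l.map (fun y => j a * y)).prod := by
  by_cases hh : a * g⁻¹ * a ∈ S.V
  · obtain ⟨v₁, hv₁, hv₁1⟩ := S.good.ne_bot
    have h2 : a * (g * v₁⁻¹)⁻¹ * a ∉ S.V := by
      intro h2
      have h3 := S.V.mul_mem h2 (S.V.inv_mem hh)
      have e : a * (g * v₁⁻¹)⁻¹ * a * (a * g⁻¹ * a)⁻¹ = a * v₁ * a⁻¹ := by group
      rw [e] at h3
      exact ha (S.good.mal v₁ hv₁ hv₁1 a h3)
    have := T3_core S a (g * v₁⁻¹) v₁ ha h2 hv₁
    rwa [inv_mul_cancel_right] at this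
  · have := T3_core S a g 1 ha hh S.V.one_mem
    rwa [mul_one] at this

end Pool.Agent.Helper495.E97
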