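import Mathlib
import Pool.Agent.Helper495.E97.T3

set_option autoImplicit false

namespace Pool.Agent.Helper495.E97

section limit

variable (G : ℕ → Type) [∀ n, Group (G n)] (J : ∀ n, G n →* G (n + 1))

/-- composite transition maps -/
def JJ (i : ℕ) : ∀ j, i ≤ j → (G i →* G j) := fun _ h =>
  Nat.leRec (motive := fun j _ => G i →* G j) (MonoidHom.id (G i)) (fun k _ g => (J k).comp g) h

theorem JJ_self (i : ℕ) : JJ G J i i le_rfl = MonoidHom.id (G i) := by
  simp [JJ]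

theorem JJ_succ (i j : ℕ) (h : i ≤ j) : JJ G J i (j + 1) (h.trans (Nat.le_succ j)) =
    (J j).comp (JJ G J i j h) := by
  simp only [JJ]
  rw [Nat.leRec_succ]

theorem JJ_trans (i j : ℕ) (hij : i ≤ j) : ∀ k (hjk : j ≤ k),
    (JJ G J j k hjk).comp (JJ G J i j hij) = JJ G J i k (hij.trans hjk) := by
  intro k hjk
  induction k, hjk using Nat.le_induction with
  | base => rw [JJ_self, MonoidHom.id_comp]
  | succ k hk ih =>
    rw [JJ_succ G J j k hk, JJ_succ G J i k (hij.trans hk), MonoidHom.comp_assoc, ih]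

theorem JJ_injective (hJ : ∀ n, Function.Injective (J n)) (i : ℕ) :
    ∀ j (h : i ≤ j), Function.Injective (JJ G J i j h) := by
  intro j h
  induction j, h using Nat.le_induction with
  | base => rw [JJ_self]; exact fun _ _ h => h
  | succ k hk ih =>
    rw [JJ_succ G J i k hk]
    exact (hJ k).comp ih

theorem exists_limit (hJ : ∀ n, Function.Injective (J n)) :
    ∃ (L : Type) (_ : Group L) (c : ∀ n, G n →* L), (∀ n, Function.Injective (c n)) ∧
      (∀ n x, c (n + 1) (J n x) = c n x) ∧ (∀ z, ∃ n x, c n x = z) := by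
  have : DirectedSystem G (fun i j h => JJ G J i j h) :=
    { map_self := fun i x => by rw [JJ_self]; rfl
      map_map := fun k j i hij hjk x => by
        rw [← JJ_trans G J _ _ hij _ hjk]; rfl }
  let L := DirectLimit G (fun i j h => JJ G J i j h)
  let c : ∀ n, G n →* L := fun n =>
    { toFun := fun x => ⟦⟨n, x⟩⟧
      map_one' := (DirectLimit.one_def n).symm
      map_mul' := fun x y => (DirectLimit.mul_def n x y).symm }
  refine ⟨L, inferInstance, c, ?_, ?_, ?_⟩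
  · intro n
    exact DirectLimit.mk_injective _ (fun i j hij => JJ_injective G J hJ i j hij) n
  · intro n x
    have h1 := DirectLimit.eq_of_le (f := fun i j h => JJ G J i j h) ⟨n, x⟩ (n + 1) (Nat.le_succ n)
    have h2 : JJ G J n (n + 1) (Nat.le_succ n) x = J n x := by
      have := JJ_succ G J n n le_rfl
      rw [this, JJ_self]; rfl
    change (⟦⟨n + 1, J n x⟩⟧ : L) = ⟦⟨n, x⟩⟧
    rw [h1]
    congr 1
    rw [← h2]
  · intro z
    obtain ⟨i, x, hx⟩ := DirectLimit.exists_eq_mk (fun i j h => JJ G J i j h) z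
    exact ⟨i, x, hx.symm⟩

end limit

section base

theorem good_top : Good (⊤ : Subgroup (Multiplicative ℤ)) where
  tf := by
    intro g n hn hg
    have h1 : n • Multiplicative.toAdd g = 0 := by
      have := congrArg Multiplicative.toAdd hg
      simpa using this
    have h2 : Multiplicative.toAdd g = 0 := by
      rw [nsmul_eq_mul] at h1
      rcases mul_eq_zero.1 h1 with h | h
      · exfalso
        have : n = 0 := by exact_mod_cast h
        omega
      · exact h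
    simpa using h2
  comm := fun x _ y _ => mul_comm x y
  mal := fun _ _ _ _ _ => Subgroup.mem_top _
  ne_bot := ⟨Multiplicative.ofAdd 1, Subgroup.mem_top _, by simp⟩
  malp := fun x hx => absurd (CV_of_mem (Subgroup.mem_top x)) hx
  cyc := fun x hx => absurd (CV_of_mem (Subgroup.mem_top x)) hx

theorem base_data : S2Data (⊤ : Subgroup (Multiplicative ℤ))
    (MulEquiv.refl (⊥ : Subgroup (Multiplicative ℤ))) where
  BV := bot_le
  malA := fun g hg hg1 => absurd (Subgroup.mem_bot.1 hg) hg1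
  nV := fun g hg hg1 => absurd (Subgroup.mem_bot.1 hg) hg1

/-- the starting pair -/
noncomputable def baseGP : GP where
  G := HNNExtension (Multiplicative ℤ) ⊥ ⊥ (MulEquiv.refl _)
  V := (⊤ : Subgroup (Multiplicative ℤ)).map HNNExtension.of
  good := S2_good base_data good_top
  prop := by
    refine ⟨HNNExtension.t, ?_⟩
    rintro ⟨v, -, h⟩
    obtain ⟨d⟩ := HNNExtension.NormalWord.TransversalPair.nonempty (Multiplicative ℤ) ⊥ ⊥
    have h1 := len_t (MulEquiv.refl (⊥ : Subgroup (Multiplicative ℤ))) d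
    rw [← h, len_of] at h1
    omega

end base

theorem CV.ext {S S' : GP} {j : S.G →* S'.G} (hj : Ext S S' j) {x : S.G} (h : CV S.V x) :
    CV S'.V (j x) := by
  obtain ⟨k, hk⟩ := h
  refine ⟨j k, ?_⟩
  rw [← map_inv, ← map_mul, ← map_mul]
  exact (hj.mem _).2 hk

/-- what one stage of the tower achieves -/
structure Stage (S S' : GP) (j : S.G →* S'.G) (x y : S.G) : Prop where
  ext : Ext S S' j
  p1 : CV S'.V (j x)
  p2 : x ∈ S.V → x ≠ 1 → y ≠ 1 → ∃ k₁ k₂, j y = (k₁ * j x * k₁⁻¹) * (k₂ * j x * k₂⁻¹)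
  p3 : x ∉ S.V → ∃ l : List S'.G, l.length = 10 ∧ (∀ z ∈ l, z ∈ S'.V) ∧
    j y = (l.map (fun z => j x * z)).prod

theorem exists_stage (S : GP) (x y : S.G) : ∃ (S' : GP) (j : S.G →* S'.G), Stage S S' j x y := by
  obtain ⟨S₁, j₁, hj₁, h1⟩ := T1 S x
  by_cases hx : x ∈ S.V
  · by_cases hx1 : x = 1
    · exact ⟨S₁, j₁, hj₁, h1, fun _ h => absurd hx1 h, fun h => absurd hx h⟩
    · by_cases hy1 : y = 1
      · exact ⟨S₁, j₁, hj₁, h1, fun _ _ h => absurd hy1 h, fun h => absurd hx h⟩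
      · have n1 : j₁ x ≠ 1 := fun h => hx1 (hj₁.inj (h.trans (map_one _).symm))
        have n2 : j₁ y ≠ 1 := fun h => hy1 (hj₁.inj (h.trans (map_one _).symm))
        obtain ⟨S₂, j₂, hj₂, k₁, k₂, e⟩ := T2 S₁ (j₁ x) (j₁ y) ((hj₁.mem x).2 hx) n1 n2
        exact ⟨S₂, j₂.comp j₁, hj₂.comp hj₁, h1.ext hj₂, fun _ _ _ => ⟨k₁, k₂, e⟩,
          fun h => absurd hx h⟩
  · obtain ⟨S₂, j₂, hj₂, l, e⟩ := T3 S₁ (j₁ x) (j₁ y) (fun h => hx ((hj₁.mem x).1 h))
    exact ⟨S₂, j₂.comp j₁, hj₂.comp hj₁, h1.ext hj₂, fun h => absurd h hx,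
      fun _ => ⟨l, e⟩⟩

/-- stages of the construction, with the bookkeeping of enumerations -/
structure St where
  S : GP
  q : ℕ → ℕ → S.G × S.G

noncomputable def enum (S : GP) : ℕ → S.G × S.G :=
  (exists_surjective_nat (S.G × S.G)).choose

theorem enum_surj (S : GP) : Function.Surjective (enum S) :=
  (exists_surjective_nat (S.G × S.G)).choose_spec

/-- the next group -/
noncomputable def nS (n : ℕ) (st : St) : GP :=
  (exists_stage st.S (st.q n.unpair.1 n.unpair.2).1 (st.q n.unpair.1 n.unpair.2).2).choose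

noncomputable def nj (n : ℕ) (st : St) : st.S.G →* (nS n st).G :=
  (exists_stage st.S (st.q n.unpair.1 n.unpair.2).1
    (st.q n.unpair.1 n.unpair.2).2).choose_spec.choose

theorem nj_spec (n : ℕ) (st : St) : Stage st.S (nS n st) (nj n st)
    (st.q n.unpair.1 n.unpair.2).1 (st.q n.unpair.1 n.unpair.2).2 :=
  (exists_stage st.S (st.q n.unpair.1 n.unpair.2).1
    (st.q n.unpair.1 n.unpair.2).2).choose_spec.choose_spec

noncomputable def nxt (n : ℕ) (st : St) : St where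
  S := nS n st
  q := fun i k => if i = n + 1 then enum _ k else
    (nj n st (st.q i k).1, nj n st (st.q i k).2)

noncomputable def sq : ℕ → St
  | 0 => ⟨baseGP, fun _ k => enum _ k⟩
  | n + 1 => nxt n (sq n)

noncomputable def sj (n : ℕ) : (sq n).S.G →* (sq (n + 1)).S.G := nj n (sq n)

theorem sj_spec (n : ℕ) : Stage (sq n).S (sq (n + 1)).S (sj n)
    ((sq n).q n.unpair.1 n.unpair.2).1 ((sq n).q n.unpair.1 n.unpair.2).2 := nj_spec n (sq n)

theorem q_succ (n i k : ℕ) (hi : i ≤ n) : (sq (n + 1)).q i k =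
    (sj n ((sq n).q i k).1, sj n ((sq n).q i k).2) :=
  if_neg (by omega : ¬ i = n + 1)

theorem q_self (n : ℕ) : Function.Surjective ((sq n).q n) := by
  cases n with
  | zero => exact enum_surj _
  | succ n =>
    have : (sq (n + 1)).q (n + 1) = enum _ := by
      funext k
      exact if_pos (rfl : n + 1 = n + 1)
    rw [this]
    exact enum_surj _

/-- the limit group and its distinguished subgroup -/
theorem limit_group : ∃ (L : Type) (_ : Group L) (V : Subgroup L),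
    (∀ x ∈ V, ∀ y ∈ V, x * y = y * x) ∧ Mal V ∧ (∃ v ∈ V, v ≠ 1) ∧ (∃ a, a ∉ V) ∧
    (∀ x, CV V x) ∧
    (∀ x ∈ V, x ≠ 1 → ∀ y, y ≠ 1 → ∃ k₁ k₂, y = (k₁ * x * k₁⁻¹) * (k₂ * x * k₂⁻¹)) ∧
    (∀ a, a ∉ V → ∀ y, ∃ l : List L, l.length = 10 ∧ (∀ z ∈ l, z ∈ V) ∧
      y = (l.map (fun z => a * z)).prod) := by
  obtain ⟨L, hL, c, hc, hcJ, hcs⟩ := exists_limit (fun n => (sq n).S.G) sj
    (fun n => (sj_spec n).ext.inj)
  -- membership is stable
  have hup : ∀ n (x : (sq n).S.G) (m : ℕ), n ≤ m → ∃ x' : (sq m).S.G, c m x' = c n x ∧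
      (x' ∈ (sq m).S.V ↔ x ∈ (sq n).S.V) := by
    intro n x m hm
    induction m, hm using Nat.le_induction with
    | base => exact ⟨x, rfl, Iff.rfl⟩
    | succ m hm ih =>
      obtain ⟨x', h1, h2⟩ := ih
      exact ⟨sj m x', by rw [hcJ, h1], ((sj_spec m).ext.mem x').trans h2⟩
  have hmem : ∀ n m (x : (sq n).S.G) (y : (sq m).S.G), c n x = c m y →
      (x ∈ (sq n).S.V ↔ y ∈ (sq m).S.V) := by
    intro n m x y h
    obtain ⟨x', h1, h2⟩ := hup n x (max n m) (le_max_left _ _)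
    obtain ⟨y', h3, h4⟩ := hup m y (max n m) (le_max_right _ _)
    have : x' = y' := hc _ (by rw [h1, h3, h])
    rw [← h2, ← h4, this]
  let V : Subgroup L :=
    { carrier := {z | ∃ n, ∃ x ∈ (sq n).S.V, c n x = z}
      one_mem' := ⟨0, 1, Subgroup.one_mem _, map_one _⟩
      mul_mem' := by
        rintro _ _ ⟨n, x, hx, rfl⟩ ⟨m, y, hy, rfl⟩
        obtain ⟨x', h1, h2⟩ := hup n x (max n m) (le_max_left _ _)
        obtain ⟨y', h3, h4⟩ := hup m y (max n m) (le_max_right _ _)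
        exact ⟨max n m, x' * y', Subgroup.mul_mem _ (h2.2 hx) (h4.2 hy), by
          rw [map_mul, h1, h3]⟩
      inv_mem' := by
        rintro _ ⟨n, x, hx, rfl⟩
        exact ⟨n, x⁻¹, Subgroup.inv_mem _ hx, map_inv _ _⟩ }
  have hV : ∀ n (x : (sq n).S.G), c n x ∈ V ↔ x ∈ (sq n).S.V := by
    intro n x
    constructor
    · rintro ⟨m, y, hy, h⟩
      exact (hmem m n y x h).1 hy
    · intro hx
      exact ⟨n, x, hx, rfl⟩
  -- pairs
  have hpair : ∀ x y : L, ∃ (n : ℕ) (x' y' : (sq n).S.G), c n x' = x ∧ c n y' = y := by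
    intro x y
    obtain ⟨n, x', rfl⟩ := hcs x
    obtain ⟨m, y', rfl⟩ := hcs y
    obtain ⟨x'', h1, h2⟩ := hup n x' (max n m) (le_max_left _ _)
    obtain ⟨y'', h3, h4⟩ := hup m y' (max n m) (le_max_right _ _)
    exact ⟨max n m, x'', y'', h1, h3⟩
  have hstage : ∀ x y : L, ∃ (n : ℕ) (x' y' : (sq n).S.G), c n x' = x ∧ c n y' = y ∧
      Stage (sq n).S (sq (n + 1)).S (sj n) x' y' := by
    intro x y
    obtain ⟨i, x', y', rfl, rfl⟩ := hpair x y
    obtain ⟨k, hk⟩ := q_self i (x', y')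
    have hle : i ≤ Nat.pair i k := Nat.left_le_pair i k
    have key : ∀ n, i ≤ n → c n ((sq n).q i k).1 = c i x' ∧ c n ((sq n).q i k).2 = c i y' := by
      intro n hn
      induction n, hn using Nat.le_induction with
      | base => rw [hk]; exact ⟨rfl, rfl⟩
      | succ n hn ih =>
        rw [q_succ n i k hn]
        simp only
        rw [hcJ, hcJ]
        exact ih
    have h1 := sj_spec (Nat.pair i k)
    rw [Nat.unpair_pair] at h1
    exact ⟨Nat.pair i k, _, _, (key _ hle).1, (key _ hle).2, h1⟩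
  refine ⟨L, hL, V, ?_, ?_, ?_, ?_, ?_, ?_, ?_⟩
  · intro x hx y hy
    obtain ⟨n, x', y', rfl, rfl⟩ := hpair x y
    rw [hV] at hx hy
    rw [← map_mul, (sq n).S.good.comm x' hx y' hy, map_mul]
  · intro x hx hx1 a ha
    obtain ⟨n, x', a', rfl, rfl⟩ := hpair x a
    rw [← map_inv, ← map_mul, ← map_mul, hV] at ha
    rw [hV] at hx ⊢
    apply (sq n).S.good.mal x' hx _ a' ha
    rintro rfl
    exact hx1 (map_one _)
  · obtain ⟨v, hv, hv1⟩ := (sq 0).S.good.ne_bot
    exact ⟨c 0 v, (hV 0 v).2 hv, fun h => hv1 (hc 0 (h.trans (map_one _).symm))⟩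
  · obtain ⟨a, ha⟩ := (sq 0).S.prop
    exact ⟨c 0 a, fun h => ha ((hV 0 a).1 h)⟩
  · intro x
    obtain ⟨n, x', y', rfl, -, hst⟩ := hstage x x
    obtain ⟨k, hk⟩ := hst.p1
    refine ⟨c (n + 1) k, ?_⟩
    rw [← hcJ n x', ← map_inv, ← map_mul, ← map_mul]
    exact (hV _ _).2 hk
  · intro x hx hx1 y hy1
    obtain ⟨n, x', y', rfl, rfl, hst⟩ := hstage x y
    obtain ⟨k₁, k₂, e⟩ := hst.p2 ((hV _ _).1 hx) (fun h => hx1 (by rw [h, map_one]))
      (fun h => hy1 (by rw [h, map_one]))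
    refine ⟨c (n + 1) k₁, c (n + 1) k₂, ?_⟩
    rw [← hcJ n x', ← hcJ n y', e]
    simp only [map_mul, map_inv]
  · intro a ha y
    obtain ⟨n, x', y', rfl, rfl, hst⟩ := hstage a y
    obtain ⟨l, hl, hlV, e⟩ := hst.p3 (fun h => ha ((hV _ _).2 h))
    refine ⟨l.map (c (n + 1)), by simpa using hl, ?_, ?_⟩
    · intro z hz
      obtain ⟨z', hz', rfl⟩ := List.mem_map.1 hz
      exact (hV _ _).2 (hlV z' hz')
    · rw [← hcJ n x', ← hcJ n y', e, map_list_prod, List.map_map, List.map_map]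
      congr 1
      apply List.map_congr_left
      intro z _
      simp

theorem ofFn_of_list {α : Type*} (m : ℕ) (l : List α) (hl : l.length = m) :
    ∃ f : Fin m → α, List.ofFn f = l := by
  subst hl
  exact ⟨fun i => l.get i, List.ofFn_get l⟩

theorem final :
    ∃ (G : Type) (_ : Group G),
      IsSimpleGroup G ∧
      (∃ n : ℕ, ∀ g : G, g ≠ 1 → ∀ x : G,
        ∃ f : Fin n → G, (∀ i, IsConj g (f i)) ∧ (List.ofFn f).prod = x) ∧
      (∀ H K : Subgroup G,
        Maximal (fun L : Subgroup G => ∀ x ∈ L, ∀ y ∈ L, x * y = y * x) H →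
        Maximal (fun L : Subgroup G => ∀ x ∈ L, ∀ y ∈ L, x * y = y * x) K →
        ∃ g : G, ∀ x : G, x ∈ K ↔ g⁻¹ * x * g ∈ H) ∧
      (∀ H : Subgroup G,
        Maximal (fun L : Subgroup G => ∀ x ∈ L, ∀ y ∈ L, x * y = y * x) H →
        (∀ g : G, (∀ x : G, x ∈ H ↔ g * x * g⁻¹ ∈ H) → g ∈ H) ∧
        (∀ h : G, h ∈ H → h ≠ 1 → ∀ g : G, (g * h = h * g ↔ g ∈ H))) ∧
      (∃ m : ℕ, ∀ H : Subgroup G,
        Maximal (fun L : Subgroup G => ∀ x ∈ L, ∀ y ∈ L, x * y = y * x) H →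
        ∀ a : G, a ∉ H → ∀ x : G,
          ∃ f : Fin m → G, (∀ i, a⁻¹ * f i ∈ H) ∧ (List.ofFn f).prod = x) := by
  obtain ⟨L, hL, V, hcomm, hmal, ⟨v₀, hv₀, hv₀1⟩, ⟨a₀, ha₀⟩, hcv, hT2, hT3⟩ := limit_group
  -- every nontrivial element is a product of two conjugates of any nontrivial element
  have hT2' : ∀ g x : L, g ≠ 1 → x ≠ 1 → ∃ k₁ k₂, x = (k₁ * g * k₁⁻¹) * (k₂ * g * k₂⁻¹) := by
    intro g x hg hx
    obtain ⟨k, hk⟩ := hcv g
    obtain ⟨k₁, k₂, e⟩ := hT2 _ hk (conj_ne_one hg k) x hx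
    exact ⟨k₁ * k, k₂ * k, by rw [e]; group⟩
  -- every element is a product of three conjugates
  have hT3' : ∀ g x : L, g ≠ 1 → ∃ k₁ k₂ k₃, x =
      (k₁ * g * k₁⁻¹) * ((k₂ * g * k₂⁻¹) * (k₃ * g * k₃⁻¹)) := by
    intro g x hg
    have key : ∀ k₁, k₁ * g * k₁⁻¹ ≠ x → ∃ k₂ k₃, x =
        (k₁ * g * k₁⁻¹) * ((k₂ * g * k₂⁻¹) * (k₃ * g * k₃⁻¹)) := by
      intro k₁ h
      obtain ⟨k₂, k₃, e⟩ := hT2' g ((k₁ * g * k₁⁻¹)⁻¹ * x) hg (by
        intro h1
        apply h
        rw [inv_mul_eq_one] at h1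
        exact h1)
      exact ⟨k₂, k₃, by rw [← e]; group⟩
    -- two different conjugates of g
    have h2 : ∃ k, k * g * k⁻¹ ≠ g := by
      obtain ⟨k, hk⟩ := hcv g
      refine ⟨k⁻¹ * a₀ * k, fun h => ha₀ ?_⟩
      apply hmal _ hk (conj_ne_one hg k) a₀
      have e : a₀ * (k * g * k⁻¹) * a₀⁻¹ = k * (k⁻¹ * a₀ * k * g * (k⁻¹ * a₀ * k)⁻¹) * k⁻¹ := by
        group
      rw [e, h]; exact hk
    by_cases hgx : (1 : L) * g * 1⁻¹ = x
    · obtain ⟨k, hk⟩ := h2
      obtain ⟨k₂, k₃, e⟩ := key k (fun h => hk (by rw [h, ← hgx]; group))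
      exact ⟨k, k₂, k₃, e⟩
    · obtain ⟨k₂, k₃, e⟩ := key 1 hgx
      exact ⟨1, k₂, k₃, e⟩
  -- maximal abelian subgroups are conjugates of V
  have hmax : ∀ H : Subgroup L,
      Maximal (fun L : Subgroup L => ∀ x ∈ L, ∀ y ∈ L, x * y = y * x) H →
      ∃ k : L, ∀ x, x ∈ H ↔ k * x * k⁻¹ ∈ V := by
    intro H hH
    have hne : ∃ h ∈ H, h ≠ 1 := by
      by_contra hcon
      push Not at hcon
      have hle : H ≤ V := fun h hh => by rw [hcon h hh]; exact V.one_mem
      exact hv₀1 (hcon v₀ (hH.2 hcomm hle hv₀))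
    obtain ⟨h, hhH, hh1⟩ := hne
    obtain ⟨k, hk⟩ := hcv h
    have hle : H ≤ V.comap (MulAut.conj k).toMonoidHom := by
      intro x hx
      rw [Subgroup.mem_comap]
      change k * x * k⁻¹ ∈ V
      apply hmal.cent hk (conj_ne_one hh1 k)
      exact (Commute.conj_iff k).2 (hH.1 x hx h hhH)
    have hge := hH.2 (y := V.comap (MulAut.conj k).toMonoidHom) (by
      intro x hx y hy
      have h1 : Commute (k * x * k⁻¹) (k * y * k⁻¹) := hcomm _ hx _ hy
      exact ((Commute.conj_iff k).1 h1).eq) hle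
    exact ⟨k, fun x => ⟨fun hx => hle hx, fun hx => hge hx⟩⟩
  refine ⟨L, hL, ?_, ⟨3, ?_⟩, ?_, ?_, ⟨10, ?_⟩⟩
  · have : Nontrivial L := ⟨v₀, 1, hv₀1⟩
    refine ⟨fun N hN => ?_⟩
    by_cases hbot : N = ⊥
    · exact Or.inl hbot
    · right
      obtain ⟨⟨g, hg⟩, hg0⟩ := (Subgroup.ne_bot_iff_exists_ne_one (H := N)).1 hbot
      have hg1 : g ≠ 1 := fun h => hg0 (Subtype.ext h)
      rw [eq_top_iff]
      intro x _
      obtain ⟨k₁, k₂, k₃, e⟩ := hT3' g x hg1
      rw [e]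
      exact N.mul_mem (hN.conj_mem _ hg _) (N.mul_mem (hN.conj_mem _ hg _) (hN.conj_mem _ hg _))
  · intro g hg x
    obtain ⟨k₁, k₂, k₃, e⟩ := hT3' g x hg
    refine ⟨![k₁ * g * k₁⁻¹, k₂ * g * k₂⁻¹, k₃ * g * k₃⁻¹], ?_, ?_⟩
    · intro i
      rw [isConj_iff]
      fin_cases i
      · exact ⟨k₁, rfl⟩
      · exact ⟨k₂, rfl⟩
      · exact ⟨k₃, rfl⟩
    · rw [e]; simp [List.ofFn_succ]
  · intro H K hH hK
    obtain ⟨k, hk⟩ := hmax H hH
    obtain ⟨k', hk'⟩ := hmax K hK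
    refine ⟨k'⁻¹ * k, fun x => ?_⟩
    rw [hk', hk]
    have e : k * ((k'⁻¹ * k)⁻¹ * x * (k'⁻¹ * k)) * k⁻¹ = k' * x * k'⁻¹ := by group
    rw [e]
  · intro H hH
    obtain ⟨k, hk⟩ := hmax H hH
    have hmalH : ∀ h ∈ H, h ≠ 1 → ∀ g, g * h * g⁻¹ ∈ H → g ∈ H := by
      intro h hh hh1 g hg
      rw [hk] at hh hg ⊢
      apply hmal _ hh (conj_ne_one hh1 k)
      have e : k * g * k⁻¹ * (k * h * k⁻¹) * (k * g * k⁻¹)⁻¹ = k * (g * h * g⁻¹) * k⁻¹ := by group
      rwa [e]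
    refine ⟨?_, ?_⟩
    · intro g hg
      -- a nontrivial element of H
      have hh : k⁻¹ * v₀ * k ∈ H := by
        rw [hk]
        have e : k * (k⁻¹ * v₀ * k) * k⁻¹ = v₀ := by group
        rwa [e]
      have hh1 : k⁻¹ * v₀ * k ≠ 1 := by
        have := conj_ne_one hv₀1 k⁻¹
        rwa [inv_inv] at this
      exact hmalH _ hh hh1 g ((hg _).1 hh)
    · intro h hh hh1 g
      constructor
      · intro hc
        apply hmalH h hh hh1
        rw [hc, mul_inv_cancel_right]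
        exact hh
      · intro hg
        exact hH.1 g hg h hh
  · intro H hH a ha x
    obtain ⟨k, hk⟩ := hmax H hH
    rw [hk] at ha
    obtain ⟨l, hl, hlV, e⟩ := hT3 _ ha (k * x * k⁻¹)
    obtain ⟨f, hf⟩ := ofFn_of_list 10 (l.map (fun z => a * (k⁻¹ * z * k))) (by simpa using hl)
    refine ⟨f, ?_, ?_⟩
    · intro i
      have hi : f i ∈ List.ofFn f := by
        rw [List.mem_ofFn]; exact ⟨i, rfl⟩
      rw [hf] at hi
      obtain ⟨z, hz, hfz⟩ := List.mem_map.1 hi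
      rw [← hfz, inv_mul_cancel_left, hk]
      have e2 : k * (k⁻¹ * z * k) * k⁻¹ = z := by group
      rw [e2]
      exact hlV z hz
    · rw [hf]
      have e3 : (l.map (fun z => a * (k⁻¹ * z * k))) =
          (l.map (fun z => k * a * k⁻¹ * z)).map (MulAut.conj k⁻¹) := by
        rw [List.map_map]
        apply List.map_congr_left
        intro z _
        simp only [Function.comp, MulAut.conj_apply]
        group
      rw [e3, ← map_list_prod, ← e, MulAut.conj_apply]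
      group

end Pool.Agent.Helper495.E97
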